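import Mathlib
import Pool.Agent.Lib.P9700a.Defs
import Pool.Agent.Lib.P9700a.Rank
import Pool.Agent.Lib.P9700b.MainV
import Pool.Agent.Lib.P9700c.FinC

/-!
# From a representation with virtually abelian kernel to the conclusion

`G = A B`, `σ` a finite-dimensional representation, `Z` an abelian normal subgroup of finite index in `ker σ`, `FR Z`. Then `FR G` and `VS G`.

Proof. (i) `main_plat` for `G ⧸ σ.ker` (faithful representation `QuotientGroup.lift`, see `key` in the proof of `main_ind_v`; `A.map`, `B.map` have finite rank by `FR.of_surjective`): `FR (G ⧸ σ.ker)` and `VS (G ⧸ σ.ker)`.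
(ii) `FR σ.ker` by `FR.of_finiteIndex` for `Z.subgroupOf σ.ker` (isomorphic to `Z`, `FR.of_injective`). `FR G` by `FR.of_ker_range (QuotientGroup.mk' σ.ker)`.
(iii) `VS G`: let `Y1` be soluble of finite index in `G ⧸ σ.ker`, `Y` its preimage. `G` acts by conjugation on the finite group `σ.ker / Z` (`Z` normal in `G`); let `C` be the kernel of this action intersected with `Y`: finite index. `C ⊓ σ.ker =: D`: for `x, y ∈ D` the commutator `x y x⁻¹ y⁻¹` lies in `Z` (`x ∈ C`, `y ∈ σ.ker`),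
`Z` is abelian, so `D` is soluble (`derivedSeries D 2 = ⊥`), and `C / D` embeds in `Y1`, so `C` is soluble (`Group.isSolvable_of_ker_le_range`, see `VS_of_two` in `P9700b/MainV.lean`).
For the finiteness of the index of the kernel of the action: the homomorphism `G →* MulAut (σ.ker ⧸ Z.subgroupOf σ.ker)` has finite range. (Elementary alternative: `C' = {g : ∀ k ∈ σ.ker, g k g⁻¹ k⁻¹ ∈ Z}`.)
-/

set_option autoImplicit false

universe u v w

namespace P9700r

open P9700a

namespace FinAAux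

/-- the conjugation action on a finite section `K / Z` -/
theorem exists_act {G : Type u} [Group G] (K Z : Subgroup G) [hK : K.Normal] [hZ : Z.Normal]
    (hZf : Z.relIndex K ≠ 0) :
    ∃ (Q : Type u) (_ : Group Q) (_ : Finite Q) (f : G →* Q),
      ∀ g, f g = 1 → ∀ k ∈ K, k⁻¹ * (g * k * g⁻¹) ∈ Z := by
  let N : Subgroup K := Z.subgroupOf K
  have hN : N.Normal := inferInstance
  have hfi : N.FiniteIndex := ⟨hZf⟩
  have hfin : Finite (K ⧸ N) := inferInstance
  have hpres : ∀ g : G, N ≤ N.comap (MulAut.conjNormal g : MulAut K).toMonoidHom := by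
    intro g x hx
    change ((MulAut.conjNormal g x : K) : G) ∈ Z
    rw [MulAut.conjNormal_apply]
    exact hZ.conj_mem _ hx g
  let ρ0 : G → Monoid.End (K ⧸ N) := fun g =>
    QuotientGroup.map N N (MulAut.conjNormal g : MulAut K).toMonoidHom (hpres g)
  have hρ0 : ∀ (g : G) (x : K), ρ0 g (x : K ⧸ N) = ((MulAut.conjNormal g x : K) : K ⧸ N) :=
    fun g x => rfl
  let ρ : G →* Monoid.End (K ⧸ N) :=
    { toFun := ρ0
      map_one' := by
        apply MonoidHom.ext
        intro t
        obtain ⟨x, rfl⟩ := QuotientGroup.mk_surjective t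
        refine (hρ0 1 x).trans ?_
        rw [map_one]
        rfl
      map_mul' := by
        intro g g'
        apply MonoidHom.ext
        intro t
        obtain ⟨x, rfl⟩ := QuotientGroup.mk_surjective t
        refine (hρ0 (g * g') x).trans ?_
        rw [map_mul]
        rfl }
  have hfe : Finite (Monoid.End (K ⧸ N)) :=
    Finite.of_injective (fun φ : Monoid.End (K ⧸ N) => (φ : (K ⧸ N) → (K ⧸ N))) DFunLike.coe_injective
  refine ⟨(Monoid.End (K ⧸ N))ˣ, inferInstance, inferInstance, ρ.toHomUnits, ?_⟩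
  intro g hg k hk
  have h1 : ρ g = 1 := by
    have := congrArg (fun u : (Monoid.End (K ⧸ N))ˣ => (u : Monoid.End (K ⧸ N))) hg
    exact this
  have h2 : ((MulAut.conjNormal g ⟨k, hk⟩ : K) : K ⧸ N) = ((⟨k, hk⟩ : K) : K ⧸ N) := by
    have := congrArg (fun φ : Monoid.End (K ⧸ N) => φ ((⟨k, hk⟩ : K) : K ⧸ N)) h1
    exact this
  have h3 := (QuotientGroup.eq).1 h2.symm
  have h4 : ((⟨k, hk⟩ : K) : G)⁻¹ * ((MulAut.conjNormal g (⟨k, hk⟩ : K) : K) : G) ∈ Z := h3
  rw [MulAut.conjNormal_apply] at h4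
  exact h4

theorem solv {G : Type u} [Group G] (U Z : Subgroup G) [hZ : Z.Normal]
    (hZc : ∀ z ∈ Z, ∀ z' ∈ Z, z * z' = z' * z)
    (hU : ∀ x ∈ U, ∀ y ∈ U, y⁻¹ * (x * y * x⁻¹) ∈ Z) : Group.IsSolvable U := by
  let N : Subgroup U := Z.subgroupOf U
  have hN : N.Normal := inferInstance
  have h1 : Group.IsSolvable N := by
    refine Group.isSolvable_of_comm fun x y => ?_
    exact Subtype.ext (Subtype.ext (hZc _ x.2 _ y.2))
  have h2 : Group.IsSolvable (U ⧸ N) := by
    refine Group.isSolvable_of_comm fun a b => ?_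
    obtain ⟨x, rfl⟩ := QuotientGroup.mk_surjective a
    obtain ⟨y, rfl⟩ := QuotientGroup.mk_surjective b
    change ((x * y : U) : U ⧸ N) = ((y * x : U) : U ⧸ N)
    rw [QuotientGroup.eq]
    change (((x * y)⁻¹ * (y * x) : U) : G) ∈ Z
    have h3 := hU (x : G)⁻¹ (U.inv_mem x.2) (y : G) y.2
    have h4 : (((x * y)⁻¹ * (y * x) : U) : G) =
        (y : G)⁻¹ * ((x : G)⁻¹ * (y : G) * ((x : G)⁻¹)⁻¹) := by
      simp only [Subgroup.coe_mul, Subgroup.coe_inv]
      group
    rw [h4]
    exact h3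
  refine Group.isSolvable_of_ker_le_range N.subtype (QuotientGroup.mk' N) ?_
  rw [QuotientGroup.ker_mk', Subgroup.range_subtype]

end FinAAux

theorem fr_vs_of_rep (K : Type w) [Field K] [IsAlgClosed K] [CharZero K] (G : Type u) [Group G]
    (V : Type v) [AddCommGroup V] [Module K V] [FiniteDimensional K V]
    (σ : G →* Module.End K V) (A B : Subgroup G) (hA : FR A) (hB : FR B)
    (hAB : ∀ g : G, ∃ a ∈ A, ∃ b ∈ B, g = a * b) (Z : Subgroup G) (hZ : Z.Normal)
    (hZc : ∀ z ∈ Z, ∀ z' ∈ Z, z * z' = z' * z) (hZk : Z ≤ σ.ker) (hZf : Z.relIndex σ.ker ≠ 0)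
    (hZr : FR Z) : FR G ∧ VS G := by
  have hQ : FR (G ⧸ σ.ker) ∧ VS (G ⧸ σ.ker) := by
    let σ' : (G ⧸ σ.ker) →* Module.End K V := QuotientGroup.lift σ.ker σ (fun x hx => hx)
    have hσ' : ∀ g : G, σ' (g : G ⧸ σ.ker) = σ g := fun g => rfl
    have hinj : Function.Injective σ' := by
      intro x y
      induction x using QuotientGroup.induction_on with | H x => ?_
      induction y using QuotientGroup.induction_on with | H y => ?_
      intro h
      rw [hσ', hσ'] at h
      rw [QuotientGroup.eq, MonoidHom.mem_ker, map_mul, ← h, ← map_mul, inv_mul_cancel, map_one]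
    have hFR : ∀ C : Subgroup G, FR C → FR (C.map (QuotientGroup.mk' σ.ker)) := by
      intro C hC
      refine FR.of_surjective (((QuotientGroup.mk' σ.ker).subgroupMap C)) ?_ hC
      exact MonoidHom.subgroupMap_surjective _ _
    refine main_plat K (G ⧸ σ.ker) V σ' hinj _ _ (hFR A hA) (hFR B hB) ?_
    intro x
    induction x using QuotientGroup.induction_on with | H x => ?_
    obtain ⟨a, ha, b, hb, rfl⟩ := hAB x
    exact ⟨_, ⟨a, ha, rfl⟩, _, ⟨b, hb, rfl⟩, rfl⟩
  have hFk : FR σ.ker := by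
    haveI : (Z.subgroupOf σ.ker).FiniteIndex := ⟨hZf⟩
    refine FR.of_finiteIndex (Z.subgroupOf σ.ker) ?_
    let k : (Z.subgroupOf σ.ker) →* Z :=
      { toFun := fun x => ⟨((x : σ.ker) : G), Subgroup.mem_subgroupOf.mp x.2⟩
        map_one' := rfl
        map_mul' := fun _ _ => rfl }
    have hk : Function.Injective k := fun x y h =>
      Subtype.ext (Subtype.ext (congrArg (fun z : Z => (z : G)) h))
    exact FR.of_injective k hk hZr
  refine ⟨FR.of_ker_range (QuotientGroup.mk' σ.ker) ?_ (FR.subgroup _ hQ.1), ?_⟩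
  · rw [QuotientGroup.ker_mk']
    exact hFk
  obtain ⟨Q, hQg, hQf, f, hf⟩ := FinAAux.exists_act σ.ker Z hZf
  refine MainVAux.VS_of_two (QuotientGroup.mk' σ.ker) f (σ.ker ⊓ f.ker) ?_ ?_ hQ.2 ?_
  · intro g h1 h2
    exact ⟨(QuotientGroup.eq_one_iff g).1 h1, h2⟩
  · refine FinAAux.solv _ Z hZc ?_
    intro x hx y hy
    exact hf x hx.2 y hy.1
  · exact ⟨⊥, inferInstance, inferInstance⟩

end P9700r
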