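import Mathlib

/-!
# Definitions for the virtually residually-p case of MP_9700b3_al

* `NP p G0 N`: `N` is a normal subgroup of `G` inside `G0`, of `p`-power index in `G0`.
* `Inv G0 X`: `X` is invariant under conjugation by `G0`.
* `Sec c G0 N X Y`: `N ≤ Y ≤ X ≤ G0`, `X` and `Y` invariant under `G0`, `X / Y` abelian of order at most `c`.
* `Wn c G0 N`: the elements of `G0` centralising all these sections.
* `PW p X`: the subgroup generated by the `p`-th powers of the elements of `X`.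
* `EB p G0 c`: the elementary abelian bound.
* `RB r K`: every finitely generated subgroup of `K` is generated by at most `r` elements.
* `Fr p H`: the subgroup generated by the `p`-th powers and commutators of `H`.
* `Filt p P`: the filtrations constructed in `Filt.lean`.
-/

set_option autoImplicit false

namespace P9700r

variable {G : Type*} [Group G]

/-- `N` is a normal subgroup of `G` contained in `G0` and of `p`-power index in `G0`. -/
def NP (p : ℕ) (G0 N : Subgroup G) : Prop :=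
  N.Normal ∧ N ≤ G0 ∧ ∃ k : ℕ, N.relIndex G0 = p ^ k

/-- `X` is invariant under conjugation by the elements of `G0`. -/
def Inv (G0 X : Subgroup G) : Prop := ∀ g ∈ G0, ∀ x ∈ X, g * x * g⁻¹ ∈ X

/-- abelian sections `X / Y` of order at most `c`, invariant under `G0`, with `N ≤ Y ≤ X ≤ G0`. -/
def Sec (c : ℕ) (G0 N X Y : Subgroup G) : Prop :=
  N ≤ Y ∧ Y ≤ X ∧ X ≤ G0 ∧ Inv G0 X ∧ Inv G0 Y ∧ (∀ x ∈ X, ∀ y ∈ X, x * y * x⁻¹ * y⁻¹ ∈ Y) ∧
    Y.relIndex X ≤ c

/-- the elements of `G0` that centralise all sections of `Sec c G0 N`. -/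
def Wn (c : ℕ) (G0 N : Subgroup G) : Subgroup G where
  carrier := {g | g ∈ G0 ∧ ∀ X Y : Subgroup G, Sec c G0 N X Y → ∀ x ∈ X, x * g * x⁻¹ * g⁻¹ ∈ Y}
  one_mem' := by
    refine ⟨G0.one_mem, fun X Y _ x _ => ?_⟩
    have e : x * 1 * x⁻¹ * 1⁻¹ = 1 := by group
    rw [e]; exact Y.one_mem
  mul_mem' := by
    rintro g h ⟨hg, hg'⟩ ⟨hh, hh'⟩
    refine ⟨G0.mul_mem hg hh, fun X Y hS x hx => ?_⟩
    have e : x * (g * h) * x⁻¹ * (g * h)⁻¹ =
        (x * g * x⁻¹ * g⁻¹) * (g * (x * h * x⁻¹ * h⁻¹) * g⁻¹) := by group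
    rw [e]
    exact Y.mul_mem (hg' X Y hS x hx) (hS.2.2.2.2.1 g hg _ (hh' X Y hS x hx))
  inv_mem' := by
    rintro g ⟨hg, hg'⟩
    refine ⟨G0.inv_mem hg, fun X Y hS x hx => ?_⟩
    have e' : x * g⁻¹ * x⁻¹ * g⁻¹⁻¹ = g⁻¹ * ((g * x * g⁻¹) * x⁻¹) * (g⁻¹)⁻¹ := by group
    rw [e']
    refine hS.2.2.2.2.1 g⁻¹ (G0.inv_mem hg) _ ?_
    have e2 : g * x * g⁻¹ * x⁻¹ = (x * g * x⁻¹ * g⁻¹)⁻¹ := by group
    rw [e2]
    exact Y.inv_mem (hg' X Y hS x hx)

/-- the subgroup generated by the `p`-th powers of the elements of `X`. -/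
def PW (p : ℕ) (X : Subgroup G) : Subgroup G := Subgroup.closure {y | ∃ x ∈ X, x ^ p = y}

/-- the bound for elementary abelian sections of `G` inside `G0`. -/
def EB (p : ℕ) (G0 : Subgroup G) (c : ℕ) : Prop :=
  ∀ N M M1 : Subgroup G, NP p G0 N → M.Normal → M1.Normal → N ≤ M1 → M1 ≤ M → M ≤ G0 →
    (∀ x ∈ M, ∀ y ∈ M, x * y * x⁻¹ * y⁻¹ ∈ M1) → (∀ x ∈ M, x ^ p ∈ M1) →
    M1.relIndex M ≤ p ^ c

/-- every finitely generated subgroup is generated by at most `r` elements. -/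
def RB (r : ℕ) (K : Type*) [Group K] : Prop :=
  ∀ S : Subgroup K, S.FG → ∃ s : Finset K, s.card ≤ r ∧ Subgroup.closure (s : Set K) = S

/-- the subgroup generated by the `p`-th powers and the commutators of elements of `H`. -/
def Fr (p : ℕ) (H : Subgroup G) : Subgroup G :=
  Subgroup.closure ({y | ∃ x ∈ H, x ^ p = y} ∪ {y | ∃ a ∈ H, ∃ b ∈ H, a * b * a⁻¹ * b⁻¹ = y})

/-- the filtrations used in the proof. -/
structure Filt (p : ℕ) (P : ℕ → Subgroup G) : Prop where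
  normal : ∀ k, (P k).Normal
  anti : ∀ k, P (k + 1) ≤ P k
  fin : ∀ k, (P (k + 1)).relIndex (P k) ≠ 0
  pow : ∀ k, ∀ x ∈ P k, x ^ p ∈ P (k + 1)
  gen : ∀ k j, P (k + 1) ≤ PW p (P k) ⊔ P j
  comm : ∀ k, ∀ x ∈ P k, ∀ y ∈ P 0, x * y * x⁻¹ * y⁻¹ ∈ P (k + 2)

/-- uniformity of a filtration from the index `m` on, of dimension `d`. -/
structure Unif (p : ℕ) (P : ℕ → Subgroup G) (m d : ℕ) : Prop where
  card : ∀ k, m ≤ k → (P (k + 1)).relIndex (P k) = p ^ d
  inj : ∀ k, m ≤ k → ∀ x ∈ P k, x ^ p ∈ P (k + 2) → x ∈ P (k + 1)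

end P9700r
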