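import Mathlib

/-!
# Base change of a representation over `ℤ_[p]` to an algebraically closed field

`emb : ℤ_[p] →+* AlgebraicClosure ℚ_[p]` is the composition of the inclusions. Proof: `σ g = Matrix.toLin'` of the matrix of `ρ g` with entries mapped by `emb` (`LinearMap.toMatrix'`, `RingHom.mapMatrix`); multiplicative because all these maps are ring homomorphisms (`LinearMap.toMatrixAlgEquiv'`, `Matrix.toLinAlgEquiv'`).
`σ g (emb ∘ v) = emb ∘ ρ g v`: `Matrix.mulVec` commutes with `emb` (`RingHom.map_mulVec`). `emb` is injective.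
-/

set_option autoImplicit false

namespace P9700r

/-- the inclusion of the `p`-adic integers in an algebraically closed field. -/
noncomputable def emb (p : ℕ) [Fact p.Prime] : ℤ_[p] →+* AlgebraicClosure ℚ_[p] :=
  (algebraMap ℚ_[p] (AlgebraicClosure ℚ_[p])).comp (PadicInt.Coe.ringHom (p := p))

theorem emb_injective (p : ℕ) [Fact p.Prime] : Function.Injective (emb p) := by
  intro x y h
  exact Subtype.coe_injective
    ((algebraMap ℚ_[p] (AlgebraicClosure ℚ_[p])).injective h)

namespace BCAux

/-- the ring homomorphism on endomorphisms given by the matrices. -/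
noncomputable def bc (p : ℕ) [Fact p.Prime] (d : ℕ) :
    Module.End ℤ_[p] (Fin d → ℤ_[p]) →+*
      Module.End (AlgebraicClosure ℚ_[p]) (Fin d → AlgebraicClosure ℚ_[p]) :=
  (Matrix.toLinAlgEquiv' (R := AlgebraicClosure ℚ_[p]) (n := Fin d)).toRingEquiv.toRingHom.comp
    (((emb p).mapMatrix (m := Fin d)).comp
      (LinearMap.toMatrixAlgEquiv' (R := ℤ_[p]) (n := Fin d)).toRingEquiv.toRingHom)

theorem bc_apply (p : ℕ) [Fact p.Prime] (d : ℕ) (f : Module.End ℤ_[p] (Fin d → ℤ_[p]))
    (v : Fin d → ℤ_[p]) : bc p d f (fun j => emb p (v j)) = fun j => emb p (f v j) := by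
  have h1 : bc p d f (fun j => emb p (v j)) =
      ((LinearMap.toMatrix' f).map (emb p)).mulVec (fun j => emb p (v j)) := rfl
  rw [h1]
  funext j
  have h2 := RingHom.map_mulVec (emb p) (LinearMap.toMatrix' f) v j
  have h3 : (LinearMap.toMatrix' f).mulVec v = f v := LinearMap.toMatrix'_mulVec f v
  rw [h3] at h2
  exact h2.symm

theorem bc_injective (p : ℕ) [Fact p.Prime] (d : ℕ) : Function.Injective (bc p d) := by
  intro f g h
  apply LinearMap.ext
  intro v
  funext j
  apply emb_injective p
  have h1 := congrFun (bc_apply p d f v) j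
  have h2 := congrFun (bc_apply p d g v) j
  rw [h] at h1
  exact h1.symm.trans h2

end BCAux

open BCAux

theorem base_change (p : ℕ) [Fact p.Prime] (d : ℕ) {G : Type*} [Group G]
    (ρ : G →* Module.End ℤ_[p] (Fin d → ℤ_[p])) :
    ∃ σ : G →* Module.End (AlgebraicClosure ℚ_[p]) (Fin d → AlgebraicClosure ℚ_[p]),
      (∀ (g : G) (v : Fin d → ℤ_[p]), σ g (fun j => emb p (v j)) = fun j => emb p (ρ g v j)) ∧
      ∀ g : G, σ g = 1 ↔ ρ g = 1 := by
  refine ⟨(bc p d).toMonoidHom.comp ρ, fun g v => bc_apply p d (ρ g) v, fun g => ?_⟩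
  constructor
  · intro h
    apply bc_injective p d
    rw [map_one]
    exact h
  · intro h
    change bc p d (ρ g) = 1
    rw [h, map_one]

end P9700r
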