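import Mathlib
import Pool.Agent.Lib.P9700r.Defs

/-!
# Commutators in the filtration

* `Filt.le_of_le`: `P` is antitone.
* `mul_pow_mod`: if `x y x⁻¹ y⁻¹` lies in the normal subgroup `N` then `(x y) ^ n ≡ x ^ n y ^ n` modulo `N` (in `G ⧸ N` the images commute, `Commute.mul_pow`).
* `Filt.comm_mem`: `[P k, P l] ≤ P (k + l + 2)`. Induction on `l`; `l = 0` is `Filt.comm`. Step: let `x ∈ P k`. The set `{w : w ∈ P 0 ∧ x w x⁻¹ w⁻¹ ∈ P (k + l + 3)}` is a subgroup (`P (k + l + 3)` is normal) containing `P (k + l + 3)` and the `p`-th powers `y ^ p`, `y ∈ P l`: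
  `z = x y x⁻¹ y⁻¹ ∈ P (k + l + 2)` by induction, `z` commutes with `y` modulo `P (k + l + 4)` (`Filt.comm`), and modulo `P (k + l + 4) ≤ P (k + l + 3)`: `x y x⁻¹ = z y`, `x y ^ p x⁻¹ = (z y) ^ p = z ^ p y ^ p`, `z ^ p ∈ P (k + l + 3)` (`Filt.pow`). As
  `P (l + 1) ≤ PW p (P l) ⊔ P (k + l + 3)` (`Filt.gen`), the claim follows.
-/

set_option autoImplicit false

namespace P9700r

variable {G : Type*} [Group G]

theorem Filt.le_of_le {p : ℕ} {P : ℕ → Subgroup G} (h : Filt p P) {i j : ℕ} (hij : i ≤ j) :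
    P j ≤ P i :=
  antitone_nat_of_succ_le h.anti hij

theorem mul_pow_mod (N : Subgroup G) (hN : N.Normal) {x y : G} (h : x * y * x⁻¹ * y⁻¹ ∈ N)
    (n : ℕ) : (x * y) ^ n * (x ^ n * y ^ n)⁻¹ ∈ N := by
  have hc : Commute (x : G ⧸ N) (y : G ⧸ N) := by
    have h1 : ((x * y * x⁻¹ * y⁻¹ : G) : G ⧸ N) = 1 := (QuotientGroup.eq_one_iff _).2 h
    have h2 : (x : G ⧸ N) * y * (x : G ⧸ N)⁻¹ * (y : G ⧸ N)⁻¹ = 1 := by
      simpa using h1
    have h3 : (x : G ⧸ N) * y * (x : G ⧸ N)⁻¹ = y := by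
      rw [mul_inv_eq_one] at h2
      exact h2
    rw [mul_inv_eq_iff_eq_mul] at h3
    exact h3
  rw [← QuotientGroup.eq_one_iff]
  have h4 := hc.mul_pow n
  simp only [QuotientGroup.mk_mul, QuotientGroup.mk_pow, QuotientGroup.mk_inv]
  rw [h4, mul_inv_cancel]

theorem Filt.comm_mem {p : ℕ} {P : ℕ → Subgroup G} (h : Filt p P) (k l : ℕ) :
    ∀ x ∈ P k, ∀ y ∈ P l, x * y * x⁻¹ * y⁻¹ ∈ P (k + l + 2) := by
  induction l with
  | zero => exact h.comm k
  | succ l ih =>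
    intro x hx y hy
    have hN : (P (k + (l + 1) + 2)).Normal := h.normal _
    let S : Subgroup G :=
      { carrier := {w | w ∈ P 0 ∧ x * w * x⁻¹ * w⁻¹ ∈ P (k + (l + 1) + 2)}
        one_mem' := by
          refine ⟨(P 0).one_mem, ?_⟩
          have e : x * 1 * x⁻¹ * 1⁻¹ = 1 := by group
          rw [e]
          exact Subgroup.one_mem _
        mul_mem' := by
          rintro w1 w2 ⟨h1, h1'⟩ ⟨h2, h2'⟩
          refine ⟨(P 0).mul_mem h1 h2, ?_⟩
          have e : x * (w1 * w2) * x⁻¹ * (w1 * w2)⁻¹ =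
              (x * w1 * x⁻¹ * w1⁻¹) * (w1 * (x * w2 * x⁻¹ * w2⁻¹) * w1⁻¹) := by group
          rw [e]
          exact Subgroup.mul_mem _ h1' (hN.conj_mem _ h2' _)
        inv_mem' := by
          rintro w ⟨h1, h1'⟩
          refine ⟨(P 0).inv_mem h1, ?_⟩
          have e : x * w⁻¹ * x⁻¹ * w⁻¹⁻¹ = w⁻¹ * (x * w * x⁻¹ * w⁻¹)⁻¹ * (w⁻¹)⁻¹ := by group
          rw [e]
          exact hN.conj_mem _ (Subgroup.inv_mem _ h1') _ }
    have hS : PW p (P l) ⊔ P (k + (l + 1) + 2) ≤ S := by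
      refine sup_le ?_ ?_
      · unfold PW
        rw [Subgroup.closure_le]
        rintro _ ⟨w, hw, rfl⟩
        have hw0 : w ∈ P 0 := h.le_of_le (Nat.zero_le l) hw
        refine ⟨Subgroup.pow_mem _ hw0 p, ?_⟩
        set z := x * w * x⁻¹ * w⁻¹ with hz
        have hz2 : z ∈ P (k + l + 2) := ih x hx w hw
        have hz4 : z * w * z⁻¹ * w⁻¹ ∈ P (k + l + 2 + 2) := h.comm _ z hz2 w hw0
        have h5 := mul_pow_mod _ (h.normal (k + l + 2 + 2)) hz4 p
        have h6 : (z * w) ^ p * (z ^ p * w ^ p)⁻¹ ∈ P (k + (l + 1) + 2) :=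
          h.le_of_le (by omega) h5
        have h7 : z ^ p ∈ P (k + (l + 1) + 2) := by
          have := h.pow _ z hz2
          have e : k + l + 2 + 1 = k + (l + 1) + 2 := by omega
          rwa [e] at this
        have e1 : z * w = x * w * x⁻¹ := by
          rw [hz]; group
        have e2 : x * w ^ p * x⁻¹ = (z * w) ^ p := by
          rw [e1, conj_pow]
        have e3 : x * w ^ p * x⁻¹ * (w ^ p)⁻¹ =
            ((z * w) ^ p * (z ^ p * w ^ p)⁻¹) * z ^ p := by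
          rw [e2]; group
        rw [e3]
        exact Subgroup.mul_mem _ h6 h7
      · intro w hw
        refine ⟨h.le_of_le (Nat.zero_le _) hw, ?_⟩
        exact Subgroup.mul_mem _ (hN.conj_mem _ hw _) (Subgroup.inv_mem _ hw)
    exact (hS (h.gen l _ hy)).2

/-- finite relative indices. -/
theorem Filt.fin_le {p : ℕ} {P : ℕ → Subgroup G} (h : Filt p P) {i j : ℕ} (hij : i ≤ j) :
    (P j).relIndex (P i) ≠ 0 := by
  induction j, hij using Nat.le_induction with
  | base => rw [Subgroup.relIndex_self]; exact one_ne_zero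
  | succ j hij ih => exact Subgroup.relIndex_ne_zero_trans (h.fin j) ih

end P9700r
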