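import Mathlib
import Pool.Agent.Lib.P9700r.Defs

/-!
# p-groups of automorphisms of elementary abelian groups

`K` acts on the finite elementary abelian group `M` by automorphisms of `p`-power order and `|M| ≤ p ^ (2 ^ t)`. Then the `t`-th iterated subgroup
`Fr p (... (Fr p K))` acts trivially.

Proof. We prove the relative form (`ActAux.rel`): for invariant subgroups `Y ≤ X` of `M` with `Y.relIndex X ≤ p ^ (2 ^ t)`, the iterated subgroup moves
every element of `X` only by elements of `Y`. Induction on `t`.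
(a) `ActAux.step`: for invariant `Y < X` there is `Z` with `Y ≤ Z ≤ X`, `Y.relIndex Z = p` and `φ k z * z⁻¹ ∈ Y` for all `k` and `z ∈ Z` (the finite `p`-group
`φ.range` fixes a nontrivial coset in `X / Y`, take the subgroup it generates).
(b) `t = 0`: `Z = X`.
(c) Step: by (a) there is an invariant `Z` with `Y.relIndex Z ≤ p ^ (2 ^ t)` and `Z.relIndex X ≤ p ^ (2 ^ t)`; modulo `Y`, the elements of the `t`-th
iterated subgroup act on `X` by `x ↦ x * λ(x)`, `λ(x) ∈ Z`, and they fix `Z` pointwise, so `p`-th powers and commutators act trivially.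
-/

set_option autoImplicit false

namespace P9700r

namespace ActAux

variable {K M : Type*} [Group K] [CommGroup M] [Finite M] {p : ℕ}

omit [Finite M] in
theorem isPGroup_of_exp (hM : ∀ x : M, x ^ p = 1) : IsPGroup p M := fun x => ⟨1, by simpa using hM x⟩

theorem fixed_coset (hp : p.Prime) (hM : ∀ x : M, x ^ p = 1) (φ : K →* MulAut M)
    (hφ : ∀ k : K, ∃ j : ℕ, (φ k) ^ (p ^ j) = 1) (X Y : Subgroup M)
    (hX : ∀ k, ∀ x ∈ X, φ k x ∈ X) (hY : ∀ k, ∀ y ∈ Y, φ k y ∈ Y) (hYX : Y ≤ X) (hne : Y ≠ X) :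
    ∃ y ∈ X, y ∉ Y ∧ ∀ k, φ k y * y⁻¹ ∈ Y := by
  classical
  haveI := Fact.mk hp
  have hG : IsPGroup p φ.range := by
    rintro ⟨g, k, rfl⟩
    obtain ⟨j, hj⟩ := hφ k
    exact ⟨j, Subtype.ext (by simpa using hj)⟩
  have hst : ∀ g : φ.range, Y ≤ Y.comap ((g : MulAut M).toMonoidHom) := by
    rintro ⟨g, k, rfl⟩ y hy
    exact hY k y hy
  letI act : MulAction φ.range (M ⧸ Y) :=
    { smul := fun g q => QuotientGroup.map Y Y ((g : MulAut M).toMonoidHom) (hst g) q
      one_smul := by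
        intro q
        induction q using QuotientGroup.induction_on with
        | H m => rfl
      mul_smul := by
        intro g h q
        induction q using QuotientGroup.induction_on with
        | H m => rfl }
  let S : SubMulAction φ.range (M ⧸ Y) :=
    { carrier := {q | ∃ x ∈ X, (QuotientGroup.mk x : M ⧸ Y) = q}
      smul_mem' := by
        rintro ⟨g, k, rfl⟩ q ⟨x, hx, rfl⟩
        exact ⟨φ k x, hX k x hx, rfl⟩ }
  have hcard : p ∣ Nat.card S := by
    change p ∣ Nat.card (X.map (QuotientGroup.mk' Y))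
    have hP : IsPGroup p (X.map (QuotientGroup.mk' Y)) :=
      (IsPGroup.to_subgroup ((isPGroup_of_exp hM).to_quotient Y) _)
    rcases hP.card_eq_or_dvd with h | h
    · exfalso
      apply hne
      refine le_antisymm hYX (fun x hx => ?_)
      rw [Subgroup.card_eq_one] at h
      have h2 : QuotientGroup.mk' Y x ∈ X.map (QuotientGroup.mk' Y) := Subgroup.mem_map_of_mem _ hx
      rw [h, Subgroup.mem_bot] at h2
      exact (QuotientGroup.eq_one_iff x).1 h2
    · exact h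
  have h1 : (⟨QuotientGroup.mk 1, 1, X.one_mem, rfl⟩ : S) ∈ MulAction.fixedPoints φ.range S := by
    rintro ⟨g, k, rfl⟩
    apply Subtype.ext
    change (QuotientGroup.mk (φ k 1) : M ⧸ Y) = QuotientGroup.mk 1
    rw [map_one]
  obtain ⟨⟨q, x, hx, rfl⟩, hb, hne'⟩ :=
    hG.exists_fixed_point_of_prime_dvd_card_of_fixed_point S hcard h1
  refine ⟨x, hx, fun hxY => ?_, fun k => ?_⟩
  · apply hne'
    apply Subtype.ext
    change (QuotientGroup.mk 1 : M ⧸ Y) = QuotientGroup.mk x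
    rw [QuotientGroup.eq]
    simpa using hxY
  · have h2 := hb ⟨φ k, k, rfl⟩
    have h3 : (QuotientGroup.mk (φ k x) : M ⧸ Y) = QuotientGroup.mk x := congrArg Subtype.val h2
    have h4 := (QuotientGroup.eq.1 h3.symm)
    rwa [mul_comm] at h4

theorem step (hp : p.Prime) (hM : ∀ x : M, x ^ p = 1) (φ : K →* MulAut M)
    (hφ : ∀ k : K, ∃ j : ℕ, (φ k) ^ (p ^ j) = 1) (X Y : Subgroup M)
    (hX : ∀ k, ∀ x ∈ X, φ k x ∈ X) (hY : ∀ k, ∀ y ∈ Y, φ k y ∈ Y) (hYX : Y ≤ X) (hne : Y ≠ X) :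
    ∃ Z : Subgroup M, Y ≤ Z ∧ Z ≤ X ∧ Y.relIndex Z = p ∧ ∀ k, ∀ z ∈ Z, φ k z * z⁻¹ ∈ Y := by
  classical
  haveI := Fact.mk hp
  obtain ⟨y, hyX, hyY, hy⟩ := fixed_coset hp hM φ hφ X Y hX hY hYX hne
  have hmem : ∀ z : M, z ∈ (Subgroup.zpowers (QuotientGroup.mk' Y y)).comap (QuotientGroup.mk' Y) →
      ∃ n : ℤ, ∃ u ∈ Y, z = u * y ^ n := by
    intro z hz
    rw [Subgroup.mem_comap, Subgroup.mem_zpowers_iff] at hz
    obtain ⟨n, hn⟩ := hz
    refine ⟨n, z * (y ^ n)⁻¹, ?_, by group⟩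
    rw [← map_zpow] at hn
    have h4 := QuotientGroup.eq.1 hn
    rwa [mul_comm] at h4
  refine ⟨(Subgroup.zpowers (QuotientGroup.mk' Y y)).comap (QuotientGroup.mk' Y), ?_, ?_, ?_, ?_⟩
  · intro z hz
    rw [Subgroup.mem_comap]
    have : QuotientGroup.mk' Y z = 1 := (QuotientGroup.eq_one_iff z).2 hz
    rw [this]
    exact one_mem _
  · intro z hz
    obtain ⟨n, u, hu, rfl⟩ := hmem z hz
    exact X.mul_mem (hYX hu) (X.zpow_mem hyX n)
  · have h1 := Subgroup.relIndex_ker ((Subgroup.zpowers (QuotientGroup.mk' Y y)).comap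
      (QuotientGroup.mk' Y)) (QuotientGroup.mk' Y)
    rw [QuotientGroup.ker_mk', Subgroup.map_comap_eq_self_of_surjective
      (QuotientGroup.mk'_surjective Y), Nat.card_zpowers] at h1
    rw [h1]
    apply orderOf_eq_prime
    · rw [← map_pow, hM, map_one]
    · intro h
      exact hyY ((QuotientGroup.eq_one_iff y).1 h)
  · intro k z hz
    obtain ⟨n, u, hu, rfl⟩ := hmem z hz
    have e : φ k (u * y ^ n) * (u * y ^ n)⁻¹ = (φ k u * u⁻¹) * (φ k y * y⁻¹) ^ n := by
      rw [map_mul, map_zpow, mul_zpow, inv_zpow, mul_inv]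
      exact mul_mul_mul_comm _ _ _ _
    rw [e]
    exact Y.mul_mem (Y.mul_mem (hY k u hu) (Y.inv_mem hu)) (Y.zpow_mem (hy k) n)

theorem chain (hp : p.Prime) (hM : ∀ x : M, x ^ p = 1) (φ : K →* MulAut M)
    (hφ : ∀ k : K, ∃ j : ℕ, (φ k) ^ (p ^ j) = 1) (X Y : Subgroup M)
    (hX : ∀ k, ∀ x ∈ X, φ k x ∈ X) (hY : ∀ k, ∀ y ∈ Y, φ k y ∈ Y) (hYX : Y ≤ X) (i : ℕ)
    (hi : p ^ i ≤ Y.relIndex X) :
    ∃ Z : Subgroup M, Y ≤ Z ∧ Z ≤ X ∧ Y.relIndex Z = p ^ i ∧ ∀ k, ∀ z ∈ Z, φ k z ∈ Z := by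
  induction i with
  | zero => exact ⟨Y, le_rfl, hYX, by simp, hY⟩
  | succ i ih =>
    have hlt : p ^ i < p ^ (i + 1) := Nat.pow_lt_pow_right hp.one_lt (Nat.lt_succ_self i)
    obtain ⟨Z, hYZ, hZX, hcZ, hZ⟩ := ih (hlt.le.trans hi)
    have hne : Z ≠ X := by
      rintro rfl
      rw [hcZ] at hi
      omega
    obtain ⟨W, hZW, hWX, hcW, hW⟩ := step hp hM φ hφ X Z hX hZ hZX hne
    refine ⟨W, hYZ.trans hZW, hWX, ?_, fun k z hz => ?_⟩
    · rw [← Subgroup.relIndex_mul_relIndex Y Z W hYZ hZW, hcZ, hcW, pow_succ]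
    · have h := W.mul_mem (hZW (hW k z hz)) hz
      simpa using h

omit [Finite M] in
theorem pow_act (φ : K →* MulAut M) (Y : Subgroup M)
    (hY : ∀ k, ∀ y ∈ Y, φ k y ∈ Y) (k : K) (x l m : M)
    (h1 : φ k x = x * l) (h2 : φ k l = l * m) (hm : m ∈ Y) (n : ℕ) :
    ∃ u ∈ Y, φ (k ^ n) x = x * l ^ n * u := by
  induction n with
  | zero => exact ⟨1, Y.one_mem, by simp⟩
  | succ n ih =>
    obtain ⟨u, hu, e⟩ := ih
    refine ⟨m ^ n * φ k u, Y.mul_mem (Y.pow_mem hm n) (hY k u hu), ?_⟩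
    rw [pow_succ' k n, map_mul, MulAut.mul_apply, e, map_mul, map_mul, map_pow, h1, h2, mul_pow,
      pow_succ']
    simp only [mul_assoc]

theorem rel (hp : p.Prime) (hM : ∀ x : M, x ^ p = 1) (φ : K →* MulAut M)
    (hφ : ∀ k : K, ∃ j : ℕ, (φ k) ^ (p ^ j) = 1) (t : ℕ) :
    ∀ X Y : Subgroup M, (∀ k, ∀ x ∈ X, φ k x ∈ X) → (∀ k, ∀ y ∈ Y, φ k y ∈ Y) → Y ≤ X →
      Y.relIndex X ≤ p ^ (2 ^ t) →
      ∀ k ∈ (Fr p)^[t] (⊤ : Subgroup K), ∀ x ∈ X, φ k x * x⁻¹ ∈ Y := by
  induction t with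
  | zero =>
    intro X Y hX hY hYX hc k _ x hx
    by_cases hne : Y = X
    · subst hne
      exact Y.mul_mem (hY k x hx) (Y.inv_mem hx)
    · obtain ⟨Z, hYZ, hZX, hcZ, hZ⟩ := step hp hM φ hφ X Y hX hY hYX hne
      have h1 := Subgroup.relIndex_mul_relIndex Y Z X hYZ hZX
      have h2 : Y.relIndex X ≤ p := by simpa using hc
      have h3 : Z.relIndex X = 1 := by
        have h4 : Z.relIndex X ≠ 0 := Subgroup.index_ne_zero_of_finite (H := Z.subgroupOf X)
        rw [← h1, hcZ] at h2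
        have h5 : Z.relIndex X ≤ 1 := by
          by_contra hlt
          push Not at hlt
          nlinarith [hp.pos]
        omega
      exact hZ k x (Subgroup.relIndex_eq_one.1 h3 hx)
  | succ t ih =>
    intro X Y hX hY hYX hc k hk x hx
    haveI := Fact.mk hp
    obtain ⟨a, ha⟩ : ∃ a, Y.relIndex X = p ^ a := by
      have hP : IsPGroup p (X.map (QuotientGroup.mk' Y)) :=
        (IsPGroup.to_subgroup ((isPGroup_of_exp hM).to_quotient Y) _)
      obtain ⟨a, ha⟩ := hP.exists_card_eq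
      refine ⟨a, ?_⟩
      rw [← ha, ← Subgroup.relIndex_ker, QuotientGroup.ker_mk']
    have ha2 : a ≤ 2 ^ (t + 1) := by
      rw [ha] at hc
      exact (Nat.pow_le_pow_iff_right hp.one_lt).1 hc
    obtain ⟨Z, hYZ, hZX, hcZ, hZ⟩ := chain hp hM φ hφ X Y hX hY hYX (min a (2 ^ t)) (by
      rw [ha]
      exact Nat.pow_le_pow_right hp.pos (min_le_left _ _))
    have hc1 : Y.relIndex Z ≤ p ^ (2 ^ t) := by
      rw [hcZ]
      exact Nat.pow_le_pow_right hp.pos (min_le_right _ _)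
    have hc2 : Z.relIndex X ≤ p ^ (2 ^ t) := by
      have h1 := Subgroup.relIndex_mul_relIndex Y Z X hYZ hZX
      rw [hcZ, ha] at h1
      have h2 : p ^ min a (2 ^ t) * p ^ (a - min a (2 ^ t)) = p ^ a := by
        rw [← pow_add]
        congr 1
        have := min_le_left a (2 ^ t)
        omega
      have h3 : Z.relIndex X = p ^ (a - min a (2 ^ t)) :=
        Nat.eq_of_mul_eq_mul_left (pow_pos hp.pos _) (h1.trans h2.symm)
      rw [h3]
      apply Nat.pow_le_pow_right hp.pos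
      rw [pow_succ] at ha2
      rcases min_choice a (2 ^ t) with h | h <;> rw [h] <;> omega
    have ih1 := ih Z Y hZ hY hYZ hc1
    have ih2 := ih X Z hX hZ hZX hc2
    -- data for an element of the `t`-th iterated subgroup
    have key : ∀ g ∈ (Fr p)^[t] (⊤ : Subgroup K), ∀ w ∈ X, ∃ l ∈ Z, ∃ m ∈ Y,
        φ g w = w * l ∧ φ g l = l * m := by
      intro g hg w hw
      refine ⟨φ g w * w⁻¹, ih2 g hg w hw, φ g (φ g w * w⁻¹) * (φ g w * w⁻¹)⁻¹,
        ih1 g hg _ (ih2 g hg w hw), ?_, ?_⟩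
      · rw [mul_comm (φ g w), mul_inv_cancel_left]
      · rw [mul_comm (φ g (φ g w * w⁻¹)), mul_inv_cancel_left]
    -- the subgroup acting trivially on `X / Y`
    let T : Subgroup K :=
      { carrier := {g | ∀ w ∈ X, φ g w * w⁻¹ ∈ Y}
        one_mem' := by
          intro w _
          rw [map_one, MulAut.one_apply, mul_inv_cancel]
          exact Y.one_mem
        mul_mem' := by
          intro g h hg hh w hw
          have e : φ (g * h) w * w⁻¹ = (φ g (φ h w) * (φ h w)⁻¹) * (φ h w * w⁻¹) := by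
            rw [map_mul, MulAut.mul_apply]
            group
          change φ (g * h) w * w⁻¹ ∈ Y
          rw [e]
          exact Y.mul_mem (hg _ (hX h w hw)) (hh w hw)
        inv_mem' := by
          intro g hg w hw
          have h1 := hg _ (hX g⁻¹ w hw)
          have e : φ g (φ g⁻¹ w) = w := by
            rw [← MulAut.mul_apply, ← map_mul, mul_inv_cancel, map_one, MulAut.one_apply]
          rw [e] at h1
          change φ g⁻¹ w * w⁻¹ ∈ Y
          have h2 := Y.inv_mem h1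
          rwa [mul_inv_rev, inv_inv] at h2 }
    rw [Function.iterate_succ_apply'] at hk
    have hsub : Fr p ((Fr p)^[t] (⊤ : Subgroup K)) ≤ T := by
      refine (Subgroup.closure_le T).2 ?_
      rintro y (⟨g, hg, rfl⟩ | ⟨g, hg, h, hh, rfl⟩)
      · intro w hw
        obtain ⟨l, hl, m, hm, e1, e2⟩ := key g hg w hw
        obtain ⟨u, hu, e⟩ := pow_act φ Y hY g w l m e1 e2 hm p
        rw [e, hM, mul_one, mul_comm w u, mul_inv_cancel_right]
        exact hu
      · intro w hw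
        -- `w = φ (h * g) v`
        have e0 : φ (h * g) (φ (h * g)⁻¹ w) = w := by
          rw [← MulAut.mul_apply, ← map_mul, mul_inv_cancel, map_one, MulAut.one_apply]
        generalize hv : φ (h * g)⁻¹ w = v at e0
        have hvX : v ∈ X := by rw [← hv]; exact hX _ w hw
        have e1 : φ (g * h * g⁻¹ * h⁻¹) w = φ (g * h) v := by
          rw [← hv, ← MulAut.mul_apply, ← map_mul]
          congr 2
          group
        rw [e1, ← e0]
        obtain ⟨l1, hl1, m1, hm1, a1, a2⟩ := key g hg v hvX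
        obtain ⟨l2, hl2, m2, hm2, b1, b2⟩ := key h hh v hvX
        have c1 := ih1 g hg l2 hl2
        have c2 := ih1 h hh l1 hl1
        have d1 : φ (g * h) v = v * l1 * φ g l2 := by
          rw [map_mul, MulAut.mul_apply, b1, map_mul, a1]
        have d2 : φ (h * g) v = v * l2 * φ h l1 := by
          rw [map_mul, MulAut.mul_apply, a1, map_mul, b1]
        have d3 : φ (g * h) v * (φ (h * g) v)⁻¹ = (φ g l2 * l2⁻¹) * (φ h l1 * l1⁻¹)⁻¹ := by
          rw [d1, d2]
          generalize φ g l2 = A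
          generalize φ h l1 = B
          rw [mul_inv, mul_inv, mul_inv, inv_inv]
          calc v * l1 * A * (v⁻¹ * l2⁻¹ * B⁻¹) = (v * v⁻¹) * (l1 * A * (l2⁻¹ * B⁻¹)) := by
                rw [mul_assoc v l1 A, mul_assoc v⁻¹ l2⁻¹ B⁻¹]
                exact mul_mul_mul_comm _ _ _ _
            _ = l1 * A * (l2⁻¹ * B⁻¹) := by rw [mul_inv_cancel, one_mul]
            _ = A * l2⁻¹ * (B⁻¹ * l1) := by
                rw [mul_comm l1 A, mul_assoc, mul_assoc]
                congr 1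
                rw [mul_comm l1, mul_assoc]
        rw [d3]
        exact Y.mul_mem c1 (Y.inv_mem c2)
    exact hsub hk x hx

end ActAux

theorem act_trivial {K M : Type*} [Group K] [CommGroup M] [Finite M] {p : ℕ} (hp : p.Prime)
    (hM : ∀ x : M, x ^ p = 1) (φ : K →* MulAut M) (hφ : ∀ k : K, ∃ j : ℕ, (φ k) ^ (p ^ j) = 1)
    (t : ℕ) (hc : Nat.card M ≤ p ^ (2 ^ t)) :
    ∀ k ∈ (Fr p)^[t] (⊤ : Subgroup K), φ k = 1 := by
  intro k hk
  ext x
  have h := ActAux.rel hp hM φ hφ t ⊤ ⊥ (fun _ _ _ => Subgroup.mem_top _)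
    (fun k y hy => by
      rw [Subgroup.mem_bot] at hy ⊢
      rw [hy, map_one]) bot_le (by simpa using hc) k hk x (Subgroup.mem_top x)
  rw [Subgroup.mem_bot, mul_inv_eq_one] at h
  simpa using h

end P9700r
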