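import Mathlib
import Pool.Agent.Lib.P9700r.Defs

/-!
# Rank bounds and elementary abelian quotients

* `RB.subgroup`: the bound passes to subgroups (compare `FR.of_injective` in `P9700a/Rank.lean`: map a f.g. subgroup of `H` to `K`, lift the
  generators back).
* `RB.index_le`: `L` contains all commutators and `p`-th powers, so it is normal and `Q = K ⧸ L` is elementary abelian. Every f.g. subgroup `T` of `Q`
  is the image of a f.g. subgroup of `K`, so generated by at most `r` elements, so of order at most `p ^ r` (a commutative group of exponent `p` generated by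
  `s`: map `(Fin s.card → ZMod p)` or induct on `s`). If `Q` had more than `p ^ r` elements (or were infinite), the closure of a finite set
  of `p ^ r + 1` elements would be a contradiction.
* `RB.fr_relIndex`, `RB.fr_iterate`: apply `index_le` in the group `H`; multiply the indices (`Subgroup.relIndex_mul_relIndex`), note `Fr p H ≤ H`.
-/

set_option autoImplicit false

namespace P9700r

namespace RankElemAux

/-- a finite set in an abelian subgroup of exponent `p` generated by `s` has at most `p ^ s.card` elements. -/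
theorem card_le {Q : Type*} [CommGroup Q] {p : ℕ} (hp : 0 < p) (hq : ∀ x : Q, x ^ p = 1) (s T : Finset Q)
    (hT : ∀ x ∈ T, x ∈ Subgroup.closure (s : Set Q)) : T.card ≤ p ^ s.card := by
  classical
  have h1 : ∀ x ∈ Subgroup.closure (s : Set Q), ∃ f : Q → ℕ, ∏ a ∈ s, a ^ f a = x := by
    intro x hx
    induction hx using Subgroup.closure_induction with
    | mem a ha =>
      refine ⟨Pi.single a 1, ?_⟩
      rw [Finset.prod_eq_single a]
      · simp
      · intro b _ hb
        rw [Pi.single_eq_of_ne hb, pow_zero]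
      · intro h
        exact absurd ha h
    | one => exact ⟨fun _ => 0, by simp⟩
    | mul x y _ _ hx hy =>
      obtain ⟨f, rfl⟩ := hx
      obtain ⟨g, rfl⟩ := hy
      refine ⟨fun a => f a + g a, ?_⟩
      rw [← Finset.prod_mul_distrib]
      exact Finset.prod_congr rfl (fun a _ => pow_add _ _ _)
    | inv x _ hx =>
      obtain ⟨f, rfl⟩ := hx
      refine ⟨fun a => f a * (p - 1), ?_⟩
      rw [← Finset.prod_inv_distrib]
      refine Finset.prod_congr rfl (fun a _ => ?_)
      rw [eq_inv_iff_mul_eq_one, ← pow_add]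
      have e : f a * (p - 1) + f a = p * f a := by
        obtain ⟨q, rfl⟩ : ∃ q, p = q + 1 := ⟨p - 1, by omega⟩
        simp only [Nat.add_sub_cancel]
        ring
      rw [e, pow_mul, hq, one_pow]
  let F : (s → Fin p) → Q := fun f => ∏ a : s, (a : Q) ^ (f a : ℕ)
  have h2 : T ⊆ Finset.univ.image F := by
    intro x hx
    obtain ⟨f, hf⟩ := h1 x (hT x hx)
    rw [Finset.mem_image]
    refine ⟨fun a => ⟨f a % p, Nat.mod_lt _ hp⟩, Finset.mem_univ _, ?_⟩
    rw [← hf, ← Finset.prod_coe_sort]
    refine Finset.prod_congr rfl (fun a _ => ?_)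
    exact (pow_eq_pow_mod (f a) (hq a)).symm
  calc T.card ≤ (Finset.univ.image F).card := Finset.card_le_card h2
    _ ≤ (Finset.univ : Finset (s → Fin p)).card := Finset.card_image_le
    _ = p ^ s.card := by rw [Finset.card_univ, Fintype.card_fun, Fintype.card_fin, Fintype.card_coe]

end RankElemAux

open RankElemAux

theorem RB.subgroup {K : Type*} [Group K] {r : ℕ} (h : RB r K) (H : Subgroup K) : RB r H := by
  classical
  intro S hS
  have h1 : (S.map H.subtype).FG := by
    obtain ⟨T, rfl⟩ := hS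
    exact ⟨T.image H.subtype, by rw [Finset.coe_image, MonoidHom.map_closure]⟩
  obtain ⟨s, hs, hcl⟩ := h _ h1
  have hsub : ∀ x ∈ s, x ∈ H := by
    intro x hx
    have h2 : x ∈ S.map H.subtype := by
      rw [← hcl]
      exact Subgroup.subset_closure hx
    obtain ⟨y, _, rfl⟩ := h2
    exact y.2
  let g : {x // x ∈ s} → H := fun x => ⟨x.1, hsub x.1 x.2⟩
  refine ⟨s.attach.image g, Finset.card_image_le.trans (by rwa [Finset.card_attach]), ?_⟩
  apply Subgroup.map_injective H.subtype_injective
  rw [MonoidHom.map_closure, ← hcl]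
  congr 1
  ext x
  constructor
  · rintro ⟨y, hy, rfl⟩
    rw [Finset.mem_coe, Finset.mem_image] at hy
    obtain ⟨z, _, rfl⟩ := hy
    exact z.2
  · intro hx
    refine ⟨⟨x, hsub x hx⟩, ?_, rfl⟩
    rw [Finset.mem_coe, Finset.mem_image]
    exact ⟨⟨x, hx⟩, Finset.mem_attach _ _, rfl⟩

theorem RB.index_le {K : Type*} [Group K] {r p : ℕ} (hp : p.Prime) (h : RB r K) (L : Subgroup K)
    (hc : ∀ x y : K, x * y * x⁻¹ * y⁻¹ ∈ L) (hq : ∀ x : K, x ^ p ∈ L) :
    L.index ≠ 0 ∧ L.index ≤ p ^ r := by
  classical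
  have hn : L.Normal := by
    refine ⟨fun n hn g => ?_⟩
    have e : g * n * g⁻¹ = (g * n * g⁻¹ * n⁻¹) * n := by group
    rw [e]
    exact L.mul_mem (hc g n) hn
  let _ : CommGroup (K ⧸ L) :=
    { (inferInstance : Group (K ⧸ L)) with
      mul_comm := by
        intro a b
        obtain ⟨x, rfl⟩ := QuotientGroup.mk'_surjective L a
        obtain ⟨y, rfl⟩ := QuotientGroup.mk'_surjective L b
        rw [← map_mul, ← map_mul]
        apply QuotientGroup.eq.2
        have e : (x * y)⁻¹ * (y * x) = y⁻¹ * x⁻¹ * y⁻¹⁻¹ * x⁻¹⁻¹ := by group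
        rw [e]
        exact hc _ _ }
  have hq' : ∀ x : K ⧸ L, x ^ p = 1 := by
    intro a
    obtain ⟨x, rfl⟩ := QuotientGroup.mk'_surjective L a
    rw [← map_pow]
    exact (QuotientGroup.eq_one_iff _).2 (hq x)
  have hT : ∀ T : Finset (K ⧸ L), T.card ≤ p ^ r := by
    intro T
    let S : Finset K := T.image Quotient.out
    obtain ⟨s, hs, hcl⟩ := h (Subgroup.closure (S : Set K)) ⟨S, rfl⟩
    have h3 : ∀ x ∈ T, x ∈ Subgroup.closure ((s.image (QuotientGroup.mk' L) : Finset (K ⧸ L)) : Set (K ⧸ L)) := by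
      intro x hx
      rw [Finset.coe_image, ← MonoidHom.map_closure, hcl]
      refine ⟨Quotient.out x, Subgroup.subset_closure ?_, ?_⟩
      · rw [Finset.mem_coe, Finset.mem_image]
        exact ⟨x, hx, rfl⟩
      · exact QuotientGroup.out_eq' x
    refine (card_le hp.pos hq' _ T h3).trans ?_
    exact Nat.pow_le_pow_right hp.pos (Finset.card_image_le.trans hs)
  have hfin : Finite (K ⧸ L) := by
    by_contra hinf
    rw [not_finite_iff_infinite] at hinf
    obtain ⟨T, hTc⟩ := Infinite.exists_subset_card_eq (K ⧸ L) (p ^ r + 1)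
    have := hT T
    omega
  refine ⟨Subgroup.index_ne_zero_of_finite, ?_⟩
  have := Fintype.ofFinite (K ⧸ L)
  rw [Subgroup.index_eq_card, Nat.card_eq_fintype_card, ← Finset.card_univ]
  exact hT _

theorem fr_le {K : Type*} [Group K] (p : ℕ) (H : Subgroup K) : Fr p H ≤ H := by
  rw [Fr, Subgroup.closure_le]
  rintro y (⟨x, hx, rfl⟩ | ⟨a, ha, b, hb, rfl⟩)
  · exact H.pow_mem hx p
  · exact H.mul_mem (H.mul_mem (H.mul_mem ha hb) (H.inv_mem ha)) (H.inv_mem hb)

theorem RB.fr_relIndex {K : Type*} [Group K] {r p : ℕ} (hp : p.Prime) (h : RB r K)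
    (H : Subgroup K) : (Fr p H).relIndex H ≠ 0 ∧ (Fr p H).relIndex H ≤ p ^ r := by
  apply RB.index_le hp (h.subgroup H) ((Fr p H).subgroupOf H)
  · intro x y
    rw [Subgroup.mem_subgroupOf]
    exact Subgroup.subset_closure (Or.inr ⟨x, x.2, y, y.2, rfl⟩)
  · intro x
    rw [Subgroup.mem_subgroupOf]
    exact Subgroup.subset_closure (Or.inl ⟨x, x.2, rfl⟩)

theorem RB.fr_iterate {K : Type*} [Group K] {r p : ℕ} (hp : p.Prime) (h : RB r K)
    (H : Subgroup K) (t : ℕ) :
    ((Fr p)^[t] H).relIndex H ≠ 0 ∧ ((Fr p)^[t] H).relIndex H ≤ p ^ (r * t) := by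
  have hle : ∀ t, (Fr p)^[t] H ≤ H := by
    intro t
    induction t with
    | zero => exact le_refl _
    | succ t ih =>
      rw [Function.iterate_succ_apply']
      exact (fr_le p _).trans ih
  induction t with
  | zero =>
    rw [Function.iterate_zero_apply, Subgroup.relIndex_self]
    exact ⟨one_ne_zero, by simp⟩
  | succ t ih =>
    rw [Function.iterate_succ_apply', ← Subgroup.relIndex_mul_relIndex _ _ _ (fr_le p _) (hle t)]
    have h1 := h.fr_relIndex hp ((Fr p)^[t] H)
    refine ⟨mul_ne_zero h1.1 ih.1, ?_⟩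
    calc _ ≤ p ^ r * p ^ (r * t) := Nat.mul_le_mul h1.2 ih.2
      _ = p ^ (r * (t + 1)) := by rw [← pow_add]; congr 1; ring

end P9700r
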