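import Mathlib
import Pool.Agent.Lib.P9700r.Defs
import Pool.Agent.Lib.P9700r.RankElem
import Pool.Agent.Lib.P9700r.Act

/-!
# The counting lemma for surjective crossed homomorphisms

`δ : H → M` is a surjective crossed homomorphism onto a finite elementary abelian group, `H` of rank at most `r`, `K` a subgroup of index at most `q` acting by
automorphisms of `p`-power order, `|M| ≤ p ^ (2 ^ t)`. Then `|M| ≤ q p ^ (r (t + 1))`.

Proof. `L` = the image in `H` of `(Fr p)^[t] (⊤ : Subgroup K)`: `L` acts trivially on `M` (`act_trivial` for `φ.comp K.subtype`), and `[H : L] ≤ q p ^ (r t)`, nonzero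
(`RB.fr_iterate` for `K` with `RB.subgroup`, `Subgroup.index_map_subtype`). On `L` the map `δ` is a homomorphism `L →* M` (`δ (l l') = δ l' * δ l`); its kernel contains the `p`-th powers and
commutators, so `|δ(L)| ≤ p ^ r` (`RB.index_le` for `L`, kernel). `H` is a union of at most `q p ^ (r t)` left cosets `h L` and `δ (h l) = φ h (δ l) * δ h`, so `|δ(h L)| ≤ p ^ r`; `δ` is surjective.
(`ncard` of a finite union, or an injection `M → (H ⧸ L) × δ(L)`: for `m = δ h`, `h = h₀ l` with `h₀` the chosen representative of `h L`.)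
-/

set_option autoImplicit false

namespace P9700r

theorem count {H M : Type*} [Group H] [CommGroup M] [Finite M] {p : ℕ} (hp : p.Prime)
    (hM : ∀ x : M, x ^ p = 1) (r : ℕ) (hH : RB r H) (φ : H →* MulAut M) (K : Subgroup H) (q : ℕ)
    (hK0 : K.index ≠ 0) (hKq : K.index ≤ q) (hφ : ∀ k ∈ K, ∃ j : ℕ, (φ k) ^ (p ^ j) = 1)
    (δ : H → M) (hδ : ∀ h h' : H, δ (h * h') = φ h (δ h') * δ h) (hs : Function.Surjective δ)
    (t : ℕ) (ht : Nat.card M ≤ p ^ (2 ^ t)) :
    Nat.card M ≤ q * p ^ (r * (t + 1)) := by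
  classical
  set F : Subgroup K := (Fr p)^[t] (⊤ : Subgroup K) with hF
  set L : Subgroup H := F.map K.subtype with hL
  have hFi : F.index ≠ 0 ∧ F.index ≤ p ^ (r * t) := by
    have h := RB.fr_iterate hp (hH.subgroup K) (⊤ : Subgroup K) t
    rw [← hF, Subgroup.relIndex_top_right] at h
    exact h
  have hLi : L.index = F.index * K.index := Subgroup.index_map_subtype F
  have hL0 : L.index ≠ 0 := by
    rw [hLi]; exact Nat.mul_ne_zero hFi.1 hK0
  have hLq : L.index ≤ p ^ (r * t) * q := by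
    rw [hLi]; exact Nat.mul_le_mul hFi.2 hKq
  have htriv : ∀ l ∈ L, φ l = 1 := by
    rintro l ⟨k, hk, rfl⟩
    exact act_trivial hp hM (φ.comp K.subtype) (fun k => hφ k k.2) t ht k hk
  have h1 : δ 1 = 1 := by
    have h := hδ 1 1
    rw [map_one, mul_one, MulAut.one_apply] at h
    exact (mul_eq_left.mp h.symm)
  let d : L →* M :=
    { toFun := fun l => δ l
      map_one' := h1
      map_mul' := by
        intro a b
        show δ ((a : H) * (b : H)) = δ a * δ b
        rw [hδ, htriv _ a.2, MulAut.one_apply, mul_comm] }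
  have hk : d.ker.index ≠ 0 ∧ d.ker.index ≤ p ^ r := by
    apply RB.index_le hp (hH.subgroup L) d.ker
    · intro x y
      rw [MonoidHom.mem_ker, map_mul, map_mul, map_mul, map_inv, map_inv]
      rw [mul_comm (d x) (d y), mul_assoc (d y), mul_inv_cancel, mul_one, mul_inv_cancel]
    · intro x
      rw [MonoidHom.mem_ker, map_pow]
      exact hM _
  have hr : Nat.card d.range ≤ p ^ r := by
    rw [← Subgroup.index_ker]; exact hk.2
  haveI : Finite (H ⧸ L) := Nat.finite_of_card_ne_zero hL0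
  let Φ : (H ⧸ L) × d.range → M := fun x => φ x.1.out x.2.1 * δ x.1.out
  have hΦ : Function.Surjective Φ := by
    intro m
    obtain ⟨h, rfl⟩ := hs m
    have hl : ((h : H ⧸ L).out)⁻¹ * h ∈ L := by
      rw [← QuotientGroup.eq]
      exact QuotientGroup.out_eq' _
    refine ⟨((h : H ⧸ L), ⟨d ⟨_, hl⟩, ⟨⟨_, hl⟩, rfl⟩⟩), ?_⟩
    show φ ((h : H ⧸ L).out) (δ (((h : H ⧸ L).out)⁻¹ * h)) * δ ((h : H ⧸ L).out) = δ h
    rw [← hδ, mul_inv_cancel_left]
  have hc : Nat.card M ≤ Nat.card ((H ⧸ L) × d.range) := Nat.card_le_card_of_surjective Φ hΦ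
  rw [Nat.card_prod] at hc
  calc Nat.card M ≤ Nat.card (H ⧸ L) * Nat.card d.range := hc
    _ ≤ (p ^ (r * t) * q) * p ^ r := Nat.mul_le_mul hLq hr
    _ = q * p ^ (r * (t + 1)) := by ring

/-- the numerical consequence. -/
theorem num_bound (p q r : ℕ) (hp : 2 ≤ p) :
    ∃ c : ℕ, ∀ m : ℕ, (∀ t : ℕ, m ≤ 2 ^ t → p ^ m ≤ q * p ^ (r * (t + 1))) → m ≤ c := by
  set A : ℕ := q + 2 * r with hA
  set k : ℕ := A + r + 1 with hk
  have key : ∀ s : ℕ, 3 * k ≤ s → A + r * s < 2 ^ s := by
    intro s hs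
    induction s, hs using Nat.le_induction with
    | base =>
      have h2 : k + 1 ≤ 2 ^ k := Nat.lt_two_pow_self
      have h3 : (k + 1) ^ 3 ≤ (2 ^ k) ^ 3 := Nat.pow_le_pow_left h2 3
      rw [← pow_mul, mul_comm k 3] at h3
      refine lt_of_lt_of_le ?_ h3
      have hAk : A ≤ k := by omega
      have hrk : r ≤ k := by omega
      have h4 : r * (3 * k) ≤ k * (3 * k) := Nat.mul_le_mul_right _ hrk
      nlinarith [h4, hAk, Nat.zero_le (k ^ 3)]
    | succ s hs ih =>
      have hrs : r ≤ 2 ^ s := by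
        have : s < 2 ^ s := Nat.lt_two_pow_self
        omega
      rw [pow_succ]
      nlinarith
  refine ⟨2 ^ (3 * k), fun m hm => ?_⟩
  by_contra hcon
  push_neg at hcon
  have hm0 : m ≠ 0 := by
    have := Nat.zero_le (2 ^ (3 * k)); omega
  set s := Nat.log 2 m with hs
  have hlt : m < 2 ^ (s + 1) := Nat.lt_pow_succ_log_self (by norm_num) m
  have hge : 2 ^ s ≤ m := Nat.pow_log_le_self 2 hm0
  have hsk : 3 * k ≤ s := by
    by_contra h
    push_neg at h
    have : 2 ^ (s + 1) ≤ 2 ^ (3 * k) := Nat.pow_le_pow_right (by norm_num) h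
    omega
  have h5 := hm (s + 1) hlt.le
  have hq : q ≤ p ^ q := le_trans (Nat.lt_two_pow_self (n := q)).le (Nat.pow_le_pow_left hp q)
  have h6 : p ^ m ≤ p ^ (q + r * (s + 1 + 1)) := by
    rw [pow_add]
    exact h5.trans (Nat.mul_le_mul_right _ hq)
  have h7 : m ≤ q + r * (s + 1 + 1) := (Nat.pow_le_pow_iff_right (by omega)).mp h6
  have h8 := key s hsk
  have h9 : q + r * (s + 1 + 1) = A + r * s := by rw [hA]; ring
  omega

end P9700r
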