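import Mathlib
import Pool.Agent.Lib.P9700r.Defs

/-!
# Sections of exponent `p ^ j`

If `M / M1` is abelian of exponent dividing `p ^ j` its order is at most `p ^ (c j)`.

Proof. Induction on `j`. `j = 0`: `M = M1`. Step `j + 1`: `M' := M1 ⊔ PW p M` is normal in `G`, `M1 ≤ M' ≤ M`, and `M / M'` is elementary abelian, so `M'.relIndex M ≤ p ^ c`
(`EB`). Every element of `M'` is `z x ^ p` with `z ∈ M1`, `x ∈ M` (the set of these elements is a subgroup because `M / M1` is commutative: `(x y) ^ p ≡ x ^ p y ^ p`), so `(M') ^ (p ^ j) ≤ M1`; `M'` is abelian modulo `M1`. Induction for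
`M', M1`; multiply (`Subgroup.relIndex_mul_relIndex`). It may be convenient to prove by closure induction that `w ^ (p ^ j) ∈ M1` for `w ∈ M'`, using
`(x y) ^ n ≡ x ^ n y ^ n` modulo `M1` for `x, y ∈ M`.

* `np_relIndex_ne_zero`, `np_sup_of_le`: basic facts on `NP`.
-/

set_option autoImplicit false

namespace P9700r

variable {G : Type*} [Group G]

/-- supergroups: if `N ≤ M ≤ G0`, `M` normal and `NP N` then `NP M`. -/
theorem NP.of_le {p : ℕ} (hp : p.Prime) {G0 N M : Subgroup G} (h : NP p G0 N) (hM : M.Normal)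
    (h1 : N ≤ M) (h2 : M ≤ G0) : NP p G0 M := by
  obtain ⟨_, _, k, hk⟩ := h
  refine ⟨hM, h2, ?_⟩
  have e := Subgroup.relIndex_mul_relIndex N M G0 h1 h2
  rw [hk] at e
  obtain ⟨j, _, hj⟩ := (Nat.dvd_prime_pow hp).1 (Dvd.intro_left _ e)
  exact ⟨j, hj⟩

/-- intersections. -/
theorem NP.inf {p : ℕ} (hp : p.Prime) {G0 N N' : Subgroup G} (h : NP p G0 N) (h' : NP p G0 N') :
    NP p G0 (N ⊓ N') := by
  obtain ⟨hn, hle, k, hk⟩ := h
  obtain ⟨hn', hle', k', hk'⟩ := h'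
  refine ⟨inferInstance, inf_le_left.trans hle, ?_⟩
  have e := Subgroup.relIndex_mul_relIndex (N ⊓ N') N G0 inf_le_left hle
  rw [hk, Subgroup.inf_relIndex_left] at e
  have hd : N'.relIndex N ∣ p ^ k' := by
    rw [← hk', ← Subgroup.relIndex_subgroupOf (H := N') hle]
    exact Subgroup.relIndex_dvd_index_of_normal (N'.subgroupOf G0) (N.subgroupOf G0)
  obtain ⟨j, _, hj⟩ := (Nat.dvd_prime_pow hp).1 hd
  rw [hj, ← pow_add] at e
  exact ⟨_, e.symm⟩

/-- `G0` itself. -/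
theorem NP.self (p : ℕ) (G0 : Subgroup G) (h : G0.Normal) : NP p G0 G0 := by
  exact ⟨h, le_rfl, 0, by rw [Subgroup.relIndex_self, pow_zero]⟩

/-- relative indices above `N` are nonzero powers of `p`. -/
theorem NP.relIndex {p : ℕ} (hp : p.Prime) {G0 N X Y : Subgroup G} (h : NP p G0 N) (h1 : N ≤ Y)
    (h2 : Y ≤ X) (h3 : X ≤ G0) : ∃ j : ℕ, Y.relIndex X = p ^ j := by
  obtain ⟨_, _, k, hk⟩ := h
  have e := Subgroup.relIndex_mul_relIndex N Y G0 h1 (h2.trans h3)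
  have e2 := Subgroup.relIndex_mul_relIndex Y X G0 h2 h3
  rw [hk, ← e2] at e
  have hd : Y.relIndex X ∣ p ^ k := by
    rw [← e]
    exact dvd_mul_of_dvd_right (dvd_mul_right _ _) _
  obtain ⟨j, _, hj⟩ := (Nat.dvd_prime_pow hp).1 hd
  exact ⟨j, hj⟩

/-- elements of `G0` have a `p`-power in `N`. -/
theorem NP.pow_mem {p : ℕ} {G0 N : Subgroup G} (h : NP p G0 N) {g : G} (hg : g ∈ G0) :
    ∃ j : ℕ, g ^ (p ^ j) ∈ N := by
  obtain ⟨hn, _, k, hk⟩ := h
  refine ⟨k, ?_⟩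
  have := Subgroup.pow_index_mem (N.subgroupOf G0) (⟨g, hg⟩ : G0)
  rw [← Subgroup.relIndex, hk, Subgroup.mem_subgroupOf] at this
  exact this

private theorem commute_mk {M M1 : Subgroup G} [M1.Normal] (h4 : ∀ x ∈ M, ∀ y ∈ M, x * y * x⁻¹ * y⁻¹ ∈ M1)
    {x y : G} (hx : x ∈ M) (hy : y ∈ M) : Commute (QuotientGroup.mk x : G ⧸ M1) (QuotientGroup.mk y) := by
  have h := h4 x hx y hy
  have h2 : (QuotientGroup.mk (x * y * x⁻¹ * y⁻¹) : G ⧸ M1) = 1 := (QuotientGroup.eq_one_iff _).2 h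
  rw [QuotientGroup.mk_mul, QuotientGroup.mk_mul, QuotientGroup.mk_mul, QuotientGroup.mk_inv,
    QuotientGroup.mk_inv] at h2
  exact mul_inv_eq_iff_eq_mul.1 (mul_inv_eq_one.1 h2)

/-- the elements of `M` whose `n`-th power is in `M1` -/
private def powSub (M M1 : Subgroup G) [M1.Normal] (h4 : ∀ x ∈ M, ∀ y ∈ M, x * y * x⁻¹ * y⁻¹ ∈ M1)
    (n : ℕ) : Subgroup G where
  carrier := {w | w ∈ M ∧ w ^ n ∈ M1}
  one_mem' := ⟨M.one_mem, by rw [one_pow]; exact M1.one_mem⟩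
  mul_mem' := by
    rintro a b ⟨ha, ha'⟩ ⟨hb, hb'⟩
    refine ⟨M.mul_mem ha hb, ?_⟩
    rw [← QuotientGroup.eq_one_iff, QuotientGroup.mk_pow] at ha' hb' ⊢
    rw [QuotientGroup.mk_mul, (commute_mk h4 ha hb).mul_pow, ha', hb', one_mul]
  inv_mem' := by
    rintro a ⟨ha, ha'⟩
    refine ⟨M.inv_mem ha, ?_⟩
    rw [inv_pow]
    exact M1.inv_mem ha'

private theorem pw_normal {M : Subgroup G} (hM : M.Normal) (p : ℕ) : (PW p M).Normal := by
  constructor
  intro n hn g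
  unfold PW at hn ⊢
  induction hn using Subgroup.closure_induction with
  | mem x hx =>
    obtain ⟨y, hy, rfl⟩ := hx
    exact Subgroup.subset_closure ⟨g * y * g⁻¹, hM.conj_mem y hy g, by rw [conj_pow]⟩
  | one => simp
  | mul a b _ _ ha hb =>
    have e : g * (a * b) * g⁻¹ = (g * a * g⁻¹) * (g * b * g⁻¹) := by group
    rw [e]
    exact Subgroup.mul_mem _ ha hb
  | inv a _ ha =>
    have e : g * a⁻¹ * g⁻¹ = (g * a * g⁻¹)⁻¹ := by group
    rw [e]
    exact Subgroup.inv_mem _ ha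

theorem EB.expo {p : ℕ} (hp : p.Prime) {G0 : Subgroup G} {c : ℕ} (hc : EB p G0 c) (j : ℕ)
    (N M M1 : Subgroup G) (hN : NP p G0 N) (hM : M.Normal) (hM1 : M1.Normal) (h1 : N ≤ M1)
    (h2 : M1 ≤ M) (h3 : M ≤ G0) (h4 : ∀ x ∈ M, ∀ y ∈ M, x * y * x⁻¹ * y⁻¹ ∈ M1)
    (h5 : ∀ x ∈ M, x ^ (p ^ j) ∈ M1) : M1.relIndex M ≤ p ^ (c * j) := by
  have hN' := hN
  induction j generalizing M with
  | zero =>
    have h : M ≤ M1 := fun x hx => by simpa using h5 x hx
    rw [Subgroup.relIndex_eq_one.2 h, Nat.mul_zero, pow_zero]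
  | succ j ih =>
    have hPM : PW p M ≤ M := by
      unfold PW
      rw [Subgroup.closure_le]
      rintro y ⟨x, hx, rfl⟩
      exact M.pow_mem hx p
    have hPn := pw_normal hM p
    have hn : (M1 ⊔ PW p M).Normal := inferInstance
    have hle : M1 ⊔ PW p M ≤ M := sup_le h2 hPM
    have hb : (M1 ⊔ PW p M).relIndex M ≤ p ^ c :=
      hc N M (M1 ⊔ PW p M) hN hM hn (h1.trans le_sup_left) hle h3
        (fun x hx y hy => le_sup_left (a := M1) (h4 x hx y hy))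
        (fun x hx => le_sup_right (a := M1) (Subgroup.subset_closure ⟨x, hx, rfl⟩))
    have hsub : M1 ⊔ PW p M ≤ powSub M M1 h4 (p ^ j) := by
      refine sup_le (fun z hz => ⟨h2 hz, M1.pow_mem hz _⟩) ?_
      unfold PW
      rw [Subgroup.closure_le]
      rintro y ⟨x, hx, rfl⟩
      refine ⟨M.pow_mem hx p, ?_⟩
      rw [← pow_mul, ← pow_succ']
      exact h5 x hx
    have hi := ih (M1 ⊔ PW p M) hn le_sup_left (hle.trans h3)
      (fun x hx y hy => h4 x (hle hx) y (hle hy)) (fun x hx => (hsub hx).2)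
    calc M1.relIndex M = M1.relIndex (M1 ⊔ PW p M) * (M1 ⊔ PW p M).relIndex M :=
          (Subgroup.relIndex_mul_relIndex _ _ _ le_sup_left hle).symm
      _ ≤ p ^ (c * j) * p ^ c := Nat.mul_le_mul hi hb
      _ = p ^ (c * (j + 1)) := by rw [← pow_add, Nat.mul_succ]

end P9700r
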