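import Mathlib
import Pool.Agent.Lib.P9700a.Defs
import Pool.Agent.Lib.P9700a.Rank
import Pool.Agent.Lib.P9700r.Defs
import Pool.Agent.Lib.P9700r.Expo
import Pool.Agent.Lib.P9700r.Count

/-!
# The bound for elementary abelian sections

`G = A B`, `A`, `B` of finite special rank, `G0` normal of finite index. There is `c` such that all elementary abelian sections `M / M1` of `G` with `N ≤ M1 ≤ M ≤ G0` (`N` as in `NP`) have
order at most `p ^ c`.

Proof. `FR (A × B)` (`FR.prod`), let `r` be a bound (`FR` and `∃ r, RB r` are definitionally equal). `q = G0.index`, `c` from `num_bound p q r`. Given `N, M, M1`: `M1` has finite index in `G` (`N ≤ M1`), so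
`Mb := M ⧸ M1.subgroupOf M` is a finite commutative group with `x ^ p = 1`; its order is `M1.relIndex M`, a power `p ^ m` (finite group of exponent `p`, or it divides `N.relIndex G0`).
`H = {(a, b) ∈ A × B : a b⁻¹ ∈ M}` is a subgroup of `A × B` (copy from `red_case_v` in `P9700b/MainV.lean`, `M` normal), `RB r H` by `RB.subgroup`. `φ h` = conjugation by `a` on `Mb` (`M`, `M1` normal in `G`).
`K = {(a, b) : a ∈ G0}`, index at most `q` and nonzero (`K = G0.comap pA`; `Subgroup.index_comap`, `relIndex` at most `index`). For `a ∈ G0` some power `a ^ (p ^ j)` lies in `N ≤ M1` (`G0 / N` is a finite `p`-group: use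
`N.relIndex G0 = p ^ k` and `Subgroup.pow_index_mem` in `G0`), and conjugation by an element `z` of `M1` is trivial on `M / M1` (`z x z⁻¹ x⁻¹ ∈ M1` because `M1` is normal). `δ h` = the class of `a b⁻¹`: `δ (h h') = φ h (δ h') * δ h`, surjective because
`G = A B` (`m = a b`, take `(a, b⁻¹)`). `count` gives the hypothesis of `num_bound` for `m`.
-/

set_option autoImplicit false

namespace P9700r

open P9700a

namespace ElemAux

variable {G : Type*} [Group G] (M M1 : Subgroup G) [M.Normal] [M1.Normal]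

theorem map_conj (g : G) :
    (M1.subgroupOf M).map ((MulAut.conjNormal g : MulAut M) : M ≃* M).toMonoidHom =
      M1.subgroupOf M := by
  apply le_antisymm
  · rintro _ ⟨y, hy, rfl⟩
    rw [SetLike.mem_coe, Subgroup.mem_subgroupOf] at hy
    rw [Subgroup.mem_subgroupOf]
    change ((MulAut.conjNormal g y : M) : G) ∈ M1
    rw [MulAut.conjNormal_apply]
    exact (inferInstance : M1.Normal).conj_mem _ hy g
  · intro x hx
    rw [Subgroup.mem_subgroupOf] at hx
    refine ⟨MulAut.conjNormal g⁻¹ x, ?_, ?_⟩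
    · rw [SetLike.mem_coe, Subgroup.mem_subgroupOf, MulAut.conjNormal_apply]
      exact (inferInstance : M1.Normal).conj_mem _ hx g⁻¹
    · change (MulAut.conjNormal g) (MulAut.conjNormal g⁻¹ x) = x
      rw [← MulAut.mul_apply, ← map_mul, mul_inv_cancel, map_one]
      rfl

/-- the action of `G` on the section `M / M1` -/
noncomputable def cj (g : G) : (M ⧸ M1.subgroupOf M) ≃* (M ⧸ M1.subgroupOf M) :=
  QuotientGroup.congr (M1.subgroupOf M) (M1.subgroupOf M) (MulAut.conjNormal g) (map_conj M M1 g)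

theorem cj_mk (g : G) (x : M) :
    cj M M1 g (QuotientGroup.mk x) = QuotientGroup.mk (MulAut.conjNormal g x) := rfl

/-- the action as a homomorphism -/
noncomputable def cjH : G →* MulAut (M ⧸ M1.subgroupOf M) where
  toFun g := cj M M1 g
  map_one' := by
    apply MulEquiv.ext
    intro x
    induction x using QuotientGroup.induction_on with
    | H x => rw [cj_mk, map_one]; rfl
  map_mul' g h := by
    apply MulEquiv.ext
    intro x
    induction x using QuotientGroup.induction_on with
    | H x =>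
      rw [cj_mk, map_mul]
      rfl

theorem cjH_mk (g : G) (x : M) :
    cjH M M1 g (QuotientGroup.mk x) = QuotientGroup.mk (MulAut.conjNormal g x) := rfl

theorem cjH_triv {g : G} (hg : g ∈ M1) : cjH M M1 g = 1 := by
  apply MulEquiv.ext
  intro x
  induction x using QuotientGroup.induction_on with
  | H x =>
    rw [cjH_mk]
    change _ = ((QuotientGroup.mk x : M ⧸ M1.subgroupOf M))
    rw [QuotientGroup.eq, Subgroup.mem_subgroupOf, Subgroup.coe_mul, Subgroup.coe_inv,
      MulAut.conjNormal_apply]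
    have e : (g * (x : G) * g⁻¹)⁻¹ * (x : G) = g * ((x : G)⁻¹ * g⁻¹ * ((x : G)⁻¹)⁻¹) := by group
    rw [e]
    exact M1.mul_mem hg ((inferInstance : M1.Normal).conj_mem _ (M1.inv_mem hg) _)

end ElemAux

open ElemAux

theorem elem_bound {G : Type*} [Group G] (p : ℕ) [Fact p.Prime] (G0 : Subgroup G) [G0.Normal]
    [G0.FiniteIndex] (A B : Subgroup G) (hA : FR A) (hB : FR B)
    (hAB : ∀ g : G, ∃ a ∈ A, ∃ b ∈ B, g = a * b) : ∃ c : ℕ, EB p G0 c := by
  have hp : p.Prime := Fact.out
  obtain ⟨r, hr⟩ : ∃ r, RB r (A × B) := FR.prod hA hB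
  obtain ⟨c, hc⟩ := num_bound p G0.index r hp.two_le
  refine ⟨c, ?_⟩
  intro N M M1 hN hM hM1 h1 h2 h3 h4 h5
  obtain ⟨m, hm⟩ := hN.relIndex hp h1 h2 h3
  have hcard : Nat.card (M ⧸ M1.subgroupOf M) = p ^ m := by
    rw [← hm]
    rfl
  have hfin : Finite (M ⧸ M1.subgroupOf M) := by
    apply Nat.finite_of_card_ne_zero
    rw [hcard]
    exact (pow_pos hp.pos m).ne'
  let cg : CommGroup (M ⧸ M1.subgroupOf M) :=
    { (inferInstance : Group (M ⧸ M1.subgroupOf M)) with
      mul_comm := by
        intro x y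
        induction x using QuotientGroup.induction_on with
        | H x =>
          induction y using QuotientGroup.induction_on with
          | H y =>
            rw [← QuotientGroup.mk_mul, ← QuotientGroup.mk_mul, QuotientGroup.eq,
              Subgroup.mem_subgroupOf]
            have h6 := h4 _ (M.inv_mem y.2) _ (M.inv_mem x.2)
            have e : (((x * y)⁻¹ * (y * x) : M) : G) =
                (y : G)⁻¹ * (x : G)⁻¹ * (y : G)⁻¹⁻¹ * (x : G)⁻¹⁻¹ := by
              simp only [Subgroup.coe_mul, Subgroup.coe_inv]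
              group
            rw [e]
            exact h6 }
  let H : Subgroup (A × B) :=
    { carrier := {p | (p.1 : G) * (p.2 : G)⁻¹ ∈ M}
      one_mem' := by simp [M.one_mem]
      mul_mem' := by
        rintro ⟨a, b⟩ ⟨a', b'⟩ h h'
        simp only [Set.mem_ofPred_eq, Prod.fst_mul, Prod.snd_mul, Subgroup.coe_mul, mul_inv_rev] at *
        have : (a : G) * a' * ((b' : G)⁻¹ * (b : G)⁻¹) =
            ((a : G) * (a' * (b' : G)⁻¹) * (a : G)⁻¹) * (a * (b : G)⁻¹) := by group
        rw [this]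
        exact M.mul_mem (hM.conj_mem _ h' _) h
      inv_mem' := by
        rintro ⟨a, b⟩ h
        simp only [Set.mem_ofPred_eq, Prod.fst_inv, Prod.snd_inv, Subgroup.coe_inv, inv_inv] at *
        have : (a : G)⁻¹ * b = (a : G)⁻¹ * ((a : G) * (b : G)⁻¹)⁻¹ * ((a : G)⁻¹)⁻¹ := by group
        rw [this]
        exact hM.conj_mem _ (M.inv_mem h) _ }
  have hHmem : ∀ p : H, ((p : A × B).1 : G) * ((p : A × B).2 : G)⁻¹ ∈ M := fun p => p.2
  let pA : H →* G := A.subtype.comp ((MonoidHom.fst A B).comp H.subtype)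
  let φ : H →* MulAut (M ⧸ M1.subgroupOf M) := (cjH M M1).comp pA
  let δ : H → M ⧸ M1.subgroupOf M := fun h => QuotientGroup.mk ⟨_, hHmem h⟩
  have hidx : (G0.comap pA).index ∣ G0.index := by
    rw [Subgroup.index_comap]
    exact Subgroup.relIndex_dvd_index_of_normal G0 pA.range
  have hG0 : G0.index ≠ 0 := (inferInstance : G0.FiniteIndex).index_ne_zero
  have key := count hp (M := M ⧸ M1.subgroupOf M) ?_ r (hr.subgroup H) φ (G0.comap pA) G0.index
    ?_ (Nat.le_of_dvd (Nat.pos_of_ne_zero hG0) hidx) ?_ δ ?_ ?_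
  · rw [hm]
    refine Nat.pow_le_pow_right hp.pos (hc m fun t ht => ?_)
    have h6 := key t (by rw [hcard]; exact Nat.pow_le_pow_right hp.pos ht)
    rw [hcard] at h6
    exact h6
  · intro x
    induction x using QuotientGroup.induction_on with
    | H x =>
      change (QuotientGroup.mk (x ^ p) : M ⧸ M1.subgroupOf M) = 1
      rw [QuotientGroup.eq_one_iff, Subgroup.mem_subgroupOf]
      exact h5 _ x.2
  · intro h0
    rw [h0, zero_dvd_iff] at hidx
    exact hG0 hidx
  · intro k hk
    obtain ⟨j, hj⟩ := hN.pow_mem (Subgroup.mem_comap.1 hk)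
    refine ⟨j, ?_⟩
    change ((cjH M M1) (pA k)) ^ (p ^ j) = 1
    rw [← map_pow]
    exact cjH_triv M M1 (h1 hj)
  · intro h h'
    change (QuotientGroup.mk (⟨_, hHmem (h * h')⟩ : M) : M ⧸ M1.subgroupOf M) =
      QuotientGroup.mk (MulAut.conjNormal (pA h) (⟨_, hHmem h'⟩ : M)) *
        QuotientGroup.mk (⟨_, hHmem h⟩ : M)
    rw [← QuotientGroup.mk_mul]
    congr 1
    apply Subtype.ext
    have e1 := MulAut.conjNormal_apply (pA h) (⟨_, hHmem h'⟩ : M)
    change ((h : A × B).1 : G) * ((h' : A × B).1 : G) *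
      (((h : A × B).2 : G) * ((h' : A × B).2 : G))⁻¹ =
      ((MulAut.conjNormal (pA h) (⟨_, hHmem h'⟩ : M) : M) : G) *
        (((h : A × B).1 : G) * ((h : A × B).2 : G)⁻¹)
    rw [e1]
    change ((h : A × B).1 : G) * ((h' : A × B).1 : G) *
      (((h : A × B).2 : G) * ((h' : A × B).2 : G))⁻¹ =
      ((h : A × B).1 : G) * (((h' : A × B).1 : G) * ((h' : A × B).2 : G)⁻¹) *
        ((h : A × B).1 : G)⁻¹ * (((h : A × B).1 : G) * ((h : A × B).2 : G)⁻¹)
    group
  · intro x
    induction x using QuotientGroup.induction_on with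
    | H x =>
      obtain ⟨a, ha, b, hb, hab⟩ := hAB x
      have hmem : ((⟨a, ha⟩ : A) : G) * ((⟨b⁻¹, B.inv_mem hb⟩ : B) : G)⁻¹ ∈ M := by
        change a * b⁻¹⁻¹ ∈ M
        rw [inv_inv, ← hab]
        exact x.2
      refine ⟨⟨(⟨a, ha⟩, ⟨b⁻¹, B.inv_mem hb⟩), hmem⟩, ?_⟩
      change (QuotientGroup.mk (⟨a * b⁻¹⁻¹, hmem⟩ : M) : M ⧸ M1.subgroupOf M) = _
      congr 1
      apply Subtype.ext
      change a * b⁻¹⁻¹ = (x : G)
      rw [inv_inv, hab]

end P9700r
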