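import Mathlib
import Pool.Agent.Lib.P9700r.Defs
import Pool.Agent.Lib.P9700r.Expo

/-!
# Directed families of bounded index have a least member

Proof. `G0` itself satisfies `NP` (`NP.self`). Choose `N0` with `NP p G0 N0` and `(S N0).relIndex G0` maximal (bounded by `C`). For `N` with `NP p G0 N` let `N' = N0 ⊓ N` (`NP.inf`): `S N' ≤ S N0`, so `(S N0).relIndex G0` divides `(S N').relIndex G0` (nonzero powers of `p` by
`NP` of `S N'`), and maximality gives equality, so `(S N').relIndex (S N0) = 1` (`Subgroup.relIndex_mul_relIndex`), `S N0 ≤ S N' ≤ S N`.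
-/

set_option autoImplicit false

namespace P9700r

theorem desc {G : Type*} [Group G] {p : ℕ} (hp : p.Prime) {G0 : Subgroup G} (hG0 : G0.Normal)
    (S : Subgroup G → Subgroup G) (C : ℕ) (h1 : ∀ N, NP p G0 N → NP p G0 (S N))
    (h2 : ∀ N N', NP p G0 N → NP p G0 N' → N ≤ N' → S N ≤ S N')
    (h3 : ∀ N, NP p G0 N → (S N).relIndex G0 ≤ C) :
    ∃ N0, NP p G0 N0 ∧ ∀ N, NP p G0 N → S N0 ≤ S N := by
  obtain ⟨N0, hN0, hm⟩ := Nat.sSup_mem (s := {m | ∃ N, NP p G0 N ∧ (S N).relIndex G0 = m})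
    ⟨_, G0, NP.self p G0 hG0, rfl⟩ ⟨C, by rintro m ⟨N, hN, rfl⟩; exact h3 N hN⟩
  have hmax : ∀ N, NP p G0 N → (S N).relIndex G0 ≤ (S N0).relIndex G0 := by
    intro N hN
    rw [hm]
    exact le_csSup ⟨C, by rintro m ⟨N, hN, rfl⟩; exact h3 N hN⟩ ⟨N, hN, rfl⟩
  refine ⟨N0, hN0, fun N hN => ?_⟩
  have hN' : NP p G0 (N0 ⊓ N) := NP.inf hp hN0 hN
  have i0 : S (N0 ⊓ N) ≤ S N0 := h2 _ _ hN' hN0 inf_le_left
  have i1 : S (N0 ⊓ N) ≤ S N := h2 _ _ hN' hN inf_le_right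
  have hS0 := h1 N0 hN0
  have hS' := h1 _ hN'
  have e := Subgroup.relIndex_mul_relIndex _ _ _ i0 hS0.2.1
  obtain ⟨k, hk⟩ := hS0.2.2
  obtain ⟨k', hk'⟩ := hS'.2.2
  have hpos : 0 < (S N0).relIndex G0 := by rw [hk]; exact Nat.pow_pos hp.pos
  have hpos' : 0 < (S (N0 ⊓ N)).relIndex G0 := by rw [hk']; exact Nat.pow_pos hp.pos
  have hle := hmax _ hN'
  have h1' : (S (N0 ⊓ N)).relIndex (S N0) = 1 := by
    have a1 : (S (N0 ⊓ N)).relIndex (S N0) ≤ 1 := by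
      by_contra hc
      push Not at hc
      have : 1 * (S N0).relIndex G0 < (S (N0 ⊓ N)).relIndex (S N0) * (S N0).relIndex G0 :=
        Nat.mul_lt_mul_of_pos_right hc hpos
      omega
    have a2 : (S (N0 ⊓ N)).relIndex (S N0) ≠ 0 := by
      intro h0
      rw [h0, zero_mul] at e
      omega
    omega
  exact le_trans (Subgroup.relIndex_eq_one.mp h1') i1

end P9700r
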