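import Mathlib
import Pool.Agent.Lib.P9700r.Defs
import Pool.Agent.Lib.P9700r.Expo

/-!
# Steps of order `p` in the `p`-group `G0 / N`

* `exists_step`: for invariant `X < X' ≤ G0` above `N` there is `y ∈ X'` outside `X` such that `X ⟨y⟩` is invariant and `X` has index `p` in it.
  Proof: `X` is normal in `X'` (`Inv`, `X' ≤ G0`), `Q = X' ⧸ X.subgroupOf X'` is a finite group of order `p ^ i`, `i ≥ 1`; `G0` acts on `Q` by conjugation; the action factors through the finite `p`-group `G0 / N`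
  (or: the image in `MulAut Q` is a `p`-group because `g ^ (p ^ j) ∈ N ≤ X` acts as an inner automorphism ... simplest: let `G0 ⧸ N.subgroupOf G0`, of order `p ^ k`, act: for `n ∈ N ≤ X` and `x ∈ X'`: `n x n⁻¹ x⁻¹ ∈ N ≤ X` since `N` is normal). The number of fixed points
  is divisible by `p` and positive (`IsPGroup.card_modEq_card_fixedPoints`), so there is `y0 ∈ X'`, `y0 ∉ X`, with `g y0 g⁻¹ y0⁻¹ ∈ X` for all `g ∈ G0`. The class of `y0` in `Q` has order `p ^ s`, `s ≥ 1`; `y = y0 ^ (p ^ (s - 1))`.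
  Then `y ∉ X`, `y ^ p ∈ X`, `g y g⁻¹ y⁻¹ ∈ X` for all `g ∈ G0`; `X ⊔ zpowers y` is invariant, and `X` has index `p` in it (`(X ⊔ zpowers y) / X` is cyclic of order `p`).
* `exists_max`: for invariant `F < E ≤ G0` above `N` there is an invariant `J` with `F ≤ J < E` of index `p` in `E`: take an invariant `J`, `F ≤ J < E` with maximal `F.relIndex J` (bounded by `F.relIndex E`), and apply `exists_step` to `J < E`: `J ⊔ zpowers y` must be `E`.
-/

set_option autoImplicit false

namespace P9700r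

variable {G : Type*} [Group G]

namespace ChiefAux

/-- a nontrivial normal subgroup of a finite `p`-group contains a central element of order `p`. -/
theorem exists_central {R : Type*} [Group R] [Finite R] {p : ℕ} [Fact p.Prime]
    (hR : IsPGroup p R) (Y : Subgroup R) [Y.Normal] (hY : Y ≠ ⊥) :
    ∃ z ∈ Y, z ∈ Subgroup.center R ∧ orderOf z = p := by
  have hC : IsPGroup p (ConjAct R) := hR
  have hYp : IsPGroup p Y := hR.to_subgroup Y
  have hd : p ∣ Nat.card Y := by
    obtain ⟨n, hn⟩ := IsPGroup.iff_card.1 hYp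
    rw [hn]
    have : n ≠ 0 := by
      rintro rfl
      apply hY
      rw [pow_zero] at hn
      exact Subgroup.card_eq_one.1 hn
    exact dvd_pow_self p this
  have h1 : (1 : Y) ∈ MulAction.fixedPoints (ConjAct R) Y := by
    intro g
    apply Subtype.ext
    rw [ConjAct.Subgroup.val_conj_smul, ConjAct.smul_def]
    simp
  obtain ⟨b, hb, hb1⟩ :=
    hC.exists_fixed_point_of_prime_dvd_card_of_fixed_point Y hd h1
  have hbc : (b : R) ∈ Subgroup.center R := by
    rw [Subgroup.mem_center_iff]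
    intro g
    have := congrArg Subtype.val (hb (ConjAct.toConjAct g))
    rw [ConjAct.Subgroup.val_conj_smul, ConjAct.smul_def, ConjAct.ofConjAct_toConjAct] at this
    rw [mul_inv_eq_iff_eq_mul] at this
    exact this
  -- an element of order `p` in `Y ⊓ center`
  have hne : (Y ⊓ Subgroup.center R) ≠ ⊥ := by
    intro h
    have : (b : R) ∈ Y ⊓ Subgroup.center R := ⟨b.2, hbc⟩
    rw [h, Subgroup.mem_bot] at this
    apply hb1
    apply Subtype.ext
    rw [this]; rfl
  have hp' : IsPGroup p (Y ⊓ Subgroup.center R : Subgroup R) := hR.to_subgroup _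
  have hd' : p ∣ Nat.card (Y ⊓ Subgroup.center R : Subgroup R) := by
    obtain ⟨n, hn⟩ := IsPGroup.iff_card.1 hp'
    rw [hn]
    have : n ≠ 0 := by
      rintro rfl
      apply hne
      rw [pow_zero] at hn
      exact Subgroup.card_eq_one.1 hn
    exact dvd_pow_self p this
  obtain ⟨z, hz⟩ := exists_prime_orderOf_dvd_card' p hd'
  refine ⟨z, z.2.1, z.2.2, ?_⟩
  rw [Subgroup.orderOf_coe, hz]

end ChiefAux

theorem exists_step {p : ℕ} (hp : p.Prime) {G0 N X X' : Subgroup G} (hN : NP p G0 N) (h1 : N ≤ X)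
    (h2 : X < X') (h3 : X' ≤ G0) (hX : Inv G0 X) (hX' : Inv G0 X') :
    ∃ y ∈ X', y ∉ X ∧ Inv G0 (X ⊔ Subgroup.zpowers y) ∧
      X.relIndex (X ⊔ Subgroup.zpowers y) = p := by
  haveI : Fact p.Prime := ⟨hp⟩
  have hXG : X ≤ G0 := h2.le.trans h3
  haveI hXn : (X.subgroupOf G0).Normal := by
    refine ⟨fun n hn g => ?_⟩
    rw [Subgroup.mem_subgroupOf] at hn ⊢
    exact hX g g.2 n hn
  haveI hXn' : (X'.subgroupOf G0).Normal := by
    refine ⟨fun n hn g => ?_⟩
    rw [Subgroup.mem_subgroupOf] at hn ⊢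
    exact hX' g g.2 n hn
  obtain ⟨j, hj⟩ := hN.relIndex hp h1 hXG le_rfl
  have hcard : Nat.card (G0 ⧸ X.subgroupOf G0) = p ^ j := hj
  haveI hfin : Finite (G0 ⧸ X.subgroupOf G0) :=
    Nat.finite_of_card_ne_zero (by rw [hcard]; exact pow_ne_zero _ hp.ne_zero)
  have hR : IsPGroup p (G0 ⧸ X.subgroupOf G0) := IsPGroup.of_card hcard
  set f : G0 →* G0 ⧸ X.subgroupOf G0 := QuotientGroup.mk' (X.subgroupOf G0) with hf
  have hfs : Function.Surjective f := QuotientGroup.mk'_surjective _
  have hker : f.ker = X.subgroupOf G0 := QuotientGroup.ker_mk' _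
  haveI hYn : ((X'.subgroupOf G0).map f).Normal := hXn'.map f hfs
  have hY : (X'.subgroupOf G0).map f ≠ ⊥ := by
    intro h
    rw [Subgroup.map_eq_bot_iff, hker] at h
    apply h2.not_ge
    intro x hx
    have := h (show (⟨x, h3 hx⟩ : G0) ∈ X'.subgroupOf G0 from hx)
    exact this
  obtain ⟨z, hzY, hzc, hzo⟩ := ChiefAux.exists_central hR ((X'.subgroupOf G0).map f) hY
  obtain ⟨y, hyX', hyz⟩ := hzY
  have hyX'' : (y : G) ∈ X' := hyX'
  have hcomap : ((Subgroup.zpowers z).comap f) = (X ⊔ Subgroup.zpowers (y : G)).subgroupOf G0 := by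
    have e1 : (Subgroup.zpowers z) = (Subgroup.zpowers y).map f := by
      rw [MonoidHom.map_zpowers, hyz]
    rw [e1, Subgroup.comap_map_eq, hker]
    have e2 : (X ⊔ Subgroup.zpowers (y : G)).subgroupOf G0 =
        X.subgroupOf G0 ⊔ (Subgroup.zpowers (y : G)).subgroupOf G0 :=
      Subgroup.subgroupOf_sup hXG (by rw [Subgroup.zpowers_le]; exact y.2)
    rw [e2]
    have e3 : (Subgroup.zpowers (y : G)).subgroupOf G0 = Subgroup.zpowers y := by
      have : Subgroup.zpowers (y : G) = (Subgroup.zpowers y).map G0.subtype := by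
        rw [MonoidHom.map_zpowers]; rfl
      rw [this]
      exact Subgroup.comap_map_eq_self_of_injective G0.subtype_injective _
    rw [e3, sup_comm]
  refine ⟨y, hyX'', ?_, ?_, ?_⟩
  · intro hyX
    have : f y = 1 := by
      rw [← MonoidHom.mem_ker, hker]
      exact hyX
    rw [hyz] at this
    rw [this, orderOf_one] at hzo
    exact hp.one_lt.ne hzo
  · haveI hzn : (Subgroup.zpowers z).Normal := by
      refine ⟨fun n hn g => ?_⟩
      have hnc : n ∈ Subgroup.center (G0 ⧸ X.subgroupOf G0) :=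
        (Subgroup.zpowers_le.2 hzc) hn
      have := Subgroup.mem_center_iff.1 hnc g
      rw [this, mul_assoc, mul_inv_cancel, mul_one]
      exact hn
    have hcn : ((Subgroup.zpowers z).comap f).Normal := hzn.comap f
    rw [hcomap] at hcn
    intro g hg x hx
    have hxG : x ∈ G0 := by
      have : X ⊔ Subgroup.zpowers (y : G) ≤ G0 :=
        sup_le hXG (by rw [Subgroup.zpowers_le]; exact y.2)
      exact this hx
    have := hcn.conj_mem (⟨x, hxG⟩ : G0) hx ⟨g, hg⟩
    exact this
  · have hle : X ⊔ Subgroup.zpowers (y : G) ≤ G0 :=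
      sup_le hXG (by rw [Subgroup.zpowers_le]; exact y.2)
    have e1 : X.relIndex (X ⊔ Subgroup.zpowers (y : G)) =
        (X.subgroupOf G0).relIndex ((X ⊔ Subgroup.zpowers (y : G)).subgroupOf G0) :=
      (Subgroup.relIndex_subgroupOf hle).symm
    have e4 : (X.subgroupOf G0).relIndex (Subgroup.comap f (Subgroup.zpowers z)) =
        ((⊥ : Subgroup (G0 ⧸ X.subgroupOf G0)).comap f).relIndex
          (Subgroup.comap f (Subgroup.zpowers z)) :=
      congrArg (fun K : Subgroup G0 => K.relIndex (Subgroup.comap f (Subgroup.zpowers z)))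
        (hker.symm.trans (MonoidHom.comap_bot f).symm)
    rw [e1, ← hcomap, e4, Subgroup.relIndex_comap,
      Subgroup.map_comap_eq_self_of_surjective hfs, Subgroup.relIndex_bot_left,
      Nat.card_zpowers, hzo]

theorem exists_max {p : ℕ} (hp : p.Prime) {G0 N F E : Subgroup G} (hN : NP p G0 N) (h1 : N ≤ F)
    (h2 : F < E) (h3 : E ≤ G0) (hF : Inv G0 F) (hE : Inv G0 E) :
    ∃ J : Subgroup G, F ≤ J ∧ J < E ∧ Inv G0 J ∧ J.relIndex E = p := by
  classical
  have hex : ∃ n : ℕ, ∃ J : Subgroup G, F ≤ J ∧ J < E ∧ Inv G0 J ∧ J.relIndex E = n :=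
    ⟨_, F, le_rfl, h2, hF, rfl⟩
  obtain ⟨J, hFJ, hJE, hJ, hJn⟩ := Nat.find_spec hex
  obtain ⟨y, hyE, hyJ, hinv, hidx⟩ := exists_step hp hN (h1.trans hFJ) hJE h3 hJ hE
  have hle : J ⊔ Subgroup.zpowers y ≤ E := sup_le hJE.le (by rw [Subgroup.zpowers_le]; exact hyE)
  by_cases he : J ⊔ Subgroup.zpowers y = E
  · refine ⟨J, hFJ, hJE, hJ, ?_⟩
    rw [he] at hidx
    exact hidx
  · exfalso
    have hlt : J ⊔ Subgroup.zpowers y < E := lt_of_le_of_ne hle he
    have hmul := Subgroup.relIndex_mul_relIndex J (J ⊔ Subgroup.zpowers y) E le_sup_left hle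
    obtain ⟨i, hi⟩ := hN.relIndex hp ((h1.trans hFJ).trans (le_sup_left :
      J ≤ J ⊔ Subgroup.zpowers y)) hle h3
    have hpos : 0 < (J ⊔ Subgroup.zpowers y).relIndex E := by
      rw [hi]; exact pow_pos hp.pos _
    have hmin := Nat.find_min' hex ⟨_, hFJ.trans le_sup_left, hlt, hinv, rfl⟩
    rw [← hJn, ← hmul, hidx] at hmin
    have : 2 * (J ⊔ Subgroup.zpowers y).relIndex E ≤ p * (J ⊔ Subgroup.zpowers y).relIndex E :=
      Nat.mul_le_mul_right _ hp.two_le
    omega

end P9700r
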