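import Mathlib

/-!
# p-groups of automorphisms of abelian groups of order at most `p ^ e`

`P` acts on the abelian group `M` of order `p ^ j`, `j ≤ e`, by automorphisms of `p`-power order. Then the `e`-th derived subgroup acts trivially and the `p ^ e`-th powers act trivially.

Proof. (second part) `φ g` is a permutation of the `p ^ j` elements of `M` of `p`-power order, its orbits have `p`-power length at most `p ^ j`, so `(φ g) ^ (p ^ e) = 1`
(e.g. for `x : M` let `n` be the minimal period of `x` under `φ g`: it divides `p ^ i` for some `i`, and `n ≤ |M| = p ^ j`, so `n ∣ p ^ j ∣ p ^ e`; `Function.minimalPeriod`, `Nat.dvd_prime_pow`, `Nat.pow_dvd_pow_iff_le_right`).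
(first part) Induction on `j` (for all `M`): `derivedSeries P j` acts trivially; then `derivedSeries` is antitone. `j = 0` trivial. Step: the `p`-group `φ.range` acts on `M`, the number of fixed points is divisible by `p` and positive
(`IsPGroup.card_modEq_card_fixedPoints`), so there is a fixed element `z ≠ 1`; a power of it has order `p`, still fixed. `M1 = Subgroup.zpowers z` consists of fixed elements, `|M ⧸ M1| = p ^ j`. `P` acts on `M ⧸ M1`, by induction
every `g ∈ derivedSeries P j` satisfies `φ g x = x * λ_g(x)`, `λ_g(x) ∈ M1` for all `x`. So `φ (g h) x = φ g (x λ_h(x)) = x λ_g(x) λ_h(x)` and `φ g`, `φ h` commute; `derivedSeries P (j + 1)` is generated by commutators.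
-/

set_option autoImplicit false

namespace P9700r

namespace DerActAux

/-- the automorphism induced on the quotient by a subgroup that is mapped onto itself -/
def quo {P M : Type*} [Group P] [CommGroup M] (φ : P →* MulAut M) (N : Subgroup M)
    (h : ∀ g : P, N.map (φ g).toMonoidHom = N) : P →* MulAut (M ⧸ N) where
  toFun g := QuotientGroup.congr N N (φ g) (h g)
  map_one' := by
    ext x
    obtain ⟨y, rfl⟩ := QuotientGroup.mk_surjective x
    change (QuotientGroup.mk (φ 1 y) : M ⧸ N) = QuotientGroup.mk y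
    rw [map_one]
    rfl
  map_mul' a b := by
    ext x
    obtain ⟨y, rfl⟩ := QuotientGroup.mk_surjective x
    change (QuotientGroup.mk (φ (a * b) y) : M ⧸ N) = QuotientGroup.mk (φ a (φ b y))
    rw [map_mul]
    rfl

theorem quo_mk {P M : Type*} [Group P] [CommGroup M] (φ : P →* MulAut M) (N : Subgroup M)
    (h : ∀ g : P, N.map (φ g).toMonoidHom = N) (g : P) (x : M) :
    quo φ N h g (QuotientGroup.mk x) = QuotientGroup.mk (φ g x) :=
  QuotientGroup.congr_mk N N (φ g) (h g) x

theorem fixed {P M : Type*} [Group P] [CommGroup M] {p : ℕ} (hp : p.Prime) (j : ℕ)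
    (hM : Nat.card M = p ^ (j + 1)) (φ : P →* MulAut M)
    (hφ : ∀ g : P, ∃ i : ℕ, (φ g) ^ (p ^ i) = 1) :
    ∃ z : M, orderOf z = p ∧ ∀ g : P, φ g z = z := by
  have : Fact p.Prime := ⟨hp⟩
  have : Finite M := Nat.finite_of_card_ne_zero (hM ▸ (pow_pos hp.pos _).ne')
  have hG : IsPGroup p φ.range := by
    rintro ⟨_, g, rfl⟩
    obtain ⟨i, hi⟩ := hφ g
    exact ⟨i, Subtype.ext hi⟩
  have h1 : (1 : M) ∈ MulAction.fixedPoints φ.range M := fun g => map_one g.1
  obtain ⟨z, hz, hz1⟩ := hG.exists_fixed_point_of_prime_dvd_card_of_fixed_point M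
    (hM ▸ dvd_pow_self p (Nat.succ_ne_zero j)) h1
  have hzf : ∀ g : P, φ g z = z := fun g => hz ⟨φ g, g, rfl⟩
  have hd : orderOf z ∣ p ^ (j + 1) := hM ▸ orderOf_dvd_natCard z
  obtain ⟨a, -, ha⟩ := (Nat.dvd_prime_pow hp).1 hd
  have ha0 : a ≠ 0 := by
    rintro rfl
    rw [pow_zero, orderOf_eq_one_iff] at ha
    exact hz1 ha.symm
  refine ⟨z ^ (orderOf z / p), ?_, fun g => by rw [map_pow, hzf g]⟩
  exact orderOf_pow_orderOf_div (by rw [ha]; exact (pow_pos hp.pos _).ne')
    (ha ▸ dvd_pow_self p ha0)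

theorem der {P : Type*} [Group P] {p : ℕ} (hp : p.Prime) (j : ℕ) :
    ∀ (M : Type*) [CommGroup M], Nat.card M = p ^ j → ∀ φ : P →* MulAut M,
      (∀ g : P, ∃ i : ℕ, (φ g) ^ (p ^ i) = 1) → ∀ g ∈ derivedSeries P j, φ g = 1 := by
  induction j with
  | zero =>
    intro M _ hM φ _ g _
    rw [pow_zero] at hM
    have : Subsingleton M := (Nat.card_eq_one_iff_unique.1 hM).1
    ext x
    exact Subsingleton.elim _ _
  | succ j ih =>
    intro M _ hM φ hφ
    obtain ⟨z, hz, hzf⟩ := fixed hp j hM φ hφ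
    have hN : ∀ g : P, (Subgroup.zpowers z).map (φ g).toMonoidHom = Subgroup.zpowers z := by
      intro g
      rw [MonoidHom.map_zpowers]
      congr 1
      exact hzf g
    have hfix : ∀ g : P, ∀ x ∈ Subgroup.zpowers z, φ g x = x := by
      intro g x hx
      obtain ⟨k, rfl⟩ := Subgroup.mem_zpowers_iff.1 hx
      rw [map_zpow, hzf g]
    have hcard : Nat.card (M ⧸ Subgroup.zpowers z) = p ^ j := by
      have h1 := Subgroup.card_eq_card_quotient_mul_card_subgroup (Subgroup.zpowers z)
      rw [Nat.card_zpowers, hz, hM, pow_succ] at h1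
      exact (Nat.eq_of_mul_eq_mul_right hp.pos h1).symm
    have h2 := ih (M ⧸ Subgroup.zpowers z) hcard (quo φ _ hN) (fun g => by
      obtain ⟨i, hi⟩ := hφ g
      refine ⟨i, ?_⟩
      rw [← map_pow]
      ext x
      obtain ⟨y, rfl⟩ := QuotientGroup.mk_surjective x
      rw [quo_mk, map_pow, hi]
      rfl)
    have h3 : ∀ g ∈ derivedSeries P j, ∀ x : M, x⁻¹ * φ g x ∈ Subgroup.zpowers z := by
      intro g hg x
      have h4 := quo_mk φ _ hN g x
      rw [h2 g hg, MulAut.one_apply] at h4
      exact QuotientGroup.eq.1 h4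
    have h5 : derivedSeries P (j + 1) ≤ φ.ker := by
      rw [derivedSeries_succ, Subgroup.commutator_le]
      intro a ha b hb
      rw [MonoidHom.mem_ker, map_commutatorElement, commutatorElement_eq_one_iff_mul_comm]
      ext x
      rw [MulAut.mul_apply, MulAut.mul_apply]
      have e1 : φ b x = x * (x⁻¹ * φ b x) := by group
      have e2 : φ a x = x * (x⁻¹ * φ a x) := by group
      have e3 : φ a (φ b x) = φ a x * (x⁻¹ * φ b x) := by
        conv_lhs => rw [e1, map_mul, hfix a _ (h3 b hb x)]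
      have e4 : φ b (φ a x) = φ b x * (x⁻¹ * φ a x) := by
        conv_lhs => rw [e2, map_mul, hfix b _ (h3 a ha x)]
      rw [e3, e4, mul_left_comm, mul_left_comm (φ b x), mul_comm (φ a x)]
    intro g hg
    exact MonoidHom.mem_ker.1 (h5 hg)

theorem expo {M : Type*} {p : ℕ} (hp : p.Prime) (e j : ℕ) (hM : Nat.card M = p ^ j) (hj : j ≤ e)
    (f : M → M) (i : ℕ) (hf : ∀ x, f^[p ^ i] x = x) (x : M) : f^[p ^ e] x = x := by
  have : Finite M := Nat.finite_of_card_ne_zero (hM ▸ (pow_pos hp.pos _).ne')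
  have h1 : Function.minimalPeriod f x ∣ p ^ i :=
    Function.IsPeriodicPt.minimalPeriod_dvd (hf x)
  obtain ⟨a, -, ha⟩ := (Nat.dvd_prime_pow hp).1 h1
  have h2 : Function.minimalPeriod f x ≤ Nat.card M := by
    have h3 : Function.Injective (fun n : Fin (Function.minimalPeriod f x) => f^[n] x) := by
      intro m n hmn
      exact Fin.ext (Function.iterate_injOn_Iio_minimalPeriod m.2 n.2 hmn)
    have h4 := Nat.card_le_card_of_injective _ h3
    rwa [Nat.card_eq_fintype_card, Fintype.card_fin] at h4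
  rw [hM, ha] at h2
  have h5 : a ≤ j := (Nat.pow_le_pow_iff_right hp.one_lt).1 h2
  have h6 : Function.minimalPeriod f x ∣ p ^ e := ha ▸ pow_dvd_pow p (h5.trans hj)
  exact Function.isPeriodicPt_iff_minimalPeriod_dvd.2 h6

end DerActAux

open DerActAux in
theorem der_act {P M : Type*} [Group P] [CommGroup M] {p : ℕ} (hp : p.Prime) (e j : ℕ)
    (hM : Nat.card M = p ^ j) (hj : j ≤ e) (φ : P →* MulAut M)
    (hφ : ∀ g : P, ∃ i : ℕ, (φ g) ^ (p ^ i) = 1) :
    (∀ g ∈ derivedSeries P e, φ g = 1) ∧ ∀ g : P, (φ g) ^ (p ^ e) = 1 := by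
  have hit : ∀ (g : P) (n : ℕ) (x : M), ((φ g) ^ n) x = (φ g)^[n] x := by
    intro g n
    induction n with
    | zero => intro x; rfl
    | succ n ih => intro x; rw [pow_succ, MulAut.mul_apply, ih, Function.iterate_succ_apply]
  refine ⟨fun g hg => der hp j M hM φ hφ g (derivedSeries_antitone (G := P) hj hg), fun g => ?_⟩
  obtain ⟨i, hi⟩ := hφ g
  ext x
  rw [hit, MulAut.one_apply]
  refine expo hp e j hM hj (φ g) i (fun y => ?_) x
  rw [← hit, hi]
  rfl

end P9700r
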