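import Mathlib
import Pool.Agent.Lib.P9700r.Defs
import Pool.Agent.Lib.P9700r.Expo
import Pool.Agent.Lib.P9700r.DerAct

/-!
# First properties of the subgroups `Wn`

* `Wn_le`, `le_Wn` (for `n ∈ N ≤ Y`: `x n x⁻¹ n⁻¹ ∈ N` because `N` is normal in `G`), `Wn_anti` (more sections for smaller `N`).
* `Wn_normal`: conjugation by `g : G` maps sections of `Sec c G0 N` to such sections (`X ↦ X.map (MulAut.conj g).toMonoidHom`, `G0`, `N` normal); or directly: for `w ∈ Wn`, `g : G` and a section `(X, Y)` use the section `(g⁻¹ X g, g⁻¹ Y g)`.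
  `relIndex` is preserved by the injective map.
* `pow_mem_Wn`, `der_le_Wn`: for a section `(X, Y)` the group `M = X ⧸ Y.subgroupOf X` is commutative of order `Y.relIndex X = p ^ j` (`NP.relIndex`), `j ≤ e`; `G0` acts on it by conjugation (`Inv`); the automorphisms have `p`-power order
  because `g ^ (p ^ i) ∈ N ≤ Y` for some `i` and elements of `Y` act trivially on `X / Y` (`x y x⁻¹ y⁻¹ ∈ Y`). Apply `der_act`. `φ g = 1` means `g x g⁻¹ x⁻¹ ∈ Y`-type membership, i.e. `x g x⁻¹ g⁻¹ ∈ Y` for all `x ∈ X`.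
-/

set_option autoImplicit false

namespace P9700r

variable {G : Type*} [Group G]

namespace WnAAux

/-- conjugation by `g` on the invariant subgroup `X` -/
def cj {G0 X : Subgroup G} (hX : Inv G0 X) (g : G0) : X →* X where
  toFun x := ⟨g.1 * x.1 * (g.1)⁻¹, hX g.1 g.2 x.1 x.2⟩
  map_one' := by
    apply Subtype.ext
    change g.1 * 1 * (g.1)⁻¹ = 1
    group
  map_mul' x y := by
    apply Subtype.ext
    change g.1 * (x.1 * y.1) * (g.1)⁻¹ = (g.1 * x.1 * (g.1)⁻¹) * (g.1 * y.1 * (g.1)⁻¹)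
    group

theorem sub_normal {G0 X Y : Subgroup G} (hXG : X ≤ G0) (hY : Inv G0 Y) :
    (Y.subgroupOf X).Normal := by
  refine ⟨fun n hn g => ?_⟩
  rw [Subgroup.mem_subgroupOf] at hn ⊢
  exact hY g.1 (hXG g.2) n.1 hn

/-- the endomorphism of the section induced by conjugation -/
def en {G0 X Y : Subgroup G} [(Y.subgroupOf X).Normal] (hX : Inv G0 X) (hY : Inv G0 Y) (g : G0) :
    X ⧸ Y.subgroupOf X →* X ⧸ Y.subgroupOf X :=
  QuotientGroup.map (Y.subgroupOf X) (Y.subgroupOf X) (cj hX g) (by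
    intro x hx
    rw [Subgroup.mem_subgroupOf] at hx
    rw [Subgroup.mem_comap, Subgroup.mem_subgroupOf]
    exact hY g.1 g.2 x.1 hx)

theorem en_mk {G0 X Y : Subgroup G} [(Y.subgroupOf X).Normal] (hX : Inv G0 X) (hY : Inv G0 Y)
    (g : G0) (x : X) : en hX hY g (QuotientGroup.mk x) = QuotientGroup.mk (cj hX g x) := rfl

theorem en_mul {G0 X Y : Subgroup G} [(Y.subgroupOf X).Normal] (hX : Inv G0 X) (hY : Inv G0 Y)
    (g h : G0) (x : X ⧸ Y.subgroupOf X) : en hX hY (g * h) x = en hX hY g (en hX hY h x) := by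
  obtain ⟨y, rfl⟩ := QuotientGroup.mk_surjective x
  rw [en_mk, en_mk, en_mk]
  congr 1
  apply Subtype.ext
  change (g.1 * h.1) * y.1 * (g.1 * h.1)⁻¹ = g.1 * (h.1 * y.1 * (h.1)⁻¹) * (g.1)⁻¹
  group

theorem en_one {G0 X Y : Subgroup G} [(Y.subgroupOf X).Normal] (hX : Inv G0 X) (hY : Inv G0 Y)
    (x : X ⧸ Y.subgroupOf X) : en hX hY 1 x = x := by
  obtain ⟨y, rfl⟩ := QuotientGroup.mk_surjective x
  rw [en_mk]
  congr 1
  apply Subtype.ext
  change 1 * y.1 * (1 : G)⁻¹ = y.1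
  group

/-- the action of `G0` on the section -/
def ac {G0 X Y : Subgroup G} [(Y.subgroupOf X).Normal] (hX : Inv G0 X) (hY : Inv G0 Y) :
    G0 →* MulAut (X ⧸ Y.subgroupOf X) where
  toFun g :=
    { toFun := en hX hY g
      invFun := en hX hY g⁻¹
      left_inv := by
        intro x
        rw [← en_mul, inv_mul_cancel, en_one]
      right_inv := by
        intro x
        rw [← en_mul, mul_inv_cancel, en_one]
      map_mul' := map_mul (en hX hY g) }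
  map_one' := by
    ext x
    exact en_one hX hY x
  map_mul' g h := by
    ext x
    exact en_mul hX hY g h x

theorem ac_mk {G0 X Y : Subgroup G} [(Y.subgroupOf X).Normal] (hX : Inv G0 X) (hY : Inv G0 Y)
    (g : G0) (x : X) : ac hX hY g (QuotientGroup.mk x) = QuotientGroup.mk (cj hX g x) := rfl

theorem ac_eq_one {G0 X Y : Subgroup G} [(Y.subgroupOf X).Normal] (hX : Inv G0 X) (hY : Inv G0 Y)
    (g : G0) : ac hX hY g = 1 ↔ ∀ x ∈ X, x * g.1 * x⁻¹ * (g.1)⁻¹ ∈ Y := by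
  have key : ∀ x : X, (ac hX hY g (QuotientGroup.mk x) = QuotientGroup.mk x ↔
      x.1 * g.1 * (x.1)⁻¹ * (g.1)⁻¹ ∈ Y) := by
    intro x
    rw [ac_mk, eq_comm, ← mul_inv_eq_one, ← QuotientGroup.mk_inv, ← QuotientGroup.mk_mul,
      QuotientGroup.eq_one_iff, Subgroup.mem_subgroupOf]
    have e : ((x * (cj hX g x)⁻¹ : X) : G) = x.1 * g.1 * (x.1)⁻¹ * (g.1)⁻¹ := by
      change x.1 * (g.1 * x.1 * (g.1)⁻¹)⁻¹ = x.1 * g.1 * (x.1)⁻¹ * (g.1)⁻¹
      group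
    rw [e]
  constructor
  · intro h x hx
    have := (key ⟨x, hx⟩).1 (by rw [h]; rfl)
    exact this
  · intro h
    ext x
    obtain ⟨y, rfl⟩ := QuotientGroup.mk_surjective x
    exact (key y).2 (h y.1 y.2)

theorem main {p : ℕ} (hp : p.Prime) (e : ℕ) {G0 N X Y : Subgroup G} (hN : NP p G0 N)
    (hS : Sec (p ^ e) G0 N X Y) :
    (∀ g ∈ derivedSeries G0 e, ∀ x ∈ X, x * g.1 * x⁻¹ * (g.1)⁻¹ ∈ Y) ∧
      ∀ g : G0, ∀ x ∈ X, x * g.1 ^ (p ^ e) * x⁻¹ * (g.1 ^ (p ^ e))⁻¹ ∈ Y := by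
  obtain ⟨hNY, hYX, hXG, hX, hY, hab, hcard⟩ := hS
  have hn : (Y.subgroupOf X).Normal := sub_normal hXG hY
  obtain ⟨j, hj⟩ := hN.relIndex hp hNY hYX hXG
  have hje : j ≤ e := by
    rw [hj] at hcard
    exact (Nat.pow_le_pow_iff_right hp.one_lt).1 hcard
  letI : CommGroup (X ⧸ Y.subgroupOf X) :=
    { (inferInstance : Group (X ⧸ Y.subgroupOf X)) with
      mul_comm := by
        intro a b
        obtain ⟨x, rfl⟩ := QuotientGroup.mk_surjective a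
        obtain ⟨y, rfl⟩ := QuotientGroup.mk_surjective b
        rw [← QuotientGroup.mk_mul, ← QuotientGroup.mk_mul, ← mul_inv_eq_one,
          ← QuotientGroup.mk_inv, ← QuotientGroup.mk_mul, QuotientGroup.eq_one_iff,
          Subgroup.mem_subgroupOf]
        have e1 : ((x * y * (y * x)⁻¹ : X) : G) = x.1 * y.1 * (x.1)⁻¹ * (y.1)⁻¹ := by
          change x.1 * y.1 * (y.1 * x.1)⁻¹ = x.1 * y.1 * (x.1)⁻¹ * (y.1)⁻¹
          group
        rw [e1]
        exact hab x.1 x.2 y.1 y.2 }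
  have hM : Nat.card (X ⧸ Y.subgroupOf X) = p ^ j := hj
  have hφ : ∀ g : G0, ∃ i : ℕ, (ac hX hY g) ^ (p ^ i) = 1 := by
    intro g
    obtain ⟨i, hi⟩ := hN.pow_mem g.2
    refine ⟨i, ?_⟩
    rw [← map_pow, ac_eq_one]
    intro x hx
    have h1 : ((g ^ (p ^ i) : G0) : G) = g.1 ^ (p ^ i) := rfl
    rw [h1]
    exact Y.mul_mem (hY x (hXG hx) _ (hNY hi)) (Y.inv_mem (hNY hi))
  have h := der_act hp e j hM hje (ac hX hY) hφ
  refine ⟨fun g hg => (ac_eq_one hX hY g).1 (h.1 g hg), fun g => ?_⟩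
  have h2 := h.2 g
  rw [← map_pow, ac_eq_one] at h2
  exact h2

end WnAAux

theorem Wn_le (c : ℕ) (G0 N : Subgroup G) : Wn c G0 N ≤ G0 := fun _ h => h.1

theorem le_Wn {c : ℕ} {G0 N : Subgroup G} (hN : N.Normal) (h : N ≤ G0) : N ≤ Wn c G0 N := by
  intro n hn
  refine ⟨h hn, fun X Y hS x _ => ?_⟩
  exact hS.1 (N.mul_mem (hN.conj_mem n hn x) (N.inv_mem hn))

theorem Wn_anti {c : ℕ} {G0 N N' : Subgroup G} (h : N' ≤ N) : Wn c G0 N' ≤ Wn c G0 N := by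
  rintro g ⟨hg, hg'⟩
  exact ⟨hg, fun X Y hS => hg' X Y ⟨h.trans hS.1, hS.2⟩⟩

theorem Wn_normal {c : ℕ} {G0 N : Subgroup G} (hG0 : G0.Normal) (hN : N.Normal) :
    (Wn c G0 N).Normal := by
  refine ⟨fun w hw g => ⟨hG0.conj_mem w hw.1 g, fun X Y hS x hx => ?_⟩⟩
  obtain ⟨hNY, hYX, hXG, hX, hY, hab, hcard⟩ := hS
  have mm : ∀ (Z : Subgroup G) (z : G), z ∈ Z.map (MulAut.conj g⁻¹).toMonoidHom ↔
      g * z * g⁻¹ ∈ Z := by
    intro Z z
    constructor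
    · rintro ⟨y, hy, rfl⟩
      change g * (g⁻¹ * y * g⁻¹⁻¹) * g⁻¹ ∈ Z
      have e : g * (g⁻¹ * y * g⁻¹⁻¹) * g⁻¹ = y := by group
      rw [e]
      exact hy
    · intro h
      refine ⟨g * z * g⁻¹, h, ?_⟩
      change g⁻¹ * (g * z * g⁻¹) * g⁻¹⁻¹ = z
      group
  have hinv : ∀ Z : Subgroup G, Inv G0 Z → Inv G0 (Z.map (MulAut.conj g⁻¹).toMonoidHom) := by
    intro Z hZ k hk z hz
    rw [mm] at hz ⊢
    have e : g * (k * z * k⁻¹) * g⁻¹ = (g * k * g⁻¹) * (g * z * g⁻¹) * (g * k * g⁻¹)⁻¹ := by group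
    rw [e]
    exact hZ _ (hG0.conj_mem k hk g) _ hz
  have hS' : Sec c G0 N (X.map (MulAut.conj g⁻¹).toMonoidHom)
      (Y.map (MulAut.conj g⁻¹).toMonoidHom) := by
    refine ⟨?_, Subgroup.map_mono hYX, ?_, hinv X hX, hinv Y hY, ?_, ?_⟩
    · intro n hn
      rw [mm]
      exact hNY (hN.conj_mem n hn g)
    · intro z hz
      rw [mm] at hz
      have h1 := hG0.conj_mem _ (hXG hz) g⁻¹
      have e : g⁻¹ * (g * z * g⁻¹) * g⁻¹⁻¹ = z := by group
      rwa [e] at h1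
    · intro a ha b hb
      rw [mm] at ha hb ⊢
      have e : g * (a * b * a⁻¹ * b⁻¹) * g⁻¹ =
          (g * a * g⁻¹) * (g * b * g⁻¹) * (g * a * g⁻¹)⁻¹ * (g * b * g⁻¹)⁻¹ := by group
      rw [e]
      exact hab _ ha _ hb
    · rw [Subgroup.relIndex_map_map_of_injective _ _ (MulAut.conj g⁻¹).injective]
      exact hcard
  have h1 := hw.2 _ _ hS' (g⁻¹ * x * g) (by
    rw [mm]
    have e : g * (g⁻¹ * x * g) * g⁻¹ = x := by group
    rw [e]
    exact hx)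
  rw [mm] at h1
  have e : g * (g⁻¹ * x * g * w * (g⁻¹ * x * g)⁻¹ * w⁻¹) * g⁻¹ =
      x * (g * w * g⁻¹) * x⁻¹ * (g * w * g⁻¹)⁻¹ := by group
  rw [e] at h1
  exact h1

theorem pow_mem_Wn {p : ℕ} (hp : p.Prime) (e : ℕ) {G0 N : Subgroup G} (hN : NP p G0 N) {g : G}
    (hg : g ∈ G0) : g ^ (p ^ e) ∈ Wn (p ^ e) G0 N :=
  ⟨G0.pow_mem hg _, fun _ _ hS => (WnAAux.main hp e hN hS).2 ⟨g, hg⟩⟩

theorem der_le_Wn {p : ℕ} (hp : p.Prime) (e : ℕ) {G0 N : Subgroup G} (hN : NP p G0 N) :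
    (derivedSeries G0 e).map G0.subtype ≤ Wn (p ^ e) G0 N := by
  rintro _ ⟨g, hg, rfl⟩
  exact ⟨g.2, fun _ _ hS => (WnAAux.main hp e hN hS).1 g hg⟩

end P9700r
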