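import Mathlib
import Pool.Agent.Lib.P9700r.Defs
import Pool.Agent.Lib.P9700r.Expo
import Pool.Agent.Lib.P9700r.WnA
import Pool.Agent.Lib.P9700r.Chief

/-!
# The key lemma: `[M, Wn] ≤ M ^ (p ^ 2) N`

`c` a bound for elementary abelian sections (`EB`), `Wn := Wn (p ^ (2 c + 1)) G0 N`, `M` normal in `G`, `M ≤ Wn`. Then all commutators of `M` and `Wn` lie in `PW (p ^ 2) M ⊔ N`.

Proof. `F = PW (p ^ 2) M ⊔ N`, `E = F ⊔ C`, `C` = the subgroup generated by the commutators `x w x⁻¹ w⁻¹`, `x ∈ M`, `w ∈ Wn` (`⁅M, Wn⁆`, normal in `G`, `≤ M`). `F`, `E` are normal in `G`, `N ≤ F ≤ E ≤ M ⊔ N ≤ G0`. `(M ⊔ N) / E` is abelian (`M ≤ Wn`) and of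
exponent dividing `p ^ 2`, so `E.relIndex (M ⊔ N) ≤ p ^ (2 c)` (`EB.expo`, `j = 2`). Suppose `E ≠ F`. `exists_max`: `F ≤ J < E`, `J` invariant of index `p` in `E`. Consider the invariant subgroups `X` with `E ≤ X ≤ M ⊔ N` and `x y x⁻¹ y⁻¹ ∈ J` for all
`x, y ∈ X`. `E` itself is one: `E / J` has order `p`, so it is cyclic and commutative (`J` normal in `E`; every `z ∈ E ∖ J` satisfies `E = J ⟨z⟩`; or use `isCyclic_of_prime_card`). Choose `X` with `E.relIndex X` maximal (bounded by `E.relIndex (M ⊔ N) ≠ 0`). Then `(X, J)` is a section: `N ≤ J ≤ X ≤ G0`,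
`J.relIndex X = J.relIndex E * E.relIndex X ≤ p * p ^ (2 c) = p ^ (2 c + 1)`. So `x w x⁻¹ w⁻¹ ∈ J` for `x ∈ X`, `w ∈ Wn`. If `X = M ⊔ N` then `C ≤ J`, `E ≤ J`, contradiction. Otherwise `exists_step` for `X < M ⊔ N`: `y ∈ M ⊔ N ≤ Wn`; `X ⊔ zpowers y` is invariant and commutative modulo
`J` (`x y x⁻¹ y⁻¹ ∈ J` for `x ∈ X`; work with `(X ⊔ zpowers y)`: elements `x y ^ i`; `J` is normalised by `G0`), and strictly larger relative index of `E`: contradiction.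
Hint for commutativity modulo `J`: for fixed `z ∈ G0` the set `{g ∈ G0 : g z g⁻¹ z⁻¹ ∈ J}` is a subgroup.
-/

set_option autoImplicit false

namespace P9700r

namespace KeyAux

variable {G : Type*} [Group G]

/-- normal subgroups are invariant. -/
theorem inv_of_normal {G0 X : Subgroup G} (h : X.Normal) : Inv G0 X :=
  fun g _ x hx => h.conj_mem x hx g

/-- the elements of `G0` commuting with `z` modulo the invariant subgroup `J`. -/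
def Cz (G0 J : Subgroup G) (hJ : Inv G0 J) (z : G) : Subgroup G where
  carrier := {g | g ∈ G0 ∧ g * z * g⁻¹ * z⁻¹ ∈ J}
  one_mem' := by
    refine ⟨G0.one_mem, ?_⟩
    have e : (1 : G) * z * 1⁻¹ * z⁻¹ = 1 := by group
    rw [e]; exact J.one_mem
  mul_mem' := by
    rintro a b ⟨ha, ha'⟩ ⟨hb, hb'⟩
    refine ⟨G0.mul_mem ha hb, ?_⟩
    have e : a * b * z * (a * b)⁻¹ * z⁻¹ =
        (a * (b * z * b⁻¹ * z⁻¹) * a⁻¹) * (a * z * a⁻¹ * z⁻¹) := by group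
    rw [e]
    exact J.mul_mem (hJ a ha _ hb') ha'
  inv_mem' := by
    rintro a ⟨ha, ha'⟩
    refine ⟨G0.inv_mem ha, ?_⟩
    have e : a⁻¹ * z * a⁻¹⁻¹ * z⁻¹ = a⁻¹ * (a * z * a⁻¹ * z⁻¹)⁻¹ * a⁻¹⁻¹ := by group
    rw [e]
    exact hJ a⁻¹ (G0.inv_mem ha) _ (J.inv_mem ha')

theorem mem_Cz {G0 J : Subgroup G} {hJ : Inv G0 J} {z g : G} :
    g ∈ Cz G0 J hJ z ↔ g ∈ G0 ∧ g * z * g⁻¹ * z⁻¹ ∈ J := Iff.rfl

theorem swap_mem {J : Subgroup G} {a b : G} (h : a * b * a⁻¹ * b⁻¹ ∈ J) :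
    b * a * b⁻¹ * a⁻¹ ∈ J := by
  have e : b * a * b⁻¹ * a⁻¹ = (a * b * a⁻¹ * b⁻¹)⁻¹ := by group
  rw [e]; exact J.inv_mem h

theorem PW_normal {n : ℕ} {M : Subgroup G} (hM : M.Normal) : (PW n M).Normal := by
  refine ⟨fun x hx g => ?_⟩
  have h : PW n M ≤ (PW n M).comap (MulAut.conj g).toMonoidHom := by
    refine (Subgroup.closure_le _).2 ?_
    rintro y ⟨x, hx, rfl⟩
    simp only [MulEquiv.toMonoidHom_eq_coe, Subgroup.coe_comap, MonoidHom.coe_coe,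
      Set.mem_preimage, MulAut.conj_apply, SetLike.mem_coe]
    refine Subgroup.subset_closure ⟨g * x * g⁻¹, hM.conj_mem x hx g, ?_⟩
    rw [conj_pow]
  exact h hx

theorem PW_le {n : ℕ} {M : Subgroup G} : PW n M ≤ M := by
  refine (Subgroup.closure_le _).2 ?_
  rintro y ⟨x, hx, rfl⟩
  exact M.pow_mem hx n

/-- sections of order `p` are commutative. -/
theorem comm_of_prime {p : ℕ} (hp : p.Prime) {G0 J E : Subgroup G} (hJ : Inv G0 J) (hE : E ≤ G0)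
    (h : J.relIndex E = p) : ∀ x ∈ E, ∀ y ∈ E, x * y * x⁻¹ * y⁻¹ ∈ J := by
  have hn : (J.subgroupOf E).Normal := by
    refine ⟨fun x hx g => ?_⟩
    rw [Subgroup.mem_subgroupOf] at hx ⊢
    exact hJ g (hE g.2) _ hx
  have := Fact.mk hp
  have hc : IsCyclic (E ⧸ J.subgroupOf E) := isCyclic_of_prime_card (p := p) (by
    rw [← h]; rfl)
  intro x hx y hy
  have h1 : ((⟨x, hx⟩ : E) : E ⧸ J.subgroupOf E) * ((⟨y, hy⟩ : E) : E ⧸ J.subgroupOf E) =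
      ((⟨y, hy⟩ : E) : E ⧸ J.subgroupOf E) * ((⟨x, hx⟩ : E) : E ⧸ J.subgroupOf E) := by
    let := IsCyclic.commGroup (α := E ⧸ J.subgroupOf E)
    exact mul_comm _ _
  have h2 : ((⟨x, hx⟩ * ⟨y, hy⟩ * ⟨x, hx⟩⁻¹ * ⟨y, hy⟩⁻¹ : E) : E ⧸ J.subgroupOf E) = 1 := by
    rw [QuotientGroup.mk_mul, QuotientGroup.mk_mul, QuotientGroup.mk_mul, h1]
    simp [mul_assoc]
  rw [QuotientGroup.eq_one_iff, Subgroup.mem_subgroupOf] at h2
  exact h2

/-- an invariant set of subgroups of bounded relative index has a maximal element. -/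
theorem exists_maximal {P : Subgroup G → Prop} {E : Subgroup G} (h0 : P E) (B : ℕ)
    (hB : ∀ X, P X → E.relIndex X ≤ B) :
    ∃ X, P X ∧ ∀ X', P X' → E.relIndex X' ≤ E.relIndex X := by
  have hne : {n | ∃ X, P X ∧ E.relIndex X = n}.Nonempty := ⟨_, E, h0, rfl⟩
  have hbd : BddAbove {n | ∃ X, P X ∧ E.relIndex X = n} := by
    refine ⟨B, ?_⟩
    rintro n ⟨X, hX, rfl⟩
    exact hB X hX
  obtain ⟨X, hX, hX'⟩ := Nat.sSup_mem hne hbd
  refine ⟨X, hX, fun X' h' => ?_⟩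
  rw [hX']
  exact le_csSup hbd ⟨X', h', rfl⟩

/-- the power map modulo `E` on `M ⊔ N`. -/
theorem pow_mem_sup {n : ℕ} {M N E : Subgroup G} (hE : E.Normal) (hN : N.Normal) (hNE : N ≤ E)
    (h : ∀ x ∈ M, x ^ n ∈ E) : ∀ x ∈ M ⊔ N, x ^ n ∈ E := by
  intro x hx
  obtain ⟨a, ha, b, hb, rfl⟩ := Subgroup.mem_sup_of_normal_right.1 hx
  rw [← QuotientGroup.eq_one_iff, QuotientGroup.mk_pow, QuotientGroup.mk_mul,
    (QuotientGroup.eq_one_iff b).2 (hNE hb), mul_one, ← QuotientGroup.mk_pow,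
    QuotientGroup.eq_one_iff]
  exact h a ha

end KeyAux

open KeyAux

theorem key {G : Type*} [Group G] {p : ℕ} (hp : p.Prime) {G0 : Subgroup G} (hG0 : G0.Normal)
    {c : ℕ} (hc : EB p G0 c) {N M : Subgroup G} (hN : NP p G0 N) (hM : M.Normal)
    (hMW : M ≤ Wn (p ^ (2 * c + 1)) G0 N) :
    ∀ x ∈ M, ∀ w ∈ Wn (p ^ (2 * c + 1)) G0 N, x * w * x⁻¹ * w⁻¹ ∈ PW (p ^ 2) M ⊔ N := by
  have hNn : N.Normal := hN.1
  have hNG : N ≤ G0 := hN.2.1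
  have hWn : (Wn (p ^ (2 * c + 1)) G0 N).Normal := Wn_normal hG0 hNn
  set W := Wn (p ^ (2 * c + 1)) G0 N with hW
  have hWG : W ≤ G0 := Wn_le _ _ _
  have hNW : N ≤ W := le_Wn hNn hNG
  have hPn : (PW (p ^ 2) M).Normal := PW_normal hM
  have hFn : (PW (p ^ 2) M ⊔ N).Normal := Subgroup.sup_normal _ _
  set F := PW (p ^ 2) M ⊔ N with hF
  have hCn : (⁅M, W⁆).Normal := Subgroup.commutator_normal _ _
  have hCM : ⁅M, W⁆ ≤ M := Subgroup.commutator_le_left _ _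
  have hEn : (F ⊔ ⁅M, W⁆).Normal := Subgroup.sup_normal _ _
  have hFE' : F ≤ F ⊔ ⁅M, W⁆ := le_sup_left
  have hCE : ⁅M, W⁆ ≤ F ⊔ ⁅M, W⁆ := le_sup_right
  have hE_le : ∀ {T : Subgroup G}, F ≤ T → ⁅M, W⁆ ≤ T → F ⊔ ⁅M, W⁆ ≤ T := fun h h' => sup_le h h'
  set E := F ⊔ ⁅M, W⁆ with hE
  have hNF : N ≤ F := le_sup_right
  have hPF : PW (p ^ 2) M ≤ F := le_sup_left
  have hMNn : (M ⊔ N).Normal := Subgroup.sup_normal _ _
  have hFMN : F ≤ M ⊔ N := sup_le (PW_le.trans le_sup_left) le_sup_right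
  have hEMN : E ≤ M ⊔ N := hE_le hFMN (hCM.trans le_sup_left)
  have hMNW : M ⊔ N ≤ W := sup_le hMW hNW
  have hMNG : M ⊔ N ≤ G0 := hMNW.trans hWG
  have hEG : E ≤ G0 := hEMN.trans hMNG
  have hEi : Inv G0 E := inv_of_normal hEn
  -- commutators of `M` and `W` lie in `⁅M, W⁆`
  have hcomm : ∀ x ∈ M, ∀ w ∈ W, x * w * x⁻¹ * w⁻¹ ∈ ⁅M, W⁆ := fun x hx w hw =>
    Subgroup.commutator_mem_commutator hx hw
  -- `(M ⊔ N) / E` is abelian
  have hab : ∀ x ∈ M ⊔ N, ∀ y ∈ M ⊔ N, x * y * x⁻¹ * y⁻¹ ∈ E := by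
    intro x hx y hy
    have h1 : M ⊔ N ≤ Cz G0 E hEi y := by
      refine sup_le (fun a ha => ⟨hWG (hMW ha), hCE (hcomm a ha y (hMNW hy))⟩) (fun a ha =>
        ⟨hNG ha, hFE' (hNF ?_)⟩)
      have e : a * y * a⁻¹ * y⁻¹ = a * (y * a⁻¹ * y⁻¹) := by group
      rw [e]
      exact N.mul_mem ha (hNn.conj_mem _ (N.inv_mem ha) y)
    exact (h1 hx).2
  have hexp : ∀ x ∈ M ⊔ N, x ^ (p ^ 2) ∈ E :=
    pow_mem_sup hEn hNn (hNF.trans hFE') (fun x hx =>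
      hFE' (hPF (Subgroup.subset_closure ⟨x, hx, rfl⟩)))
  have hidx : E.relIndex (M ⊔ N) ≤ p ^ (c * 2) :=
    EB.expo hp hc 2 N (M ⊔ N) E hN hMNn hEn (hNF.trans hFE') hEMN hMNG hab hexp
  have hne0 : E.relIndex (M ⊔ N) ≠ 0 := by
    obtain ⟨j, hj⟩ := NP.relIndex hp hN (hNF.trans hFE') hEMN hMNG
    rw [hj]
    exact pow_ne_zero _ hp.ne_zero
  -- it is enough to show `E = F`
  suffices hEF : E ≤ F from fun x hx w hw => hEF (hCE (hcomm x hx w hw))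
  by_contra hEF
  have hlt : F < E := lt_of_le_not_ge hFE' hEF
  obtain ⟨J, hFJ, hJE, hJi, hJp⟩ := exists_max hp hN hNF hlt hEG (inv_of_normal hFn) hEi
  obtain ⟨X, ⟨hEX, hXMN, hXi, hXc⟩, hmax⟩ := exists_maximal
    (P := fun X => E ≤ X ∧ X ≤ M ⊔ N ∧ Inv G0 X ∧ ∀ x ∈ X, ∀ y ∈ X, x * y * x⁻¹ * y⁻¹ ∈ J)
    (E := E) ⟨le_rfl, hEMN, hEi, comm_of_prime hp hJi hEG hJp⟩ (E.relIndex (M ⊔ N))
    (fun X hX => Subgroup.relIndex_le_of_le_right hX.2.1 hne0)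
  have hXG : X ≤ G0 := hXMN.trans hMNG
  have hNJ : N ≤ J := hNF.trans hFJ
  have hJX : J ≤ X := hJE.le.trans hEX
  -- `(X, J)` is a section
  have hsec : Sec (p ^ (2 * c + 1)) G0 N X J := by
    refine ⟨hNJ, hJX, hXG, hXi, hJi, hXc, ?_⟩
    have h1 := Subgroup.relIndex_mul_relIndex J E X hJE.le hEX
    rw [← h1, hJp, pow_succ, mul_comm (p ^ (2 * c)) p, mul_comm 2 c]
    exact Nat.mul_le_mul_left p ((Subgroup.relIndex_le_of_le_right hXMN hne0).trans hidx)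
  have hXW : ∀ x ∈ X, ∀ w ∈ W, x * w * x⁻¹ * w⁻¹ ∈ J := fun x hx w hw => hw.2 X J hsec x hx
  rcases hXMN.eq_or_lt with heq | hlt'
  · -- `X = M ⊔ N`
    have hCJ : ⁅M, W⁆ ≤ J := by
      rw [Subgroup.commutator_le]
      intro x hx w hw
      exact hXW x (heq ▸ (le_sup_left : M ≤ M ⊔ N) hx) w hw
    exact absurd (hE_le hFJ hCJ) (not_le_of_gt hJE)
  · -- one more step
    obtain ⟨y, hyMN, hyX, hyi, hyp⟩ := exists_step hp hN (hNJ.trans hJX) hlt' hMNG hXi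
      (inv_of_normal hMNn)
    have hyG : y ∈ G0 := hMNG hyMN
    have hyW : y ∈ W := hMNW hyMN
    have hzy : Subgroup.zpowers y ≤ M ⊔ N := (Subgroup.zpowers_le).2 hyMN
    have hX'MN : X ⊔ Subgroup.zpowers y ≤ M ⊔ N := sup_le hXMN hzy
    have hXb : ∀ b ∈ X, X ⊔ Subgroup.zpowers y ≤ Cz G0 J hJi b := by
      intro b hb
      refine sup_le (fun a ha => ⟨hXG ha, hXc a ha b hb⟩) ((Subgroup.zpowers_le).2
        ⟨hyG, swap_mem (hXW b hb y hyW)⟩)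
    have hyb : X ⊔ Subgroup.zpowers y ≤ Cz G0 J hJi y := by
      refine sup_le (fun a ha => ⟨hXG ha, hXW a ha y hyW⟩) ((Subgroup.zpowers_le).2
        ⟨hyG, ?_⟩)
      have e : y * y * y⁻¹ * y⁻¹ = 1 := by group
      rw [e]; exact J.one_mem
    have hX'c : ∀ a ∈ X ⊔ Subgroup.zpowers y, ∀ b ∈ X ⊔ Subgroup.zpowers y,
        a * b * a⁻¹ * b⁻¹ ∈ J := by
      intro a ha b hb
      have h1 : X ⊔ Subgroup.zpowers y ≤ Cz G0 J hJi b := by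
        refine sup_le (fun a ha => ⟨hXG ha, swap_mem (hXb a ha hb).2⟩) ((Subgroup.zpowers_le).2
          ⟨hyG, swap_mem (hyb hb).2⟩)
      exact (h1 ha).2
    have h1 := hmax (X ⊔ Subgroup.zpowers y) ⟨hEX.trans le_sup_left, hX'MN, hyi, hX'c⟩
    have h2 := Subgroup.relIndex_mul_relIndex E X (X ⊔ Subgroup.zpowers y) hEX le_sup_left
    rw [hyp] at h2
    rw [← h2] at h1
    have h3 : E.relIndex X ≠ 0 := by
      intro h0
      apply hne0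
      rw [← Subgroup.relIndex_mul_relIndex E X (M ⊔ N) hEX hXMN, h0, zero_mul]
    have h4 : E.relIndex X * 2 ≤ E.relIndex X * p := Nat.mul_le_mul_left _ hp.two_le
    omega

end P9700r
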