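import Mathlib
import Pool.Agent.Lib.P9700r.Defs
import Pool.Agent.Lib.P9700r.Expo
import Pool.Agent.Lib.P9700r.WnA

/-!
# The index of `Wn`

`(Wn (p ^ e) G0 N).relIndex G0 ≤ p ^ (c e e)` for all `N` with `NP p G0 N`.

Proof. `D j = (derivedSeries G0 j).map G0.subtype ⊔ Wn (p ^ e) G0 N`, `j = 0, ..., e`. All `D j` are normal in `G` (`derivedSeries G0 j` is characteristic in `G0`, `G0` normal; `Wn_normal`), `D 0 = G0`, `D e = Wn (p ^ e) G0 N` (`der_le_Wn`),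
`D (j + 1) ≤ D j ≤ G0`, `N ≤ Wn ≤ D j`. `D j / D (j + 1)` is abelian (commutators of elements of `derivedSeries G0 j` lie in `derivedSeries G0 (j + 1)`, `Wn` is normal in `G`) and of exponent dividing `p ^ e` (`pow_mem_Wn`: `g ^ (p ^ e) ∈ Wn` for every `g ∈ G0`).
So `(D (j + 1)).relIndex (D j) ≤ p ^ (c e)` (`EB.expo`), and the product of the `e` indices is the relative index of `D e` in `D 0` (induction, `Subgroup.relIndex_mul_relIndex`).
-/

set_option autoImplicit false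

namespace P9700r

namespace WnBAux

/-- the chain -/
def Dj {G : Type*} [Group G] (c : ℕ) (G0 N : Subgroup G) (j : ℕ) : Subgroup G :=
  (derivedSeries G0 j).map G0.subtype ⊔ Wn c G0 N

variable {G : Type*} [Group G]

theorem Dj_le (c : ℕ) (G0 N : Subgroup G) (j : ℕ) : Dj c G0 N j ≤ G0 := by
  unfold Dj
  refine sup_le ?_ (Wn_le c G0 N)
  rintro _ ⟨s, -, rfl⟩
  exact s.2

theorem Dj_zero (c : ℕ) (G0 N : Subgroup G) : Dj c G0 N 0 = G0 := by
  apply le_antisymm (Dj_le c G0 N 0)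
  intro g hg
  refine Subgroup.mem_sup_left ⟨⟨g, hg⟩, ?_, rfl⟩
  rw [derivedSeries_zero]
  exact Subgroup.mem_top _

theorem Dj_succ_le (c : ℕ) (G0 N : Subgroup G) (j : ℕ) : Dj c G0 N (j + 1) ≤ Dj c G0 N j := by
  unfold Dj
  exact sup_le_sup_right (Subgroup.map_mono (derivedSeries_antitone _ (Nat.le_succ j))) _

theorem Dj_normal {c : ℕ} {G0 N : Subgroup G} (hG0 : G0.Normal) (hN : N.Normal) (j : ℕ) :
    (Dj c G0 N j).Normal := by
  haveI := hG0
  haveI := Wn_normal (c := c) hG0 hN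
  haveI : ((derivedSeries G0 j).map G0.subtype).Normal :=
    ConjAct.normal_of_characteristic_of_normal
  unfold Dj
  infer_instance

theorem Dj_comm {c : ℕ} {G0 N : Subgroup G} (hG0 : G0.Normal) (hN : N.Normal) (j : ℕ) {x y : G}
    (hx : x ∈ Dj c G0 N j) (hy : y ∈ Dj c G0 N j) : x * y * x⁻¹ * y⁻¹ ∈ Dj c G0 N (j + 1) := by
  haveI := Wn_normal (c := c) hG0 hN
  unfold Dj at hx hy
  obtain ⟨a, ⟨s, hs, rfl⟩, w, hw, rfl⟩ := Subgroup.mem_sup_of_normal_right.1 hx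
  obtain ⟨b, ⟨t, ht, rfl⟩, v, hv, rfl⟩ := Subgroup.mem_sup_of_normal_right.1 hy
  have h1 : s * t * s⁻¹ * t⁻¹ ∈ derivedSeries G0 (j + 1) := by
    rw [derivedSeries_succ]
    exact Subgroup.commutator_mem_commutator hs ht
  have h2 : G0.subtype (s * t * s⁻¹ * t⁻¹) ∈ (derivedSeries G0 (j + 1)).map G0.subtype :=
    ⟨_, h1, rfl⟩
  have hw' : (QuotientGroup.mk' (Wn c G0 N)) w = 1 := (QuotientGroup.eq_one_iff w).2 hw
  have hv' : (QuotientGroup.mk' (Wn c G0 N)) v = 1 := (QuotientGroup.eq_one_iff v).2 hv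
  have h3 : (G0.subtype (s * t * s⁻¹ * t⁻¹))⁻¹ * (G0.subtype s * w * (G0.subtype t * v) *
      (G0.subtype s * w)⁻¹ * (G0.subtype t * v)⁻¹) ∈ Wn c G0 N := by
    rw [← QuotientGroup.ker_mk' (Wn c G0 N), MonoidHom.mem_ker]
    simp only [map_mul, map_inv, hw', hv', mul_one, mul_inv_rev]
    group
  have h4 : G0.subtype s * w * (G0.subtype t * v) * (G0.subtype s * w)⁻¹ *
      (G0.subtype t * v)⁻¹ = (G0.subtype (s * t * s⁻¹ * t⁻¹)) * ((G0.subtype (s * t * s⁻¹ * t⁻¹))⁻¹ *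
        (G0.subtype s * w * (G0.subtype t * v) * (G0.subtype s * w)⁻¹ *
          (G0.subtype t * v)⁻¹)) := by
    group
  rw [h4]
  unfold Dj
  exact Subgroup.mul_mem _ (Subgroup.mem_sup_left h2) (Subgroup.mem_sup_right h3)

theorem Dj_relIndex {p : ℕ} (hp : p.Prime) (e : ℕ) {G0 N : Subgroup G}
    (hG0 : G0.Normal) {c : ℕ} (hc : EB p G0 c) (hN : NP p G0 N) (j : ℕ) :
    (Dj (p ^ e) G0 N j).relIndex G0 ≤ p ^ (c * e * j) := by
  induction j with
  | zero =>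
    rw [Dj_zero, Subgroup.relIndex_self, Nat.mul_zero, pow_zero]
  | succ j ih =>
    have h1 := Subgroup.relIndex_mul_relIndex (Dj (p ^ e) G0 N (j + 1)) (Dj (p ^ e) G0 N j) G0
      (Dj_succ_le _ _ _ _) (Dj_le _ _ _ _)
    have h2 : (Dj (p ^ e) G0 N (j + 1)).relIndex (Dj (p ^ e) G0 N j) ≤ p ^ (c * e) := by
      refine EB.expo hp hc e N _ _ hN (Dj_normal hG0 hN.1 j) (Dj_normal hG0 hN.1 (j + 1)) ?_
        (Dj_succ_le _ _ _ _) (Dj_le _ _ _ _) (fun x hx y hy => Dj_comm hG0 hN.1 j hx hy)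
        (fun x hx => ?_)
      · exact (le_Wn hN.1 hN.2.1).trans le_sup_right
      · exact Subgroup.mem_sup_right (pow_mem_Wn hp e hN (Dj_le _ _ _ _ hx))
    rw [← h1]
    calc (Dj (p ^ e) G0 N (j + 1)).relIndex (Dj (p ^ e) G0 N j) *
          (Dj (p ^ e) G0 N j).relIndex G0 ≤ p ^ (c * e) * p ^ (c * e * j) :=
          Nat.mul_le_mul h2 ih
      _ = p ^ (c * e * (j + 1)) := by
          rw [← pow_add]
          congr 1
          ring

end WnBAux

open WnBAux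

theorem Wn_relIndex {G : Type*} [Group G] {p : ℕ} (hp : p.Prime) (e : ℕ) {G0 N : Subgroup G}
    (hG0 : G0.Normal) {c : ℕ} (hc : EB p G0 c) (hN : NP p G0 N) :
    (Wn (p ^ e) G0 N).relIndex G0 ≤ p ^ (c * e * e) := by
  have h1 := Dj_relIndex hp e hG0 hc hN e
  have h2 : Dj (p ^ e) G0 N e = Wn (p ^ e) G0 N := by
    unfold Dj
    exact sup_eq_right.2 (der_le_Wn hp e hN)
  rwa [h2] at h1

end P9700r
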