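import Mathlib
import Pool.Agent.Lib.P9700r.Defs
import Pool.Agent.Lib.P9700r.Expo
import Pool.Agent.Lib.P9700r.WnA
import Pool.Agent.Lib.P9700r.WnB
import Pool.Agent.Lib.P9700r.Key
import Pool.Agent.Lib.P9700r.Desc

/-!
# The filtration

Proof. Write `e = 2 c + 1`. `desc` for `S = Wn (p ^ e) G0` (`NP` by `NP.of_le`, `le_Wn`, `Wn_normal`, `Wn_le`; bound `Wn_relIndex`) gives `N0`; `T := Wn (p ^ e) G0 N0`, `NP p G0 T`, `T ≤ Wn (p ^ e) G0 N` for all `N` with `NP`.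
One step: let `X` with `NP p G0 X`, `X ≤ T`. `S N := PW p X ⊔ (N ⊓ X)`: `NP` (`PW p X` is normal in `G`, `≤ X`; `N ⊓ X` is `NP`), monotone, bounded: `M1 = S N` is of relative index `≤ p ^ c` in `X` by `EB` (`X / M1` is elementary abelian: commutators by `key` for `N`, `M = X`:
`PW (p ^ 2) X ⊔ N`; hmm, apply `key` with `N ⊓ X` in place of `N` (`NP`): commutators of `X` lie in `PW (p ^ 2) X ⊔ (N ⊓ X) ≤ M1`, as `x ^ (p ^ 2) = (x ^ p) ^ p`, `X ≤ T ≤ Wn (N ⊓ X)`), so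
`(S N).relIndex G0 ≤ p ^ c * X.relIndex G0`. `desc` gives the next term `X' = S N1`; it satisfies `NP p G0 X'`, `X' ≤ X`, `X' ≤ S N ≤ PW p X ⊔ N` for all `N` with `NP`, and `PW p X ≤ X'`.
So there is a sequence `P 0 = T`, `P (k + 1) = (P k)'` (recursion on the subtype of `X` with `NP p G0 X ∧ X ≤ T`). `Filt`: `normal`, `anti`, `fin` (`NP`), `pow`, `gen` (with `N = P j`), `comm`: let `x ∈ P k`, `y ∈ P 0 = T`. `P (k + 2) = PW p (P (k + 1)) ⊔ (N1 ⊓ P (k + 1))` for some `N1` with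
`NP`; apply `key` with `N = N1 ⊓ P (k + 1)`, `M = P k ≤ T ≤ Wn (p ^ e) G0 N`, `w = y`: `x y x⁻¹ y⁻¹ ∈ PW (p ^ 2) (P k) ⊔ N`, and `PW (p ^ 2) (P k) ≤ PW p (P (k + 1))`.
-/

set_option autoImplicit false

namespace P9700r

namespace FiltrAux

variable {G : Type*} [Group G]

theorem PW_le (p : ℕ) (X : Subgroup G) : PW p X ≤ X := by
  unfold PW
  rw [Subgroup.closure_le]
  rintro y ⟨x, hx, rfl⟩
  exact X.pow_mem hx p

theorem pow_mem_PW (p : ℕ) {X : Subgroup G} {x : G} (hx : x ∈ X) : x ^ p ∈ PW p X :=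
  Subgroup.subset_closure ⟨x, hx, rfl⟩

theorem PW_normal (p : ℕ) {X : Subgroup G} (hX : X.Normal) : (PW p X).Normal := by
  refine ⟨fun n hn g => ?_⟩
  unfold PW at hn ⊢
  induction hn using Subgroup.closure_induction with
  | mem y hy =>
    obtain ⟨x, hx, rfl⟩ := hy
    refine Subgroup.subset_closure ⟨g * x * g⁻¹, hX.conj_mem x hx g, ?_⟩
    exact conj_pow
  | one =>
    rw [mul_one, mul_inv_cancel]
    exact Subgroup.one_mem _
  | mul a b _ _ ha hb =>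
    have e : g * (a * b) * g⁻¹ = (g * a * g⁻¹) * (g * b * g⁻¹) := by group
    rw [e]
    exact Subgroup.mul_mem _ ha hb
  | inv a _ ha =>
    have e : g * a⁻¹ * g⁻¹ = (g * a * g⁻¹)⁻¹ := by group
    rw [e]
    exact Subgroup.inv_mem _ ha

theorem PW_sq_le (p : ℕ) {X Y : Subgroup G} (h : ∀ x ∈ X, x ^ p ∈ Y) :
    PW (p ^ 2) X ≤ PW p Y := by
  unfold PW
  rw [Subgroup.closure_le]
  rintro y ⟨x, hx, rfl⟩
  refine Subgroup.subset_closure ⟨x ^ p, h x hx, ?_⟩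
  rw [← pow_mul, pow_two]

/-- one step -/
theorem step {p : ℕ} (hp : p.Prime) {G0 : Subgroup G} (hG0 : G0.Normal) {c : ℕ}
    (hc : EB p G0 c) {T : Subgroup G}
    (hTW : ∀ N, NP p G0 N → T ≤ Wn (p ^ (2 * c + 1)) G0 N)
    (X : Subgroup G) (hX : NP p G0 X) (hXT : X ≤ T) :
    ∃ N1, NP p G0 N1 ∧ ∀ N, NP p G0 N → PW p X ⊔ (N1 ⊓ X) ≤ PW p X ⊔ N := by
  have hPn : (PW p X).Normal := PW_normal p hX.1
  have hSle : ∀ N, PW p X ⊔ (N ⊓ X) ≤ X := fun N => sup_le (PW_le p X) inf_le_right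
  have hSN : ∀ N, NP p G0 N → NP p G0 (PW p X ⊔ (N ⊓ X)) := by
    intro N hN
    have h1 := NP.inf hp hN hX
    have h2 : (N ⊓ X).Normal := h1.1
    exact NP.of_le hp h1 (Subgroup.sup_normal _ _) le_sup_right ((hSle N).trans hX.2.1)
  obtain ⟨N1, hN1, hmin⟩ := desc hp hG0 (fun N => PW p X ⊔ (N ⊓ X))
    (p ^ c * X.relIndex G0) hSN
    (fun N N' _ _ h => sup_le_sup_left (inf_le_inf_right X h) _) (by
      intro N hN
      have h1 := NP.inf hp hN hX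
      have h2 := hSN N hN
      rw [← Subgroup.relIndex_mul_relIndex _ _ _ (hSle N) hX.2.1]
      refine Nat.mul_le_mul_right _ ?_
      refine hc (N ⊓ X) X _ h1 hX.1 h2.1 le_sup_right (hSle N) hX.2.1 ?_ ?_
      · intro x hx y hy
        have hW : X ≤ Wn (p ^ (2 * c + 1)) G0 (N ⊓ X) := hXT.trans (hTW _ h1)
        have h3 := key hp hG0 hc h1 hX.1 hW x hx y (hW hy)
        have h4 : PW (p ^ 2) X ≤ PW p X := PW_sq_le p fun x hx => X.pow_mem hx p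
        exact sup_le_sup_right h4 _ h3
      · intro x hx
        exact (le_sup_left : PW p X ≤ _) (pow_mem_PW p hx))
  exact ⟨N1, hN1, fun N hN => (hmin N hN).trans (sup_le_sup_left inf_le_left _)⟩

end FiltrAux

open FiltrAux in
theorem exists_filt {G : Type*} [Group G] {p : ℕ} (hp : p.Prime) {G0 : Subgroup G}
    (hG0 : G0.Normal) {c : ℕ} (hc : EB p G0 c) :
    ∃ P : ℕ → Subgroup G, Filt p P ∧ (∀ k, NP p G0 (P k)) ∧
      ∀ k N, NP p G0 N → P (k + 1) ≤ PW p (P k) ⊔ N := by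
  have hW : ∀ N, NP p G0 N → NP p G0 (Wn (p ^ (2 * c + 1)) G0 N) := fun N hN =>
    NP.of_le hp hN (Wn_normal hG0 hN.1) (le_Wn hN.1 hN.2.1) (Wn_le _ _ _)
  obtain ⟨N0, hN0, hTW⟩ := desc hp hG0 (fun N => Wn (p ^ (2 * c + 1)) G0 N) _ hW
    (fun N N' _ _ h => Wn_anti h)
    (fun N hN => Wn_relIndex hp (2 * c + 1) hG0 hc hN)
  obtain ⟨T, hT⟩ : ∃ T, T = Wn (p ^ (2 * c + 1)) G0 N0 := ⟨_, rfl⟩
  have hTN : NP p G0 T := by
    rw [hT]
    exact hW N0 hN0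
  have hTW' : ∀ N, NP p G0 N → T ≤ Wn (p ^ (2 * c + 1)) G0 N := by
    intro N hN
    rw [hT]
    exact hTW N hN
  have hstep : ∀ X : {X : Subgroup G // NP p G0 X ∧ X ≤ T}, ∃ N1, NP p G0 N1 ∧
      ∀ N, NP p G0 N → PW p X.1 ⊔ (N1 ⊓ X.1) ≤ PW p X.1 ⊔ N := fun X =>
    step hp hG0 hc hTW' X.1 X.2.1 X.2.2
  choose N1 hN1 hmin using hstep
  have hSle : ∀ X : {X : Subgroup G // NP p G0 X ∧ X ≤ T},
      PW p X.1 ⊔ (N1 X ⊓ X.1) ≤ X.1 := fun X => sup_le (PW_le p X.1) inf_le_right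
  have hSN : ∀ X : {X : Subgroup G // NP p G0 X ∧ X ≤ T},
      NP p G0 (PW p X.1 ⊔ (N1 X ⊓ X.1)) := by
    intro X
    have h1 := NP.inf hp (hN1 X) X.2.1
    have h2 : (N1 X ⊓ X.1).Normal := h1.1
    have h3 : (PW p X.1).Normal := PW_normal p X.2.1.1
    exact NP.of_le hp h1 (Subgroup.sup_normal _ _) le_sup_right ((hSle X).trans X.2.1.2.1)
  let nx : {X : Subgroup G // NP p G0 X ∧ X ≤ T} → {X : Subgroup G // NP p G0 X ∧ X ≤ T} :=
    fun X => ⟨PW p X.1 ⊔ (N1 X ⊓ X.1), hSN X, (hSle X).trans X.2.2⟩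
  let Q : ℕ → {X : Subgroup G // NP p G0 X ∧ X ≤ T} := fun k => nx^[k] ⟨T, hTN, le_refl T⟩
  have hQ0 : (Q 0).1 = T := rfl
  have hQs : ∀ k, (Q (k + 1)).1 = PW p (Q k).1 ⊔ (N1 (Q k) ⊓ (Q k).1) := by
    intro k
    show (nx^[k + 1] _).1 = _
    rw [Function.iterate_succ_apply']
  have hanti : ∀ k, (Q (k + 1)).1 ≤ (Q k).1 := by
    intro k
    rw [hQs]
    exact hSle (Q k)
  have hpow : ∀ k, ∀ x ∈ (Q k).1, x ^ p ∈ (Q (k + 1)).1 := by
    intro k x hx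
    rw [hQs]
    exact (le_sup_left : PW p (Q k).1 ≤ _) (pow_mem_PW p hx)
  have hgen : ∀ k N, NP p G0 N → (Q (k + 1)).1 ≤ PW p (Q k).1 ⊔ N := by
    intro k N hN
    rw [hQs]
    exact hmin (Q k) N hN
  refine ⟨fun k => (Q k).1, ⟨fun k => (Q k).2.1.1, hanti, ?_, hpow, ?_, ?_⟩,
    fun k => (Q k).2.1, hgen⟩
  · intro k
    obtain ⟨j, hj⟩ := NP.relIndex hp (Q (k + 1)).2.1 (le_refl _) (hanti k) (Q k).2.1.2.1
    show ((Q (k + 1)).1).relIndex (Q k).1 ≠ 0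
    rw [hj]
    exact (pow_pos hp.pos j).ne'
  · intro k j
    exact hgen k _ (Q j).2.1
  · intro k x hx y hy
    show x * y * x⁻¹ * y⁻¹ ∈ (Q (k + 1 + 1)).1
    have h1 := NP.inf hp (hN1 (Q (k + 1))) (Q (k + 1)).2.1
    have h2 : (Q k).1 ≤ Wn (p ^ (2 * c + 1)) G0 (N1 (Q (k + 1)) ⊓ (Q (k + 1)).1) :=
      (Q k).2.2.trans (hTW' _ h1)
    have hy' : y ∈ T := hy
    have h3 := key hp hG0 hc h1 (Q k).2.1.1 h2 x hx y (hTW' _ h1 hy')
    rw [hQs (k + 1)]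
    exact sup_le_sup_right (PW_sq_le p (hpow k)) _ h3

end P9700r
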