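import Mathlib
import Pool.Agent.Lib.P9700a.Defs
import Pool.Agent.Lib.P9700a.Rank
import Pool.Agent.Lib.P9700b.CrossV
import Pool.Agent.Lib.P9700b.MainV
import Pool.Agent.Lib.P9700c.Plat

/-!
# Abelian normal subgroups embedded equivariantly in a finite-dimensional representation

`G = A B`, `A`, `B` of finite special rank, `σ` a finite-dimensional representation over an algebraically closed field of characteristic zero, `Z` normal in `G`, `ι : Z → V` additive, injective and equivariant. Then `Z` has finite special rank.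

Proof: copy `red_case_v` of `P9700b/MainV.lean` (there `U` plays the part of `Z` and `ρ u - 1` the part of `ι u`; `hτ`, `hinv` are now additivity of `ι`). `platonov hA (σ.comp A.subtype)` gives a subgroup of finite index of `A` with triangularizable image (see the beginning of the proof of `main_plat` in `P9700c/FinC.lean`), call it `A0 ≤ A`.
`H = {(a, b) ∈ A × B : a b⁻¹ ∈ Z}` has finite special rank, `α (a, b) = σ a`, `δ (a, b) = ι (a b⁻¹)`: `δ (h h') = α h (δ h') + δ h` because `a a' b'⁻¹ b⁻¹ = (a (a' b'⁻¹) a⁻¹) (a b⁻¹)`. `U' = ι (Z)` is an additive subgroup and equals the image of `δ` because `G = A B`. `H0` = the preimage of `A0`, of finite index. `cross_v` (its hypothesis is about a set of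
operators containing `α h`, `h ∈ H0`; take the set `σ '' A0`) gives finite rank of `Multiplicative U'`, and `Z` embeds in it (`FR.of_injective`).
-/

set_option autoImplicit false

universe u v w

namespace P9700r

open P9700a

theorem fr_of_embed (K : Type w) [Field K] [IsAlgClosed K] [CharZero K] (G : Type u) [Group G]
    (V : Type v) [AddCommGroup V] [Module K V] [FiniteDimensional K V]
    (σ : G →* Module.End K V) (A B : Subgroup G) (hA : FR A) (hB : FR B)
    (hAB : ∀ g : G, ∃ a ∈ A, ∃ b ∈ B, g = a * b) (Z : Subgroup G) (hZ : Z.Normal) (ι : G → V)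
    (h1 : ∀ z ∈ Z, ∀ z' ∈ Z, ι (z * z') = ι z + ι z') (h2 : ∀ z ∈ Z, ι z = 0 → z = 1)
    (h3 : ∀ g : G, ∀ z ∈ Z, ι (g * z * g⁻¹) = σ g (ι z)) : FR Z := by
  classical
  -- the triangularizable subgroup of finite index
  obtain ⟨A0, hA0, hfA, hTA⟩ : ∃ A0 : Subgroup G, A0 ≤ A ∧ A0.relIndex A ≠ 0 ∧
      TF (σ '' (A0 : Set G)) := by
    obtain ⟨Y, hY, hT⟩ := platonov hA (σ.comp A.subtype)
    refine ⟨Y.map A.subtype, ?_, ?_, ?_⟩
    · rintro _ ⟨z, hz, rfl⟩
      exact z.2
    · have e2 : (Y.map A.subtype).subgroupOf A = Y :=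
        Subgroup.comap_map_eq_self_of_injective A.subtype_injective _
      show ((Y.map A.subtype).subgroupOf A).index ≠ 0
      rw [e2]; exact hY.index_ne_zero
    · have e3 : σ '' ((Y.map A.subtype : Subgroup G) : Set G) =
          (σ.comp A.subtype) '' (Y : Set A) := by
        rw [Subgroup.coe_map, ← Set.image_comp]
        rfl
      rw [e3]; exact hT
  have hone : ι (1 : G) = 0 := by
    have := h1 1 Z.one_mem 1 Z.one_mem
    rw [mul_one] at this
    exact left_eq_add.mp this
  have hinv : ∀ u ∈ Z, ι u⁻¹ = -(ι u) := by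
    intro u hu
    have := h1 u hu u⁻¹ (Z.inv_mem hu)
    rw [mul_inv_cancel, hone] at this
    exact (neg_eq_of_add_eq_zero_right this.symm).symm
  let U' : AddSubgroup V :=
    { carrier := {φ | ∃ u ∈ Z, ι u = φ}
      zero_mem' := ⟨1, Z.one_mem, hone⟩
      add_mem' := by
        rintro _ _ ⟨u, hu, rfl⟩ ⟨u', hu', rfl⟩
        exact ⟨u * u', Z.mul_mem hu hu', h1 u hu u' hu'⟩
      neg_mem' := by
        rintro _ ⟨u, hu, rfl⟩
        exact ⟨u⁻¹, Z.inv_mem hu, hinv u hu⟩ }
  let H : Subgroup (A × B) :=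
    { carrier := {p | (p.1 : G) * (p.2 : G)⁻¹ ∈ Z}
      one_mem' := by simp [Z.one_mem]
      mul_mem' := by
        rintro ⟨a, b⟩ ⟨a', b'⟩ h h'
        simp only [Set.mem_ofPred_eq, Prod.fst_mul, Prod.snd_mul, Subgroup.coe_mul, mul_inv_rev] at *
        have : (a : G) * a' * ((b' : G)⁻¹ * (b : G)⁻¹) =
            ((a : G) * (a' * (b' : G)⁻¹) * (a : G)⁻¹) * (a * (b : G)⁻¹) := by group
        rw [this]
        exact Z.mul_mem (hZ.conj_mem _ h' _) h
      inv_mem' := by
        rintro ⟨a, b⟩ h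
        simp only [Set.mem_ofPred_eq, Prod.fst_inv, Prod.snd_inv, Subgroup.coe_inv, inv_inv] at *
        have : (a : G)⁻¹ * b = (a : G)⁻¹ * ((a : G) * (b : G)⁻¹)⁻¹ * ((a : G)⁻¹)⁻¹ := by group
        rw [this]
        exact hZ.conj_mem _ (Z.inv_mem h) _ }
  have hHmem : ∀ p : H, ((p : A × B).1 : G) * ((p : A × B).2 : G)⁻¹ ∈ Z := fun p => p.2
  have hFH : FR H := FR.subgroup H (FR.prod hA hB)
  let pA : H →* G := A.subtype.comp ((MonoidHom.fst A B).comp H.subtype)
  let H0 : Subgroup H := A0.comap pA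
  have hH0 : H0.FiniteIndex := by
    refine ⟨?_⟩
    show (A0.comap pA).index ≠ 0
    rw [Subgroup.index_comap]
    intro h
    refine hfA (Subgroup.relIndex_eq_zero_of_le_right ?_ h)
    rintro _ ⟨h, rfl⟩
    exact ((h : A × B).1).2
  let α : H →* Module.End K V := σ.comp pA
  have hα : ∀ h ∈ H0, α h ∈ σ '' (A0 : Set G) := by
    intro h hh
    exact ⟨pA h, hh, rfl⟩
  let δ : H → V := fun h => ι (((h : A × B).1 : G) * ((h : A × B).2 : G)⁻¹)
  have hδ : ∀ h h' : H, δ (h * h') = α h (δ h') + δ h := by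
    intro h h'
    have e1 : (((h * h' : H) : A × B).1 : G) * (((h * h' : H) : A × B).2 : G)⁻¹ =
        (((h : A × B).1 : G) * (((h' : A × B).1 : G) * ((h' : A × B).2 : G)⁻¹) *
          ((h : A × B).1 : G)⁻¹) * (((h : A × B).1 : G) * ((h : A × B).2 : G)⁻¹) := by
      simp only [Subgroup.coe_mul, Prod.fst_mul, Prod.snd_mul]
      group
    show ι _ = _
    rw [e1, h1 _ (hZ.conj_mem _ (hHmem h') _) _ (hHmem h), h3 _ _ (hHmem h')]
    rfl
  have hU' : ∀ w, w ∈ U' ↔ ∃ h, δ h = w := by
    intro w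
    constructor
    · rintro ⟨u, hu, rfl⟩
      obtain ⟨a, ha, b, hb, rfl⟩ := hAB u
      refine ⟨⟨⟨⟨a, ha⟩, ⟨b⁻¹, B.inv_mem hb⟩⟩, ?_⟩, ?_⟩
      · show a * (b⁻¹)⁻¹ ∈ Z
        rwa [inv_inv]
      · show ι (a * (b⁻¹)⁻¹) = _
        rw [inv_inv]
    · rintro ⟨h, rfl⟩
      exact ⟨_, hHmem h, rfl⟩
  have hF := cross_v hFH α H0 _ hTA hα δ hδ U' hU'
  let τ : Z →* Multiplicative U' :=
    { toFun := fun u => Multiplicative.ofAdd ⟨ι (u : G), u, u.2, rfl⟩
      map_one' := by
        rw [← ofAdd_zero]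
        congr 1
        exact Subtype.ext hone
      map_mul' := by
        intro u u'
        rw [← ofAdd_add]
        congr 1
        exact Subtype.ext (h1 u u.2 u' u'.2) }
  have hτi : Function.Injective τ := by
    refine (injective_iff_map_eq_one τ).2 ?_
    intro u hu
    have h' : ι (u : G) = 0 := congrArg (fun z => ((Multiplicative.toAdd z : U') : V)) hu
    exact Subtype.ext (h2 u u.2 h')
  exact FR.of_injective τ hτi hF

end P9700r
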