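import Mathlib
import Pool.Agent.Lib.P9700r.Defs
import Pool.Agent.Lib.P9700r.Expo
import Pool.Agent.Lib.P9700r.Chief

/-!
# The filtration separates points

`P (k + 1) ≤ PW p (P k) ⊔ N` for all `k`: then `P k ≤ N` for some `k`.

Proof. `(P k ⊔ N).relIndex G0` is a nonzero number at most `N.relIndex G0`, nondecreasing in `k`, so there is `k` with `P (k + 1) ⊔ N = P k ⊔ N =: X`. If `X ≠ N`: the finite `p`-group `Q = X / N` is nontrivial; its maximal subgroup `Y`, of index `p` and normal, contains all `p`-th powers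
(`Q / Y` has order `p`), but `X = P (k + 1) ⊔ N ≤ PW p (P k) ⊔ N` is generated by `N` and `p`-th powers of elements of `P k ≤ X`: contradiction. For the maximal subgroup: e.g. `Sylow.exists_subgroup_card_pow_prime` for order `p ^ (n - 1)` in the `p`-group `Q` of order `p ^ n`, normal since it has index `p`, the
smallest prime factor (`IsPGroup.normal_of_index_eq` or similar), or use `Group.IsNilpotent` coatoms; or `exists_max` of `P9700r/Chief.lean` (then import it) which gives `N ≤ J < X` invariant under `G0` of index `p`: for `x ∈ X`: `x ^ p ∈ J` because `X / J` is a group of order `p`.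
-/

set_option autoImplicit false

namespace P9700r

namespace InterAux

/-- `p`-th powers lie in an invariant subgroup of index `p`. -/
theorem pow_mem_of_index {G : Type*} [Group G] {p : ℕ} {G0 J X : Subgroup G} (hJX : J ≤ X)
    (hX : X ≤ G0) (hJ : Inv G0 J) (hi : J.relIndex X = p) : ∀ x ∈ X, x ^ p ∈ J := by
  intro x hx
  haveI : (J.subgroupOf X).Normal := by
    constructor
    rintro ⟨y, hy⟩ hyJ ⟨g, hg⟩
    rw [Subgroup.mem_subgroupOf] at hyJ ⊢
    exact hJ g (hX hg) y hyJ
  have h1 : (J.subgroupOf X).index = p := hi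
  have h2 : ((⟨x, hx⟩ : X) ^ p) ∈ J.subgroupOf X := by
    rw [← h1]
    exact Subgroup.pow_index_mem (J.subgroupOf X) ⟨x, hx⟩
  rw [Subgroup.mem_subgroupOf] at h2
  simpa using h2

end InterAux

theorem exists_le_of_gen {G : Type*} [Group G] {p : ℕ} (hp : p.Prime) {G0 : Subgroup G}
    (hG0 : G0.Normal) (P : ℕ → Subgroup G) (h0 : P 0 ≤ G0) (hn : ∀ k, (P k).Normal)
    (ha : ∀ k, P (k + 1) ≤ P k) (hg : ∀ k N, NP p G0 N → P (k + 1) ≤ PW p (P k) ⊔ N)
    {N : Subgroup G} (hN : NP p G0 N) : ∃ k, P k ≤ N := by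
  classical
  have hP : ∀ k, P k ≤ G0 := by
    intro k
    induction k with
    | zero => exact h0
    | succ k ih => exact (ha k).trans ih
  have hX : ∀ k, P k ⊔ N ≤ G0 := fun k => sup_le (hP k) hN.2.1
  have hNG : N.relIndex G0 ≠ 0 := by
    obtain ⟨a, h⟩ := hN.2.2
    rw [h]
    exact pow_ne_zero _ hp.ne_zero
  -- choose `k` with minimal index
  have hex : ∃ n : ℕ, ∃ k, N.relIndex (P k ⊔ N) = n := ⟨_, 0, rfl⟩
  obtain ⟨k, hk⟩ := Nat.find_spec hex
  have hmin : N.relIndex (P k ⊔ N) ≤ N.relIndex (P (k + 1) ⊔ N) := by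
    rw [hk]
    exact Nat.find_min' hex ⟨k + 1, rfl⟩
  have hle : P (k + 1) ⊔ N ≤ P k ⊔ N := sup_le_sup_right (ha k) N
  have hmul := Subgroup.relIndex_mul_relIndex N (P (k + 1) ⊔ N) (P k ⊔ N) le_sup_right hle
  have hmul2 := Subgroup.relIndex_mul_relIndex N (P k ⊔ N) G0 le_sup_right (hX k)
  have hne : N.relIndex (P k ⊔ N) ≠ 0 := by
    intro h
    rw [h, zero_mul] at hmul2
    exact hNG hmul2.symm
  have hne' : N.relIndex (P (k + 1) ⊔ N) ≠ 0 := by
    intro h
    rw [h, zero_mul] at hmul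
    exact hne hmul.symm
  have hone : (P (k + 1) ⊔ N).relIndex (P k ⊔ N) = 1 := by
    have h1 : 0 < N.relIndex (P (k + 1) ⊔ N) := Nat.pos_of_ne_zero hne'
    have h2 : (P (k + 1) ⊔ N).relIndex (P k ⊔ N) ≤ 1 := by
      by_contra hc
      push Not at hc
      nlinarith
    have h3 : (P (k + 1) ⊔ N).relIndex (P k ⊔ N) ≠ 0 := by
      intro h
      rw [h, mul_zero] at hmul
      exact hne hmul.symm
    omega
  have heq : P k ⊔ N ≤ P (k + 1) ⊔ N := Subgroup.relIndex_eq_one.1 hone
  refine ⟨k, ?_⟩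
  by_contra hcon
  have hlt : N < P k ⊔ N := by
    refine lt_of_le_of_ne le_sup_right fun h => hcon ?_
    rw [h]
    exact le_sup_left
  haveI := hn k
  haveI := hN.1
  have hInvN : Inv G0 N := fun g _ x hx => hN.1.conj_mem x hx g
  have hInvX : Inv G0 (P k ⊔ N) := fun g _ x hx =>
    (inferInstance : (P k ⊔ N).Normal).conj_mem x hx g
  obtain ⟨J, hNJ, hJX, hJ, hJi⟩ := exists_max hp hN le_rfl hlt (hX k) hInvN hInvX
  have hpow := InterAux.pow_mem_of_index hJX.le (hX k) hJ hJi
  have h1 : PW p (P k) ≤ J := by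
    unfold PW
    rw [Subgroup.closure_le]
    rintro y ⟨x, hx, rfl⟩
    exact hpow x (Subgroup.mem_sup_left hx)
  have h2 : P (k + 1) ⊔ N ≤ J := sup_le ((hg k N hN).trans (sup_le h1 hNJ)) hNJ
  exact absurd (heq.trans h2) (not_le_of_gt hJX)

end P9700r
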