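import Mathlib
import Pool.Agent.Lib.P9700r.Defs
import Pool.Agent.Lib.P9700r.Comm

/-!
# Injectivity of the power maps

Proof of `pow_inj`: induction on `n`; `n = 0` trivial. Step `n + 1`: the hypothesis for `n + 1` implies that for `n`, so `z := x y⁻¹ ∈ P (k + n)`. `x = z y`, `z y z⁻¹ y⁻¹ ∈ P (2 k + n + 2) ≤ P (k + n + 2)` (`comm_mem`), so `x ^ p ≡ z ^ p y ^ p` modulo `P (k + n + 2)` (`mul_pow_mod`), so `z ^ p ∈ P (k + n + 2)` and
`z ∈ P (k + n + 1)` by `Unif.inj`.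
`pow_inj_iter`: induction on `j` with `pow_inj`, `x ^ (p ^ (j + 1)) = (x ^ (p ^ j)) ^ p`, `x ^ (p ^ j) ∈ P (k + j)`.
-/

set_option autoImplicit false

namespace P9700r

variable {G : Type*} [Group G]

theorem pow_mem_iter {p : ℕ} {P : ℕ → Subgroup G} (h : Filt p P) (j k : ℕ) (x : G)
    (hx : x ∈ P k) : x ^ (p ^ j) ∈ P (k + j) := by
  induction j with
  | zero => simpa using hx
  | succ j ih =>
    rw [pow_succ, pow_mul]
    exact h.pow (k + j) _ ih

theorem pow_inj {p : ℕ} {P : ℕ → Subgroup G} (h : Filt p P) {m d : ℕ} (hu : Unif p P m d)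
    (n k : ℕ) (hk : m ≤ k) (x : G) (hx : x ∈ P k) (y : G) (hy : y ∈ P k)
    (hxy : x ^ p * (y ^ p)⁻¹ ∈ P (k + 1 + n)) : x * y⁻¹ ∈ P (k + n) := by
  induction n with
  | zero => exact mul_mem hx (inv_mem hy)
  | succ n ih =>
    have hz : x * y⁻¹ ∈ P (k + n) := ih (h.le_of_le (by omega) hxy)
    obtain ⟨z, hz'⟩ : ∃ z, z = x * y⁻¹ := ⟨_, rfl⟩
    rw [← hz'] at hz ⊢
    have hx' : x = z * y := by rw [hz', inv_mul_cancel_right]
    have h1 : z * y * z⁻¹ * y⁻¹ ∈ P (k + n + 2) :=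
      h.le_of_le (by omega) (h.comm_mem (k + n) k z hz y hy)
    have h2 := mul_pow_mod (P (k + n + 2)) (h.normal _) h1 p
    have h3 : x ^ p * (y ^ p)⁻¹ ∈ P (k + n + 2) := h.le_of_le (by omega) hxy
    have h4 : z ^ p = ((z * y) ^ p * (z ^ p * y ^ p)⁻¹)⁻¹ * (x ^ p * (y ^ p)⁻¹) := by
      rw [← hx']
      group
    have h5 : z ^ p ∈ P (k + n + 2) := by
      rw [h4]
      exact mul_mem (inv_mem h2) h3
    exact hu.inj (k + n) (by omega) z hz h5

theorem pow_inj_iter {p : ℕ} {P : ℕ → Subgroup G} (h : Filt p P) {m d : ℕ} (hu : Unif p P m d)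
    (j n k : ℕ) (hk : m ≤ k) (x : G) (hx : x ∈ P k) (y : G) (hy : y ∈ P k)
    (hxy : x ^ (p ^ j) * (y ^ (p ^ j))⁻¹ ∈ P (k + j + n)) : x * y⁻¹ ∈ P (k + n) := by
  induction j with
  | zero => simpa using hxy
  | succ j ih =>
    apply ih
    refine pow_inj h hu n (k + j) (by omega) _ (pow_mem_iter h j k x hx) _
      (pow_mem_iter h j k y hy) ?_
    rw [← pow_mul, ← pow_mul, ← pow_succ]
    have e : k + j + 1 + n = k + (j + 1) + n := by omega
    rw [e]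
    exact hxy

end P9700r
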