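import Mathlib
import Pool.Agent.Lib.P9700r.Defs
import Pool.Agent.Lib.P9700r.Comm

/-!
# The quotients `P n / P (2 n)` and `P (n + 1) / P (2 n + 1)` of a filtration

* `QQ h n = P n ⧸ P (2 n)`, `TT h n = P (n + 1) ⧸ P (2 n + 1)`, commutative groups, with class maps `clQ`, `clT`;
* `bet h n : QQ h n →* TT h n`, the class of `x` goes to the class of `x ^ p`;
* `alp h n : QQ h (n + 1) →* TT h n`, the class of `x` goes to the class of `x`;
* `kap h n : G →* MulAut (QQ h n)`, conjugation.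
-/

set_option autoImplicit false

namespace P9700r

variable {G : Type*} [Group G] {p : ℕ} {P : ℕ → Subgroup G}

/-- `P n / P (2 n)`. -/
def QQ (_ : Filt p P) (n : ℕ) : Type _ := (P n) ⧸ ((P (2 * n)).subgroupOf (P n))

/-- `P (n + 1) / P (2 n + 1)`. -/
def TT (_ : Filt p P) (n : ℕ) : Type _ := (P (n + 1)) ⧸ ((P (2 * n + 1)).subgroupOf (P (n + 1)))

theorem nsub (h : Filt p P) (i j : ℕ) : ((P i).subgroupOf (P j)).Normal :=
  haveI := h.normal i
  inferInstance

instance instGroupQQ (h : Filt p P) (n : ℕ) : Group (QQ h n) :=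
  haveI := nsub h (2 * n) n
  inferInstanceAs (Group ((P n) ⧸ ((P (2 * n)).subgroupOf (P n))))

instance instGroupTT (h : Filt p P) (n : ℕ) : Group (TT h n) :=
  haveI := nsub h (2 * n + 1) (n + 1)
  inferInstanceAs (Group ((P (n + 1)) ⧸ ((P (2 * n + 1)).subgroupOf (P (n + 1)))))

/-- the class map. -/
def clQ (h : Filt p P) (n : ℕ) : P n →* QQ h n :=
  haveI := nsub h (2 * n) n
  QuotientGroup.mk' ((P (2 * n)).subgroupOf (P n))

/-- the class map. -/
def clT (h : Filt p P) (n : ℕ) : P (n + 1) →* TT h n :=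
  haveI := nsub h (2 * n + 1) (n + 1)
  QuotientGroup.mk' ((P (2 * n + 1)).subgroupOf (P (n + 1)))

theorem clQ_surj (h : Filt p P) (n : ℕ) : Function.Surjective (clQ h n) :=
  haveI := nsub h (2 * n) n
  QuotientGroup.mk'_surjective _

theorem clT_surj (h : Filt p P) (n : ℕ) : Function.Surjective (clT h n) :=
  haveI := nsub h (2 * n + 1) (n + 1)
  QuotientGroup.mk'_surjective _

theorem clQ_eq_one (h : Filt p P) (n : ℕ) (x : P n) : clQ h n x = 1 ↔ (x : G) ∈ P (2 * n) := by
  haveI := nsub h (2 * n) n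
  exact (QuotientGroup.eq_one_iff x).trans Subgroup.mem_subgroupOf

theorem clT_eq_one (h : Filt p P) (n : ℕ) (x : P (n + 1)) :
    clT h n x = 1 ↔ (x : G) ∈ P (2 * n + 1) := by
  haveI := nsub h (2 * n + 1) (n + 1)
  exact (QuotientGroup.eq_one_iff x).trans Subgroup.mem_subgroupOf

theorem clQ_eq (h : Filt p P) (n : ℕ) (x y : P n) :
    clQ h n x = clQ h n y ↔ (x : G) * (y : G)⁻¹ ∈ P (2 * n) := by
  rw [← mul_inv_eq_one, ← map_inv, ← map_mul, clQ_eq_one]
  rfl

theorem clT_eq (h : Filt p P) (n : ℕ) (x y : P (n + 1)) :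
    clT h n x = clT h n y ↔ (x : G) * (y : G)⁻¹ ∈ P (2 * n + 1) := by
  rw [← mul_inv_eq_one, ← map_inv, ← map_mul, clT_eq_one]
  rfl

instance instCommGroupQQ (h : Filt p P) (n : ℕ) : CommGroup (QQ h n) :=
  { instGroupQQ h n with
    mul_comm := by
      intro a b
      obtain ⟨x, rfl⟩ := clQ_surj h n a
      obtain ⟨y, rfl⟩ := clQ_surj h n b
      rw [← map_mul, ← map_mul, clQ_eq]
      have e : ((x * y : P n) : G) * ((y * x : P n) : G)⁻¹ =
          (x : G) * (y : G) * (x : G)⁻¹ * (y : G)⁻¹ := by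
        push_cast; group
      rw [e]
      exact h.le_of_le (by omega) (h.comm_mem n n x x.2 y y.2) }

instance instCommGroupTT (h : Filt p P) (n : ℕ) : CommGroup (TT h n) :=
  { instGroupTT h n with
    mul_comm := by
      intro a b
      obtain ⟨x, rfl⟩ := clT_surj h n a
      obtain ⟨y, rfl⟩ := clT_surj h n b
      rw [← map_mul, ← map_mul, clT_eq]
      have e : ((x * y : P (n + 1)) : G) * ((y * x : P (n + 1)) : G)⁻¹ =
          (x : G) * (y : G) * (x : G)⁻¹ * (y : G)⁻¹ := by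
        push_cast; group
      rw [e]
      exact h.le_of_le (by omega) (h.comm_mem (n + 1) (n + 1) x x.2 y y.2) }

/-- the `p`-th power homomorphism before passing to the quotient. -/
def bet0 (h : Filt p P) (n : ℕ) : P n →* TT h n where
  toFun x := clT h n ⟨(x : G) ^ p, h.pow n x x.2⟩
  map_one' := by
    rw [clT_eq_one]
    change (1 : G) ^ p ∈ P (2 * n + 1)
    rw [one_pow]
    exact (P (2 * n + 1)).one_mem
  map_mul' := by
    intro x y
    rw [← map_mul, clT_eq]
    exact mul_pow_mod _ (h.normal _)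
      (h.le_of_le (by omega) (h.comm_mem n n x x.2 y y.2)) p

/-- the class of `x` goes to the class of `x ^ p`. -/
def bet (h : Filt p P) (n : ℕ) : QQ h n →* TT h n :=
  haveI := nsub h (2 * n) n
  QuotientGroup.lift ((P (2 * n)).subgroupOf (P n)) (bet0 h n) (by
    intro x hx
    exact (clT_eq_one h n _).2 (h.pow _ _ (Subgroup.mem_subgroupOf.1 hx)))

theorem bet_cl (h : Filt p P) (n : ℕ) (x : P n) :
    bet h n (clQ h n x) = clT h n ⟨(x : G) ^ p, h.pow n x x.2⟩ := rfl

/-- the class of `x` goes to the class of `x`. -/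
def alp (h : Filt p P) (n : ℕ) : QQ h (n + 1) →* TT h n :=
  haveI := nsub h (2 * (n + 1)) (n + 1)
  QuotientGroup.lift ((P (2 * (n + 1))).subgroupOf (P (n + 1))) (clT h n) (by
    intro x hx
    exact (clT_eq_one h n _).2 (h.le_of_le (by omega) (Subgroup.mem_subgroupOf.1 hx)))

theorem alp_cl (h : Filt p P) (n : ℕ) (x : P (n + 1)) :
    alp h n (clQ h (n + 1) x) = clT h n x := rfl

/-- conjugation by `g` on `P n`. -/
def cj (h : Filt p P) (n : ℕ) (g : G) : P n →* P n where
  toFun x := ⟨g * (x : G) * g⁻¹, (h.normal n).conj_mem _ x.2 g⟩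
  map_one' := by
    apply Subtype.ext
    change g * 1 * g⁻¹ = 1
    group
  map_mul' := by
    intro x y
    apply Subtype.ext
    change g * ((x : G) * (y : G)) * g⁻¹ = (g * (x : G) * g⁻¹) * (g * (y : G) * g⁻¹)
    group

/-- conjugation by `g` on `QQ h n`. -/
def kap0 (h : Filt p P) (n : ℕ) (g : G) : QQ h n →* QQ h n :=
  haveI := nsub h (2 * n) n
  QuotientGroup.lift ((P (2 * n)).subgroupOf (P n)) ((clQ h n).comp (cj h n g)) (by
    intro x hx
    exact (clQ_eq_one h n _).2 ((h.normal _).conj_mem _ (Subgroup.mem_subgroupOf.1 hx) g))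

theorem kap0_cl (h : Filt p P) (n : ℕ) (g : G) (x : P n) :
    kap0 h n g (clQ h n x) = clQ h n ⟨g * (x : G) * g⁻¹, (h.normal n).conj_mem _ x.2 g⟩ := rfl

theorem kap0_one (h : Filt p P) (n : ℕ) (a : QQ h n) : kap0 h n 1 a = a := by
  obtain ⟨x, rfl⟩ := clQ_surj h n a
  rw [kap0_cl]
  congr 1
  apply Subtype.ext
  change 1 * (x : G) * 1⁻¹ = x
  group

theorem kap0_mul (h : Filt p P) (n : ℕ) (g g' : G) (a : QQ h n) :
    kap0 h n (g * g') a = kap0 h n g (kap0 h n g' a) := by
  obtain ⟨x, rfl⟩ := clQ_surj h n a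
  rw [kap0_cl, kap0_cl, kap0_cl]
  congr 1
  apply Subtype.ext
  change g * g' * (x : G) * (g * g')⁻¹ = g * (g' * (x : G) * g'⁻¹) * g⁻¹
  group

/-- conjugation on `QQ h n`. -/
def kap (h : Filt p P) (n : ℕ) : G →* MulAut (QQ h n) where
  toFun g :=
    { toFun := kap0 h n g
      invFun := kap0 h n g⁻¹
      left_inv := by
        intro a
        rw [← kap0_mul, inv_mul_cancel, kap0_one]
      right_inv := by
        intro a
        rw [← kap0_mul, mul_inv_cancel, kap0_one]
      map_mul' := map_mul _ }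
  map_one' := by
    ext a
    exact kap0_one h n a
  map_mul' := by
    intro g g'
    ext a
    exact kap0_mul h n g g' a

theorem kap_cl (h : Filt p P) (n : ℕ) (g : G) (x : P n) :
    kap h n g (clQ h n x) = clQ h n ⟨g * (x : G) * g⁻¹, (h.normal n).conj_mem _ x.2 g⟩ := rfl

end P9700r
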