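import Mathlib
import Pool.Agent.Lib.P9700r.Defs
import Pool.Agent.Lib.P9700r.Comm
import Pool.Agent.Lib.P9700r.PowInj
import Pool.Agent.Lib.P9700r.QT

/-!
# Coordinates on `P n / P (2 n)`

There are `d` elements `u j` of `P m` such that for every `i` the classes `e i j` of `u j ^ (p ^ i)` in `QQ h (m + i) = P (m + i) / P (2 (m + i))` satisfy: every element is `∏ j, e i j ^ a j` with integers `a j`, and such a product is `1` iff `p ^ (m + i)` divides all `a j`.

Proof. (1) `P m / P (m + 1)` is elementary abelian (`comm_mem`, `pow`) of order `p ^ d` (`Unif.card`), so it is generated by `d` elements, the classes of `u j ∈ P m` (a `ZMod p`-space of dimension `d`; or any elementary abelian group of order `p ^ d` is generated by `d` elements: induction).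
(2) For all `k ≥ m`: `P k ≤ ⟨u j ^ (p ^ (k - m)) : j⟩ ⊔ P (k + 1)`. Induction on `k`: `P (k + 1) ≤ PW p (P k) ⊔ P (k + 2)` (`Filt.gen`), and for `y ∈ P k`, `y ∈ ⟨u j ^ (p ^ (k - m))⟩ ⊔ P (k + 1)`, the power `y ^ p` lies in `⟨u j ^ (p ^ (k + 1 - m))⟩ ⊔ P (k + 2)`, because
`x ↦ x ^ p` is a homomorphism from `P k` to `P (k + 1) / P (k + 2)` (`mul_pow_mod`, commutators of `P k` lie in `P (2 k + 2)`) that maps `P (k + 1)` to `1` (closure induction).
(3) So with `n = m + i` the group `QQ h n` is generated by the classes of `u j ^ (p ^ (k - m))`, `n ≤ k < 2 n`, all of which are powers of `e i j`: the homomorphism `(Fin d → ℤ) → QQ h n`, `a ↦ ∏ j, e i j ^ a j` is surjective (downward induction: `P k` is contained in `⟨u j ^ (p ^ i)⟩ ⊔ P (2 n)` for `n ≤ k ≤ 2 n`).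
(4) `e i j ^ (p ^ n) = 1` because `u j ^ (p ^ (i + n)) ∈ P (m + i + n) = P (2 n)` (`pow_mem_iter`). So the homomorphism factors through `Fin d → ZMod (p ^ n)` (or: `∏ j, e i j ^ a j` only depends on `a j` modulo `p ^ n`), a set of `p ^ (n d)` elements, and `|QQ h n| = (P (2 n)).relIndex (P n) = p ^ (d n)`
(`Unif.card`, `Subgroup.relIndex_mul_relIndex`, `n` steps). A surjective map between finite sets of the same cardinality is injective; so a product equal to `1` has all `a j` divisible by `p ^ n`.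
-/

set_option autoImplicit false

set_option linter.style.haveILetI false

namespace P9700r

namespace CoordQAux

variable {G : Type*} [Group G]

private theorem card_iter {p : ℕ} {P : ℕ → Subgroup G} (h : Filt p P) {m d : ℕ}
    (hu : Unif p P m d) (n : ℕ) (hn : m ≤ n) (t : ℕ) :
    (P (n + t)).relIndex (P n) = p ^ (d * t) := by
  induction t with
  | zero => simp [Subgroup.relIndex_self]
  | succ t ih =>
    have h1 := Subgroup.relIndex_mul_relIndex (P (n + (t + 1))) (P (n + t)) (P n)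
      (h.anti (n + t)) (h.le_of_le (by omega))
    have h2 : (P (n + (t + 1))).relIndex (P (n + t)) = p ^ d := hu.card (n + t) (by omega)
    rw [← h1, ih, h2, ← pow_add]
    congr 1
    ring

private theorem gen_elem {A : Type*} [Group A] (hcomm : ∀ a b : A, a * b = b * a) {p d : ℕ}
    (hp : p.Prime) (hexp : ∀ x : A, x ^ p = 1) (hc : Nat.card A = p ^ d) :
    ∃ b : Fin d → A, ∀ x : A, x ∈ Subgroup.closure (Set.range b) := by
  letI : CommGroup A := { (inferInstance : Group A) with mul_comm := hcomm }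
  haveI : Fact p.Prime := ⟨hp⟩
  haveI : Finite A := Nat.finite_of_card_ne_zero (by rw [hc]; exact (pow_pos hp.pos d).ne')
  haveI : Finite (Additive A) := inferInstanceAs (Finite A)
  letI : Module (ZMod p) (Additive A) :=
    AddCommGroup.zmodModule (n := p) (fun x => hexp x.toMul)
  haveI : Module.Finite (ZMod p) (Additive A) := Module.Finite.of_finite
  have hf : Module.finrank (ZMod p) (Additive A) = d := by
    have h1 := Module.natCard_eq_pow_finrank (K := ZMod p) (V := Additive A)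
    rw [Nat.card_zmod] at h1
    have h2 : Nat.card (Additive A) = p ^ d := hc
    rw [h2] at h1
    exact (Nat.pow_right_injective hp.two_le h1).symm
  let b := Module.finBasisOfFinrankEq (ZMod p) (Additive A) hf
  refine ⟨fun j => (b j).toMul, ?_⟩
  intro x
  have hx := b.sum_repr (Additive.ofMul x)
  have key : ∀ (c : ZMod p) (j : Fin d), c • b j = c.val • b j := by
    intro c j
    have e : c • b j = ((c.val : ℕ) : ZMod p) • b j := by rw [ZMod.natCast_zmod_val]
    rw [e, Nat.cast_smul_eq_nsmul]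
  have hmem : ∀ s : Finset (Fin d), (∑ j ∈ s, b.repr (Additive.ofMul x) j • b j).toMul ∈
      Subgroup.closure (Set.range fun j => (b j).toMul) := by
    intro s
    induction s using Finset.induction_on with
    | empty =>
      rw [Finset.sum_empty]
      exact Subgroup.one_mem _
    | insert j s hj ih =>
      rw [Finset.sum_insert hj, key]
      rw [toMul_add, toMul_nsmul]
      have hj' : (b j).toMul ∈ Subgroup.closure (Set.range fun j => (b j).toMul) :=
        Subgroup.subset_closure ⟨j, rfl⟩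
      exact Subgroup.mul_mem _ (Subgroup.pow_mem _ hj' _) ih
  have := hmem Finset.univ
  rw [hx] at this
  exact this

private theorem base {p : ℕ} (hp : p.Prime) {P : ℕ → Subgroup G} (h : Filt p P) {m d : ℕ}
    (hu : Unif p P m d) :
    ∃ u : Fin d → G, (∀ j, u j ∈ P m) ∧
      P m ≤ Subgroup.closure (Set.range u) ⊔ P (m + 1) := by
  haveI : ((P (m + 1)).subgroupOf (P m)).Normal := nsub h (m + 1) m
  let π := QuotientGroup.mk' ((P (m + 1)).subgroupOf (P m))
  have hπ : Function.Surjective π := QuotientGroup.mk'_surjective _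
  have hk : ∀ x : P m, π x = 1 ↔ (x : G) ∈ P (m + 1) := fun x =>
    (QuotientGroup.eq_one_iff x).trans Subgroup.mem_subgroupOf
  have hcomm : ∀ a b : P m ⧸ ((P (m + 1)).subgroupOf (P m)), a * b = b * a := by
    intro a a'
    obtain ⟨x, rfl⟩ := hπ a
    obtain ⟨y, rfl⟩ := hπ a'
    rw [← map_mul, ← map_mul, ← mul_inv_eq_one, ← map_inv, ← map_mul, hk]
    have e : ((x * y * (y * x)⁻¹ : P m) : G) = (x : G) * (y : G) * (x : G)⁻¹ * (y : G)⁻¹ := by
      push_cast; group
    rw [e]
    exact h.le_of_le (by omega) (h.comm_mem m m x x.2 y y.2)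
  have hexp : ∀ a : P m ⧸ ((P (m + 1)).subgroupOf (P m)), a ^ p = 1 := by
    intro a
    obtain ⟨x, rfl⟩ := hπ a
    rw [← map_pow, hk]
    exact h.pow m x x.2
  obtain ⟨b, hb⟩ := gen_elem hcomm hp hexp (hu.card m le_rfl)
  choose u' hu' using fun j => hπ (b j)
  refine ⟨fun j => (u' j : G), fun j => (u' j).2, ?_⟩
  intro x hx
  have h1 : π ⟨x, hx⟩ ∈ Subgroup.closure (Set.range b) := hb _
  have h2 : Set.range b = π '' (Set.range u') := by
    rw [← Set.range_comp]
    congr 1
    funext j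
    exact (hu' j).symm
  rw [h2, ← MonoidHom.map_closure] at h1
  obtain ⟨w, hw, hwx⟩ := h1
  have h3 : ((⟨x, hx⟩ * w⁻¹ : P m) : G) ∈ P (m + 1) := by
    rw [← hk, map_mul, map_inv]
    have h4 : π w = π ⟨x, hx⟩ := hwx
    rw [h4, mul_inv_cancel]
  have h5 : (w : G) ∈ Subgroup.closure (Set.range fun j => (u' j : G)) := by
    have h6 : (w : G) ∈ (Subgroup.closure (Set.range u')).map (P m).subtype := ⟨w, hw, rfl⟩
    rw [MonoidHom.map_closure, ← Set.range_comp] at h6
    exact h6
  have h7 : x = ((⟨x, hx⟩ * w⁻¹ : P m) : G) * (w : G) := by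
    rw [← Subgroup.coe_mul, inv_mul_cancel_right]
  rw [h7]
  exact Subgroup.mul_mem _ (Subgroup.mem_sup_right h3) (Subgroup.mem_sup_left h5)

private theorem step {p : ℕ} {P : ℕ → Subgroup G} (h : Filt p P) {m d : ℕ} (u : Fin d → G)
    (hm : ∀ j, u j ∈ P m) (h0 : P m ≤ Subgroup.closure (Set.range u) ⊔ P (m + 1)) (i : ℕ) :
    P (m + i) ≤ Subgroup.closure (Set.range fun j => u j ^ (p ^ i)) ⊔ P (m + i + 1) := by
  induction i with
  | zero => simpa using h0
  | succ i ih =>
    obtain ⟨R, hR⟩ : ∃ R : Subgroup G,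
        R = Subgroup.closure (Set.range fun j => u j ^ (p ^ (i + 1))) ⊔ P (m + i + 2) :=
      ⟨_, rfl⟩
    have hR2 : P (m + i + 2) ≤ R := by rw [hR]; exact le_sup_right
    let S : Subgroup G :=
      { carrier := {x | x ∈ P (m + i) ∧ x ^ p ∈ R}
        one_mem' := ⟨one_mem _, by rw [one_pow]; exact one_mem _⟩
        mul_mem' := by
          rintro x y ⟨hx, hx'⟩ ⟨hy, hy'⟩
          refine ⟨mul_mem hx hy, ?_⟩
          have h1 := mul_pow_mod _ (h.normal (m + i + 2))
            (h.le_of_le (by omega) (h.comm_mem (m + i) (m + i) x hx y hy)) p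
          have e : (x * y) ^ p = ((x * y) ^ p * (x ^ p * y ^ p)⁻¹) * (x ^ p * y ^ p) := by
            rw [inv_mul_cancel_right]
          rw [e]
          exact mul_mem (hR2 h1) (mul_mem hx' hy')
        inv_mem' := by
          rintro x ⟨hx, hx'⟩
          exact ⟨inv_mem hx, by rw [inv_pow]; exact inv_mem hx'⟩ }
    have hS : P (m + i) ≤ S := by
      refine ih.trans (sup_le ?_ ?_)
      · rw [Subgroup.closure_le]
        rintro _ ⟨j, rfl⟩
        refine ⟨pow_mem_iter h i m (u j) (hm j), ?_⟩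
        rw [hR]
        refine Subgroup.mem_sup_left (Subgroup.subset_closure ⟨j, ?_⟩)
        change u j ^ (p ^ (i + 1)) = (u j ^ (p ^ i)) ^ p
        rw [pow_succ, pow_mul]
      · intro x hx
        exact ⟨h.anti _ hx, hR2 (h.pow _ x hx)⟩
    have h2 := h.gen (m + i) (m + i + 2)
    change P (m + i + 1) ≤ Subgroup.closure (Set.range fun j => u j ^ (p ^ (i + 1))) ⊔
      P (m + i + 2)
    rw [← hR]
    refine h2.trans (sup_le ?_ hR2)
    unfold PW
    rw [Subgroup.closure_le]
    rintro _ ⟨x, hx, rfl⟩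
    exact (hS hx).2

private theorem gen_all {p : ℕ} {P : ℕ → Subgroup G} (h : Filt p P) {m d : ℕ} (u : Fin d → G)
    (hm : ∀ j, u j ∈ P m) (h0 : P m ≤ Subgroup.closure (Set.range u) ⊔ P (m + 1)) (i : ℕ)
    (x : QQ h (m + i)) :
    x ∈ Subgroup.closure (Set.range fun j =>
      clQ h (m + i) ⟨u j ^ (p ^ i), pow_mem_iter h i m (u j) (hm j)⟩) := by
  obtain ⟨C, hC⟩ : ∃ C : Subgroup (QQ h (m + i)), C = Subgroup.closure (Set.range fun j =>
      clQ h (m + i) ⟨u j ^ (p ^ i), pow_mem_iter h i m (u j) (hm j)⟩) := ⟨_, rfl⟩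
  rw [← hC]
  have hgen : ∀ j, clQ h (m + i) ⟨u j ^ (p ^ i), pow_mem_iter h i m (u j) (hm j)⟩ ∈ C := by
    intro j
    rw [hC]
    exact Subgroup.subset_closure ⟨j, rfl⟩
  let S : Subgroup G := (C.comap (clQ h (m + i))).map (P (m + i)).subtype
  have hS : ∀ y : P (m + i), clQ h (m + i) y ∈ C → (y : G) ∈ S := fun y hy => ⟨y, hy, rfl⟩
  have main : ∀ t s : ℕ, s + t = m + i → P (m + i + s) ≤ S := by
    intro t
    induction t with
    | zero =>
      intro s hs y hy
      have hy' : y ∈ P (m + i) := h.le_of_le (by omega) hy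
      refine hS ⟨y, hy'⟩ ?_
      have h1 : clQ h (m + i) ⟨y, hy'⟩ = 1 := by
        rw [clQ_eq_one]
        exact h.le_of_le (by omega) hy
      rw [h1]
      exact C.one_mem
    | succ t ih =>
      intro s hs
      have e1 : m + i + s = m + (i + s) := by omega
      rw [e1]
      refine (step h u hm h0 (i + s)).trans (sup_le ?_ ?_)
      · rw [Subgroup.closure_le]
        rintro _ ⟨j, rfl⟩
        have h2 : u j ^ (p ^ (i + s)) = (u j ^ (p ^ i)) ^ (p ^ s) := by
          rw [← pow_mul, ← pow_add]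
        change u j ^ (p ^ (i + s)) ∈ S
        rw [h2]
        exact S.pow_mem (hS ⟨u j ^ (p ^ i), pow_mem_iter h i m (u j) (hm j)⟩ (hgen j)) _
      · have h3 := ih (s + 1) (by omega)
        have e2 : m + (i + s) + 1 = m + i + (s + 1) := by omega
        rw [e2]
        exact h3
  obtain ⟨y, rfl⟩ := clQ_surj h (m + i) x
  have h4 : (y : G) ∈ S := main (m + i) 0 (by omega) y.2
  obtain ⟨z, hz, hzy⟩ := h4
  have h5 : z = y := Subtype.ext hzy
  rw [← h5]
  exact hz

private theorem card_QQ {p : ℕ} {P : ℕ → Subgroup G} (h : Filt p P) {m d : ℕ}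
    (hu : Unif p P m d) (n : ℕ) (hn : m ≤ n) : Nat.card (QQ h n) = (p ^ n) ^ d := by
  have h1 := card_iter h hu n hn n
  have h2 : Nat.card (QQ h n) = (P (2 * n)).relIndex (P n) := rfl
  rw [h2, two_mul, h1, ← pow_mul]
  congr 1
  ring

private theorem zpow_cast {A : Type*} [Group A] {N : ℕ} [NeZero N] {e : A} (he : e ^ N = 1)
    (a : ℤ) : e ^ ((a : ZMod N).val) = e ^ a := by
  have h1 : (((a : ZMod N).val : ℕ) : ℤ) = a % N := by
    rw [ZMod.val_intCast]
  rw [← zpow_natCast, h1]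
  have h2 : e ^ a = e ^ (a % N + N * (a / N)) := by rw [Int.emod_add_mul_ediv]
  rw [h2, zpow_add, zpow_mul, zpow_natCast, he, one_zpow, mul_one]

end CoordQAux

theorem exists_coord {G : Type*} [Group G] {p : ℕ} (hp : p.Prime) {P : ℕ → Subgroup G}
    (h : Filt p P) {m d : ℕ} (hu : Unif p P m d) :
    ∃ (u : Fin d → G) (hm : ∀ j, u j ∈ P m),
      (∀ (i : ℕ) (x : QQ h (m + i)), ∃ a : Fin d → ℤ,
        x = ∏ j, (clQ h (m + i) ⟨u j ^ (p ^ i), pow_mem_iter h i m (u j) (hm j)⟩) ^ a j) ∧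
      ∀ (i : ℕ) (a : Fin d → ℤ),
        (∏ j, (clQ h (m + i) ⟨u j ^ (p ^ i), pow_mem_iter h i m (u j) (hm j)⟩) ^ a j) = 1 ↔
          ∀ j, ((p ^ (m + i) : ℕ) : ℤ) ∣ a j := by
  obtain ⟨u, hm, h0⟩ := CoordQAux.base hp h hu
  have key : ∀ (i : ℕ) (x : QQ h (m + i)), ∃ a : Fin d → ℤ,
      x = ∏ j, (clQ h (m + i) ⟨u j ^ (p ^ i), pow_mem_iter h i m (u j) (hm j)⟩) ^ a j :=
    fun i x => Subgroup.exists_of_mem_closure_range _ _ (CoordQAux.gen_all h u hm h0 i x)
  refine ⟨u, hm, key, ?_⟩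
  intro i a
  obtain ⟨e, he⟩ : ∃ e : Fin d → QQ h (m + i), e = fun j =>
      clQ h (m + i) ⟨u j ^ (p ^ i), pow_mem_iter h i m (u j) (hm j)⟩ := ⟨_, rfl⟩
  have hej : ∀ j, clQ h (m + i) ⟨u j ^ (p ^ i), pow_mem_iter h i m (u j) (hm j)⟩ = e j := by
    intro j; rw [he]
  have keyi : ∀ x : QQ h (m + i), ∃ a : Fin d → ℤ, x = ∏ j, e j ^ a j := by
    intro x
    obtain ⟨a, ha⟩ := key i x
    refine ⟨a, ha.trans ?_⟩
    exact Finset.prod_congr rfl fun j _ => by rw [hej]
  have hN0 : p ^ (m + i) ≠ 0 := (pow_pos hp.pos _).ne'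
  have hord : ∀ j, e j ^ (p ^ (m + i)) = 1 := by
    intro j
    rw [← hej, ← map_pow, clQ_eq_one]
    change (u j ^ (p ^ i)) ^ (p ^ (m + i)) ∈ P (2 * (m + i))
    have h1 := pow_mem_iter h (m + i) (m + i) _ (pow_mem_iter h i m (u j) (hm j))
    rw [two_mul]
    exact h1
  have hcard : Nat.card (QQ h (m + i)) = (p ^ (m + i)) ^ d :=
    CoordQAux.card_QQ h hu (m + i) (by omega)
  have hprod : (∏ j, (clQ h (m + i) ⟨u j ^ (p ^ i), pow_mem_iter h i m (u j) (hm j)⟩) ^ a j) =
      ∏ j, e j ^ a j := Finset.prod_congr rfl fun j _ => by rw [hej]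
  rw [hprod]
  obtain ⟨N, hN⟩ : ∃ N : ℕ, N = p ^ (m + i) := ⟨_, rfl⟩
  rw [← hN] at hN0 hord hcard ⊢
  haveI : NeZero N := ⟨hN0⟩
  let f : (Fin d → ZMod N) → QQ h (m + i) := fun c => ∏ j, e j ^ (c j).val
  have hf : ∀ a : Fin d → ℤ, f (fun j => (a j : ZMod N)) = ∏ j, e j ^ a j := by
    intro a
    exact Finset.prod_congr rfl fun j _ => CoordQAux.zpow_cast (hord j) (a j)
  have hsurj : Function.Surjective f := by
    intro x
    obtain ⟨b, hb⟩ := keyi x
    exact ⟨fun j => (b j : ZMod N), (hf b).trans hb.symm⟩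
  have hbij : Function.Bijective f := by
    apply hsurj.bijective_of_nat_card_le
    rw [hcard, Nat.card_fun, Nat.card_zmod, Nat.card_fin]
  constructor
  · intro h1 j
    have h2 : f (fun j => (a j : ZMod N)) = f (fun j => ((0 : ℤ) : ZMod N)) := by
      rw [hf, hf (fun _ => 0), h1]
      simp
    have h3 := congrFun (hbij.1 h2) j
    have h4 : (a j : ZMod N) = 0 := by simpa using h3
    exact (ZMod.intCast_zmod_eq_zero_iff_dvd (a j) N).1 h4
  · intro h1
    refine Finset.prod_eq_one fun j _ => ?_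
    obtain ⟨c, hc⟩ := h1 j
    rw [hc, zpow_mul, zpow_natCast, hord j, one_zpow]

end P9700r
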