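import Mathlib

/-!
# Inverse limits with compatible coordinates

`Q i` (`i : ℕ`) are commutative groups with elements `e i j` (`j : Fin d`) such that every element of `Q i` is `∏ j, e i j ^ a j`, and such a product is `1` iff `p ^ (m + i)` divides all `a j`.
`α i : Q (i + 1) →* T i`, `β i : Q i →* T i` (`β i` injective), `α i (e (i + 1) j) = β i (e i j)`. A family `f` is compatible (`Cmp α β f`) if `α i (f (i + 1)) = β i (f i)` for all `i`. Then the compatible families have coordinates in `ℤ_[p]`.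

Proof. Let `f` be compatible, `f i = ∏ j, e i j ^ a i j` (`a i j : ℤ` chosen). Then `β i (f i) = α i (f (i + 1)) = ∏ j, β i (e i j) ^ a (i + 1) j`, so `f i = ∏ j, e i j ^ a (i + 1) j` by injectivity and `p ^ (m + i) ∣ a (i + 1) j - a i j` (`hker` applied to the quotient).
So for each `j` there is a `p`-adic integer `b j` with `toZModPow (m + i) (b j) = a i j` for all `i` (Cauchy sequence: `PadicInt.ofIntSeq`, `PadicInt.toZModPow_ofIntSeq_of_pow_dvd_sub` or similar; shift the index by `m`, e.g. use the sequence `n ↦ a (n - m) j`, for `n ≤ m` use `a 0 j`; or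
`PadicInt.lift`-like lemmas; or completeness of `ℤ_[p]`). If `f i = ∏ j, e i j ^ a' j` then `p ^ (m + i) ∣ a' j - a i j`; conversely if `toZModPow (m + i) (b j) = a' j` then `a' j ≡ a i j`, so the products agree.
Surjectivity: for `v : Fin d → ℤ_[p]` put `f i = ∏ j, e i j ^ (a i j)` with `a i j` an integer with `toZModPow (m + i) (v j) = a i j` (`ZMod.intCast_surjective`); `a (i + 1) j ≡ a i j` modulo `p ^ (m + i)` (`PadicInt.cast_toZModPow` or `zmod_cast_comp_toZModPow`), so `f` is compatible; `b f = v` by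
`PadicInt.ext_of_toZModPow` (all levels `m + i` suffice).
`lim_inj`, `lim_mul`: from the specification, using `hgen`.
-/

set_option autoImplicit false

namespace P9700r

universe u v

/-- compatible families. -/
def Cmp {Q : ℕ → Type u} {T : ℕ → Type v} [∀ i, CommGroup (Q i)] [∀ i, CommGroup (T i)]
    (α : ∀ i, Q (i + 1) →* T i) (β : ∀ i, Q i →* T i) (f : ∀ i, Q i) : Prop :=
  ∀ i, α i (f (i + 1)) = β i (f i)

/-- the specification of the coordinates. -/
def CSpec (p : ℕ) [Fact p.Prime] (m d : ℕ) {Q : ℕ → Type u} {T : ℕ → Type v}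
    [∀ i, CommGroup (Q i)] [∀ i, CommGroup (T i)] (e : ∀ i, Fin d → Q i)
    (α : ∀ i, Q (i + 1) →* T i) (β : ∀ i, Q i →* T i)
    (b : {f : ∀ i, Q i // Cmp α β f} → (Fin d → ℤ_[p])) : Prop :=
  ∀ (f : {f : ∀ i, Q i // Cmp α β f}) (i : ℕ) (a : Fin d → ℤ),
    (f.1 i = ∏ j, e i j ^ a j) ↔
      ∀ j, PadicInt.toZModPow (m + i) (b f j) = ((a j : ℤ) : ZMod (p ^ (m + i)))

namespace LimAux

/-- a sequence of integers with `p ^ (m + i) ∣ c (i + 1) - c i` has a `p`-adic limit. -/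
theorem exists_padic {p : ℕ} [Fact p.Prime] {m : ℕ} (c : ℕ → ℤ)
    (hc : ∀ i, ((p ^ (m + i) : ℕ) : ℤ) ∣ c (i + 1) - c i) :
    ∃ x : ℤ_[p], ∀ i, PadicInt.toZModPow (m + i) x = ((c i : ℤ) : ZMod (p ^ (m + i))) := by
  have hi : ∀ n, (p : ℤ) ^ n ∣ (fun n => c (n - m)) (n + 1) - (fun n => c (n - m)) n := by
    intro n
    change (p : ℤ) ^ n ∣ c (n + 1 - m) - c (n - m)
    by_cases hn : m ≤ n
    · obtain ⟨i, rfl⟩ := Nat.exists_eq_add_of_le hn
      have h1 : m + i + 1 - m = i + 1 := by omega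
      have h2 : m + i - m = i := by omega
      rw [h1, h2]
      have := hc i
      push_cast at this
      exact this
    · have h1 : n + 1 - m = n - m := by omega
      rw [h1, sub_self]
      exact dvd_zero _
  refine ⟨PadicInt.ofIntSeq _ (PadicInt.isCauSeq_padicNorm_of_pow_dvd_sub
    (fun n => c (n - m)) p hi), fun i => ?_⟩
  have h1 := PadicInt.toZModPow_ofIntSeq_of_pow_dvd_sub (fun n => c (n - m)) p hi (m + i)
  have h2 : m + i - m = i := by omega
  refine h1.trans ?_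
  rw [h2]

theorem ext_levels {p : ℕ} [Fact p.Prime] (m : ℕ) {x y : ℤ_[p]}
    (h : ∀ i, PadicInt.toZModPow (m + i) x = PadicInt.toZModPow (m + i) y) : x = y := by
  rw [← PadicInt.ext_of_toZModPow]
  intro n
  rw [← PadicInt.cast_toZModPow n (m + n) (by omega) x,
    ← PadicInt.cast_toZModPow n (m + n) (by omega) y, h n]

theorem prod_eq_iff {p m d i : ℕ} {A : Type*} [CommGroup A] {e : Fin d → A}
    (hker : ∀ a : Fin d → ℤ, (∏ j, e j ^ a j) = 1 ↔ ∀ j, ((p ^ (m + i) : ℕ) : ℤ) ∣ a j)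
    (a a' : Fin d → ℤ) :
    (∏ j, e j ^ a j) = (∏ j, e j ^ a' j) ↔ ∀ j, ((p ^ (m + i) : ℕ) : ℤ) ∣ a' j - a j := by
  rw [← hker (fun j => a' j - a j)]
  have h : (∏ j, e j ^ (a' j - a j)) = (∏ j, e j ^ a' j) / (∏ j, e j ^ a j) := by
    rw [← Finset.prod_div_distrib]
    exact Finset.prod_congr rfl fun j _ => by rw [zpow_sub, div_eq_mul_inv]
  rw [h, div_eq_one]
  exact eq_comm

end LimAux

open LimAux

section

variable {p : ℕ} [Fact p.Prime] {m d : ℕ} {Q : ℕ → Type u} {T : ℕ → Type v}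
  [∀ i, CommGroup (Q i)] [∀ i, CommGroup (T i)] {e : ∀ i, Fin d → Q i}
  {α : ∀ i, Q (i + 1) →* T i} {β : ∀ i, Q i →* T i}

theorem lim_coord (hgen : ∀ i (x : Q i), ∃ a : Fin d → ℤ, x = ∏ j, e i j ^ a j)
    (hker : ∀ i (a : Fin d → ℤ), (∏ j, e i j ^ a j) = 1 ↔ ∀ j, ((p ^ (m + i) : ℕ) : ℤ) ∣ a j)
    (hβ : ∀ i, Function.Injective (β i)) (hαβ : ∀ i j, α i (e (i + 1) j) = β i (e i j)) :
    ∃ b : {f : ∀ i, Q i // Cmp α β f} → (Fin d → ℤ_[p]),
      CSpec p m d e α β b ∧ Function.Surjective b := by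
  classical
  -- transport along `α` and `β`
  have htr : ∀ i (a : Fin d → ℤ), α i (∏ j, e (i + 1) j ^ a j) = β i (∏ j, e i j ^ a j) := by
    intro i a
    rw [map_prod, map_prod]
    refine Finset.prod_congr rfl fun j _ => ?_
    rw [map_zpow, map_zpow, hαβ]
  choose A hA using hgen
  have hex : ∀ f : {f : ∀ i, Q i // Cmp α β f}, ∃ v : Fin d → ℤ_[p],
      ∀ j i, PadicInt.toZModPow (m + i) (v j) = ((A i (f.1 i) j : ℤ) : ZMod (p ^ (m + i))) := by
    intro f
    have h1 : ∀ j i, ((p ^ (m + i) : ℕ) : ℤ) ∣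
        (fun i => A i (f.1 i) j) (i + 1) - (fun i => A i (f.1 i) j) i := by
      intro j i
      have h2 : f.1 i = ∏ j, e i j ^ A (i + 1) (f.1 (i + 1)) j := by
        apply hβ i
        rw [← htr, ← hA (i + 1) (f.1 (i + 1))]
        exact (f.2 i).symm
      have h3 : (∏ j, e i j ^ A i (f.1 i) j) = ∏ j, e i j ^ A (i + 1) (f.1 (i + 1)) j := by
        rw [← hA i (f.1 i)]
        exact h2
      exact (prod_eq_iff (hker i) _ _).1 h3 j
    choose v hv using fun j => exists_padic (p := p) (m := m) (fun i => A i (f.1 i) j) (h1 j)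
    exact ⟨v, hv⟩
  choose b hb using hex
  have hspec : CSpec p m d e α β b := by
    intro f i a
    constructor
    · intro h j
      rw [hb f j i, ZMod.intCast_eq_intCast_iff_dvd_sub]
      exact (prod_eq_iff (hker i) _ _).1 ((hA i (f.1 i)).symm.trans h) j
    · intro h
      refine (hA i (f.1 i)).trans ((prod_eq_iff (hker i) _ _).2 fun j => ?_)
      rw [← ZMod.intCast_eq_intCast_iff_dvd_sub, ← hb f j i]
      exact h j
  refine ⟨b, hspec, fun v => ?_⟩
  have hc : ∀ i j, ∃ c : ℤ, ((c : ℤ) : ZMod (p ^ (m + i))) = PadicInt.toZModPow (m + i) (v j) :=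
    fun i j => ZMod.intCast_surjective _
  choose c hc using hc
  have hcc : ∀ i j, ((p ^ (m + i) : ℕ) : ℤ) ∣ c (i + 1) j - c i j := by
    intro i j
    rw [← ZMod.intCast_eq_intCast_iff_dvd_sub, hc i j,
      ← PadicInt.cast_toZModPow (m + i) (m + (i + 1)) (by omega) (v j), ← hc (i + 1) j,
      ZMod.cast_intCast (pow_dvd_pow p (by omega))]
  have hcmp : Cmp α β (fun i => ∏ j, e i j ^ c i j) := by
    intro i
    change α i (∏ j, e (i + 1) j ^ c (i + 1) j) = β i (∏ j, e i j ^ c i j)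
    rw [htr]
    exact congrArg _ ((prod_eq_iff (hker i) _ _).2 (hcc i)).symm
  refine ⟨⟨_, hcmp⟩, ?_⟩
  funext j
  refine ext_levels m fun i => ?_
  rw [(hspec ⟨_, hcmp⟩ i (c i)).1 rfl j, hc i j]

theorem lim_inj (hgen : ∀ i (x : Q i), ∃ a : Fin d → ℤ, x = ∏ j, e i j ^ a j)
    {b : {f : ∀ i, Q i // Cmp α β f} → (Fin d → ℤ_[p])} (hb : CSpec p m d e α β b) :
    Function.Injective b := by
  intro f g hfg
  apply Subtype.ext
  funext i
  obtain ⟨a, ha⟩ := hgen i (f.1 i)
  have h1 := (hb f i a).1 ha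
  rw [hfg] at h1
  rw [ha]
  exact ((hb g i a).2 h1).symm

theorem lim_mul (hgen : ∀ i (x : Q i), ∃ a : Fin d → ℤ, x = ∏ j, e i j ^ a j)
    {b : {f : ∀ i, Q i // Cmp α β f} → (Fin d → ℤ_[p])} (hb : CSpec p m d e α β b)
    (f g h : {f : ∀ i, Q i // Cmp α β f}) (hh : ∀ i, h.1 i = f.1 i * g.1 i) :
    b h = b f + b g := by
  funext j
  refine ext_levels m fun i => ?_
  obtain ⟨a, ha⟩ := hgen i (f.1 i)
  obtain ⟨a', ha'⟩ := hgen i (g.1 i)
  have h1 := (hb f i a).1 ha j
  have h2 := (hb g i a').1 ha' j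
  have h3 : h.1 i = ∏ j, e i j ^ (a j + a' j) := by
    rw [hh i, ha, ha', ← Finset.prod_mul_distrib]
    exact Finset.prod_congr rfl fun j _ => (zpow_add _ _ _).symm
  have h4 := (hb h i (fun j => a j + a' j)).1 h3 j
  rw [h4, Pi.add_apply, map_add, h1, h2]
  push_cast
  rfl

end

end P9700r
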