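import Mathlib
import Pool.Agent.Lib.P9700r.Lim

/-!
# Group actions on the inverse limit

A group `G` acts on all `Q i` compatibly. Then it acts `ℤ_[p]`-linearly on the coordinates.

Proof. For `g : G` and a compatible family `f` the family `i ↦ τ i g (f i)` is compatible (`hτ`). `b` is bijective (`lim_inj`, `hs`). `ρ g v := b (g f)` for the `f` with `b f = v`. Additive by `lim_mul`. `ℤ_[p]`-linear: let `z : ℤ_[p]`, `v = b f`, `f i = ∏ j, e i j ^ a j`, `n : ℤ` with
`toZModPow (m + i) z = n`: the family with coordinates `z • v` has `i`-th member `∏ j, e i j ^ (n * a j) = (f i) ^ n`, so `τ i g` of it is `(τ i g (f i)) ^ n`, whose coordinates modulo `p ^ (m + i)` are `n` times those of `ρ g v` (write `τ i g (f i) = ∏ j, e i j ^ c j`). So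
`ρ g (z • v)` and `z • ρ g v` agree modulo `p ^ (m + i)` for all `i`, so they are equal (`PadicInt.ext_of_toZModPow`). `ρ (g h) = ρ g * ρ h` because `τ i` is a homomorphism.
-/

set_option autoImplicit false

namespace P9700r

universe u v w

namespace LimActAux

theorem ext_of_levels {p : ℕ} [Fact p.Prime] (m : ℕ) {x y : ℤ_[p]}
    (h : ∀ i, PadicInt.toZModPow (m + i) x = PadicInt.toZModPow (m + i) y) : x = y := by
  rw [← PadicInt.ext_of_toZModPow]
  intro n
  have hle : n ≤ m + n := Nat.le_add_left n m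
  rw [← PadicInt.zmod_cast_comp_toZModPow n (m + n) hle]
  rw [RingHom.comp_apply, RingHom.comp_apply, h n]

end LimActAux

theorem lim_act {p : ℕ} [Fact p.Prime] {m d : ℕ} {Q : ℕ → Type u} {T : ℕ → Type v}
    [∀ i, CommGroup (Q i)] [∀ i, CommGroup (T i)] {e : ∀ i, Fin d → Q i}
    {α : ∀ i, Q (i + 1) →* T i} {β : ∀ i, Q i →* T i}
    (hgen : ∀ i (x : Q i), ∃ a : Fin d → ℤ, x = ∏ j, e i j ^ a j)
    {b : {f : ∀ i, Q i // Cmp α β f} → (Fin d → ℤ_[p])} (hb : CSpec p m d e α β b)
    (hs : Function.Surjective b) {G : Type w} [Group G] (τ : ∀ i, G →* MulAut (Q i))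
    (hτ : ∀ (g : G) (i : ℕ) (x : Q i) (y : Q (i + 1)), α i y = β i x →
      α i (τ (i + 1) g y) = β i (τ i g x)) :
    ∃ ρ : G →* Module.End ℤ_[p] (Fin d → ℤ_[p]),
      ∀ (g : G) (f f' : {f : ∀ i, Q i // Cmp α β f}), (∀ i, f'.1 i = τ i g (f.1 i)) →
        b f' = ρ g (b f) := by
  classical
  let act : G → {f : ∀ i, Q i // Cmp α β f} → {f : ∀ i, Q i // Cmp α β f} := fun g f =>
    ⟨fun i => τ i g (f.1 i), fun i => hτ g i (f.1 i) (f.1 (i + 1)) (f.2 i)⟩
  have act_val : ∀ (g : G) (f : {f : ∀ i, Q i // Cmp α β f}) (i : ℕ),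
      (act g f).1 i = τ i g (f.1 i) := fun g f i => rfl
  let F : {f : ∀ i, Q i // Cmp α β f} ≃ (Fin d → ℤ_[p]) :=
    Equiv.ofBijective b ⟨lim_inj hgen hb, hs⟩
  have F_app : ∀ f, F f = b f := fun f => rfl
  have b_symm : ∀ v, b (F.symm v) = v := fun v => F.apply_symm_apply v
  have symm_b : ∀ f, F.symm (b f) = f := fun f => F.symm_apply_apply f
  -- additivity
  have hadd : ∀ (g : G) (v w : Fin d → ℤ_[p]),
      b (act g (F.symm (v + w))) = b (act g (F.symm v)) + b (act g (F.symm w)) := by
    intro g v w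
    let k : {f : ∀ i, Q i // Cmp α β f} :=
      ⟨fun i => (F.symm v).1 i * (F.symm w).1 i, fun i => by
        change α i ((F.symm v).1 (i + 1) * (F.symm w).1 (i + 1)) =
          β i ((F.symm v).1 i * (F.symm w).1 i)
        rw [map_mul, map_mul, (F.symm v).2 i, (F.symm w).2 i]⟩
    have hk : b k = v + w := by
      rw [lim_mul hgen hb (F.symm v) (F.symm w) k (fun i => rfl), b_symm, b_symm]
    have hk' : F.symm (v + w) = k := by rw [← hk, symm_b]
    rw [hk']
    apply lim_mul hgen hb
    intro i
    rw [act_val, act_val, act_val, ← map_mul]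
  -- scalars
  have hsmul : ∀ (g : G) (z : ℤ_[p]) (v : Fin d → ℤ_[p]),
      b (act g (F.symm (z • v))) = z • b (act g (F.symm v)) := by
    intro g z v
    funext j
    apply LimActAux.ext_of_levels m
    intro i
    obtain ⟨a, ha⟩ := hgen i ((F.symm v).1 i)
    obtain ⟨n, hn⟩ := ZMod.intCast_surjective (PadicInt.toZModPow (m + i) z)
    have ha' := (hb (F.symm v) i a).1 ha
    rw [b_symm] at ha'
    have h1 : (F.symm (z • v)).1 i = ∏ j, e i j ^ (n * a j) := by
      rw [hb (F.symm (z • v)) i (fun j => n * a j), b_symm]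
      intro j
      rw [Pi.smul_apply, smul_eq_mul, map_mul, ha' j, ← hn, Int.cast_mul]
    have h2 : (F.symm (z • v)).1 i = ((F.symm v).1 i) ^ n := by
      rw [h1, ha, ← Finset.prod_zpow]
      refine Finset.prod_congr rfl fun j _ => ?_
      rw [mul_comm, zpow_mul]
    obtain ⟨c, hc⟩ := hgen i ((act g (F.symm v)).1 i)
    have hc' := (hb (act g (F.symm v)) i c).1 hc
    have h3 : (act g (F.symm (z • v))).1 i = ∏ j, e i j ^ (n * c j) := by
      rw [act_val, h2, map_zpow, ← act_val, hc, ← Finset.prod_zpow]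
      refine Finset.prod_congr rfl fun j _ => ?_
      rw [mul_comm n, zpow_mul]
    have h4 := (hb (act g (F.symm (z • v))) i (fun j => n * c j)).1 h3 j
    rw [h4, Pi.smul_apply, smul_eq_mul, map_mul, hc' j, ← hn, Int.cast_mul]
  let ρ : G →* Module.End ℤ_[p] (Fin d → ℤ_[p]) :=
    { toFun := fun g =>
        { toFun := fun v => b (act g (F.symm v))
          map_add' := hadd g
          map_smul' := hsmul g }
      map_one' := by
        refine LinearMap.ext fun v => ?_
        change b (act 1 (F.symm v)) = v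
        have h1 : act 1 (F.symm v) = F.symm v := by
          apply Subtype.ext
          funext i
          rw [act_val, map_one, MulAut.one_apply]
        rw [h1, b_symm]
      map_mul' := by
        intro g h
        refine LinearMap.ext fun v => ?_
        change b (act (g * h) (F.symm v)) = b (act g (F.symm (b (act h (F.symm v)))))
        have h1 : act (g * h) (F.symm v) = act g (act h (F.symm v)) := by
          apply Subtype.ext
          funext i
          rw [act_val, act_val, act_val, map_mul, MulAut.mul_apply]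
        rw [symm_b, h1] }
  refine ⟨ρ, ?_⟩
  intro g f f' hf'
  have e1 : f' = act g f := by
    apply Subtype.ext
    funext i
    exact hf' i
  change b f' = b (act g (F.symm (b f)))
  rw [symm_b, e1]

end P9700r
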