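import Mathlib
import Pool.Agent.Lib.P9700r.Defs
import Pool.Agent.Lib.P9700r.Comm
import Pool.Agent.Lib.P9700r.PowInj
import Pool.Agent.Lib.P9700r.QT
import Pool.Agent.Lib.P9700r.CoordQ
import Pool.Agent.Lib.P9700r.Lim
import Pool.Agent.Lib.P9700r.LimAct

/-!
# The representation over `ℤ_[p]` attached to a uniform filtration

Proof. `exists_coord` gives `u`, `e i j`. Apply `lim_coord` and `lim_act` to `Q i = QQ h (m + i)`, `T i = TT h (m + i)`, `α i = alp h (m + i)` (`m + (i + 1)` is `m + i + 1` by definition), `β i = bet h (m + i)`, `τ i = kap h (m + i)`.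
* `β i` is injective: `x ∈ P n`, `x ^ p ∈ P (2 n + 1) = P (n + 1 + n)` gives `x ∈ P (n + n)` (`pow_inj` with `y = 1`), `n = m + i ≥ m`.
* `α i (e (i + 1) j)` and `β i (e i j)` are both the class of `u j ^ (p ^ (i + 1)) = (u j ^ (p ^ i)) ^ p`.
* `hτ`: for `x` the class of `x'`, `y` the class of `y'`: `α i y = β i x` means `y' (x' ^ p)⁻¹ ∈ P (2 n + 1)` (`clT_eq`), conjugate by `g`.
For `x ∈ P m` let `F x` be the family `i ↦ clQ h (m + i) ⟨x ^ (p ^ i), _⟩`: compatible (`alp_cl`, `bet_cl`). `b x` = the coordinates of `F x` for `x ∈ P m` (and `0` otherwise).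
* injective on `P m`: `lim_inj` gives `F x = F y`, so `x ^ (p ^ i) (y ^ (p ^ i))⁻¹ ∈ P (2 (m + i)) = P (m + i + (m + i))` for all `i`, so `x y⁻¹ ∈ P (m + (m + i))` (`pow_inj_iter`) for all `i`, so `x y⁻¹ ∈ P k` for all `k` (`Filt.le_of_le`) and `x = y` by `hinf`.
* commuting `x`, `y`: `(x y) ^ (p ^ i) = x ^ (p ^ i) y ^ (p ^ i)` (`Commute.mul_pow`), `lim_mul`. Equivariance: `(g x g⁻¹) ^ (p ^ i) = g x ^ (p ^ i) g⁻¹` (`conj_pow`), `kap_cl`.
* `ρ g = 1` implies `b (g x g⁻¹) = b x`, so `g x g⁻¹ = x`. Conversely let `g` centralise `P m`. `b (u j) = Pi.single j 1` (`CSpec` with `a = Pi.single j 1`: the `i`-th member of `F (u j)` is `e i j`; then all reductions modulo `p ^ (m + i)` agree, `PadicInt.ext_of_toZModPow`), and `ρ g (b (u j)) = b (g (u j) g⁻¹) = b (u j)`: `ρ g = 1`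
  on the standard basis (`LinearMap.pi_ext'` or `Pi.basisFun`).
-/

set_option autoImplicit false

namespace P9700r

namespace RepAux

variable {G : Type*} [Group G] {p : ℕ} {P : ℕ → Subgroup G}

/-- the class of the iterated power. -/
def fam (h : Filt p P) (m : ℕ) (x : G) (hx : x ∈ P m) (i : ℕ) : QQ h (m + i) :=
  clQ h (m + i) ⟨x ^ (p ^ i), pow_mem_iter h i m x hx⟩

/-- the maps `alp` with shifted index. -/
def al (h : Filt p P) (m i : ℕ) : QQ h (m + (i + 1)) →* TT h (m + i) := alp h (m + i)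

/-- the maps `bet` with shifted index. -/
def be (h : Filt p P) (m i : ℕ) : QQ h (m + i) →* TT h (m + i) := bet h (m + i)

theorem fam_cmp (h : Filt p P) (m : ℕ) (x : G) (hx : x ∈ P m) (i : ℕ) :
    al h m i (fam h m x hx (i + 1)) = be h m i (fam h m x hx i) := by
  have e : x ^ (p ^ (i + 1)) = (x ^ (p ^ i)) ^ p := by rw [pow_succ, pow_mul]
  change alp h (m + i) (clQ h (m + i + 1) ⟨x ^ (p ^ (i + 1)), _⟩) =
    bet h (m + i) (clQ h (m + i) ⟨x ^ (p ^ i), _⟩)
  rw [alp_cl, bet_cl]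
  congr 1
  exact Subtype.ext e

theorem be_inj (h : Filt p P) {m d : ℕ} (hu : Unif p P m d) (i : ℕ) :
    Function.Injective (be h m i) := by
  rw [injective_iff_map_eq_one]
  intro a ha
  obtain ⟨x, rfl⟩ := clQ_surj h (m + i) a
  change bet h (m + i) (clQ h (m + i) x) = 1 at ha
  rw [bet_cl, clT_eq_one] at ha
  rw [clQ_eq_one]
  have ha' : (x : G) ^ p ∈ P (2 * (m + i) + 1) := ha
  have h1 : (x : G) ^ p * ((1 : G) ^ p)⁻¹ ∈ P (m + i + 1 + (m + i)) := by
    rw [one_pow, inv_one, mul_one]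
    have e : m + i + 1 + (m + i) = 2 * (m + i) + 1 := by omega
    rw [e]
    exact ha'
  have h2 := pow_inj h hu (m + i) (m + i) (by omega) x x.2 1 (Subgroup.one_mem _) h1
  rw [inv_one, mul_one] at h2
  have e : 2 * (m + i) = m + i + (m + i) := by omega
  rw [e]
  exact h2

theorem kap_cmp (h : Filt p P) (m : ℕ) (g : G) (i : ℕ) (a : QQ h (m + i)) (c : QQ h (m + (i + 1)))
    (hac : al h m i c = be h m i a) :
    al h m i (kap h (m + (i + 1)) g c) = be h m i (kap h (m + i) g a) := by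
  obtain ⟨x, rfl⟩ := clQ_surj h (m + i) a
  obtain ⟨y, rfl⟩ := clQ_surj h (m + (i + 1)) c
  change clT h (m + i) y = clT h (m + i) ⟨(x : G) ^ p, h.pow _ x x.2⟩ at hac
  rw [clT_eq] at hac
  change clT h (m + i) ⟨g * (y : G) * g⁻¹, _⟩ = clT h (m + i) ⟨(g * (x : G) * g⁻¹) ^ p, _⟩
  rw [clT_eq]
  change g * (y : G) * g⁻¹ * ((g * (x : G) * g⁻¹) ^ p)⁻¹ ∈ P (2 * (m + i) + 1)
  have hac' : (y : G) * ((x : G) ^ p)⁻¹ ∈ P (2 * (m + i) + 1) := hac
  have e : g * (y : G) * g⁻¹ * ((g * (x : G) * g⁻¹) ^ p)⁻¹ = g * ((y : G) * ((x : G) ^ p)⁻¹) * g⁻¹ := by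
    rw [conj_pow]
    group
  rw [e]
  exact (h.normal _).conj_mem _ hac' g

end RepAux

open RepAux in
theorem exists_rep {G : Type*} [Group G] {p : ℕ} [Fact p.Prime] {P : ℕ → Subgroup G}
    (h : Filt p P) {m d : ℕ} (hu : Unif p P m d) (hinf : ∀ g : G, (∀ k, g ∈ P k) → g = 1) :
    ∃ (ρ : G →* Module.End ℤ_[p] (Fin d → ℤ_[p])) (b : G → (Fin d → ℤ_[p])),
      (∀ g, ρ g = 1 ↔ ∀ x ∈ P m, g * x * g⁻¹ = x) ∧
      (∀ x ∈ P m, ∀ y ∈ P m, b x = b y → x = y) ∧
      (∀ x ∈ P m, ∀ y ∈ P m, x * y = y * x → b (x * y) = b x + b y) ∧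
      ∀ g, ∀ x ∈ P m, b (g * x * g⁻¹) = ρ g (b x) := by
  classical
  have hp : p.Prime := Fact.out
  obtain ⟨u, hm, hgen, hker⟩ := exists_coord hp h hu
  obtain ⟨b, hb, hs⟩ := lim_coord (p := p) (m := m) (d := d) (Q := fun i => QQ h (m + i))
    (T := fun i => TT h (m + i)) (e := fun i j => fam h m (u j) (hm j) i)
    (α := fun i => al h m i) (β := fun i => be h m i) hgen hker (be_inj h hu)
    (fun i j => fam_cmp h m (u j) (hm j) i)
  obtain ⟨ρ, hρ⟩ := lim_act (p := p) (m := m) (d := d) (Q := fun i => QQ h (m + i))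
    (T := fun i => TT h (m + i)) (e := fun i j => fam h m (u j) (hm j) i)
    (α := fun i => al h m i) (β := fun i => be h m i) hgen hb hs
    (fun i => kap h (m + i)) (kap_cmp h m)
  let Fam : ∀ x : G, x ∈ P m → {f : ∀ i, QQ h (m + i) // Cmp (fun i => al h m i) (fun i => be h m i) f} :=
    fun x hx => ⟨fun i => fam h m x hx i, fun i => fam_cmp h m x hx i⟩
  let b' : G → (Fin d → ℤ_[p]) := fun x => if hx : x ∈ P m then b (Fam x hx) else 0
  have b'_eq : ∀ x (hx : x ∈ P m), b' x = b (Fam x hx) := fun x hx => dif_pos hx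
  have hinj : ∀ x ∈ P m, ∀ y ∈ P m, b' x = b' y → x = y := by
    intro x hx y hy hxy
    rw [b'_eq x hx, b'_eq y hy] at hxy
    have h1 := lim_inj hgen hb hxy
    have h2 : ∀ i, x * y⁻¹ ∈ P (m + (m + i)) := by
      intro i
      have h3 : fam h m x hx i = fam h m y hy i := congrFun (congrArg Subtype.val h1) i
      unfold fam at h3
      rw [clQ_eq] at h3
      refine pow_inj_iter h hu i (m + i) m le_rfl x hx y hy ?_
      have e : m + i + (m + i) = 2 * (m + i) := by omega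
      rw [e]
      exact h3
    have h4 : x * y⁻¹ = 1 := hinf _ fun k => h.le_of_le (by omega) (h2 k)
    exact mul_inv_eq_one.1 h4
  have hequi : ∀ g, ∀ x ∈ P m, b' (g * x * g⁻¹) = ρ g (b' x) := by
    intro g x hx
    rw [b'_eq x hx, b'_eq _ ((h.normal m).conj_mem x hx g)]
    apply hρ
    intro i
    change clQ h (m + i) ⟨(g * x * g⁻¹) ^ (p ^ i), _⟩ = kap h (m + i) g (clQ h (m + i) ⟨x ^ (p ^ i), _⟩)
    rw [kap_cl]
    congr 1
    apply Subtype.ext
    change (g * x * g⁻¹) ^ (p ^ i) = g * x ^ (p ^ i) * g⁻¹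
    rw [conj_pow]
  have hbu : ∀ j, b' (u j) = Pi.single j 1 := by
    intro j
    rw [b'_eq _ (hm j)]
    funext j'
    apply LimActAux.ext_of_levels m
    intro i
    have h1 := (hb (Fam (u j) (hm j)) i (Pi.single j 1)).1 (by
      rw [Finset.prod_eq_single j]
      · rw [Pi.single_eq_same, zpow_one]
      · intro l _ hl
        rw [Pi.single_eq_of_ne hl, zpow_zero]
      · intro hj
        exact absurd (Finset.mem_univ j) hj) j'
    rw [h1]
    by_cases hj : j' = j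
    · subst hj
      rw [Pi.single_eq_same, Pi.single_eq_same, Int.cast_one, map_one]
    · rw [Pi.single_eq_of_ne hj, Pi.single_eq_of_ne hj, Int.cast_zero, map_zero]
  refine ⟨ρ, b', fun g => ⟨fun hg x hx => ?_, fun hg => ?_⟩, hinj, fun x hx y hy hxy => ?_, hequi⟩
  · apply hinj _ ((h.normal m).conj_mem x hx g) _ hx
    rw [hequi g x hx, hg]
    rfl
  · apply (Pi.basisFun ℤ_[p] (Fin d)).ext
    intro j
    rw [Pi.basisFun_apply, ← hbu j, ← hequi g _ (hm j), hg _ (hm j)]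
    rfl
  · rw [b'_eq x hx, b'_eq y hy, b'_eq _ (mul_mem hx hy)]
    apply lim_mul hgen hb
    intro i
    change clQ h (m + i) ⟨(x * y) ^ (p ^ i), _⟩ = clQ h (m + i) ⟨x ^ (p ^ i), _⟩ * clQ h (m + i) ⟨y ^ (p ^ i), _⟩
    rw [← map_mul]
    congr 1
    apply Subtype.ext
    change (x * y) ^ (p ^ i) = x ^ (p ^ i) * y ^ (p ^ i)
    exact Commute.mul_pow hxy (p ^ i)

end P9700r
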