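import Mathlib
import Pool.Agent.Lib.P9700r.Defs
import Pool.Agent.Lib.P9700r.Expo

/-!
# Virtually residually-p groups: the family `NP` separates points

`G0` a subgroup of finite index that is residually a finite `p`-group. With `G1 = G0.normalCore` every `g ≠ 1` lies outside some `N` with `NP p G1 N`.

Proof. If `g ∉ G1` take `N = G1` (`NP.self`). Otherwise `g ∈ G1 ≤ G0`; let `M` be normal in `G0`, of index `p ^ k`, not containing `g`. `M' = M.map G0.subtype`, `N = M'.normalCore ⊓ G1`... simplest: `N = (M' ⊓ G1).normalCore`: normal in `G`, inside `G1`, not containing `g`, of finite index in `G` (`M'` has finite index in `G`).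
For `x ∈ G1`: `x ^ (p ^ k) ∈ N`, because for every `h : G` the element `h x h⁻¹` lies in `G1 ≤ G0` and `(h x h⁻¹) ^ (p ^ k) ∈ M'` (`Subgroup.pow_index_mem` for the normal subgroup `M` of `G0`). So `G1 ⧸ N.subgroupOf G1` is a finite group in which every `x ^ (p ^ k) = 1`: its order is a power of `p` (`IsPGroup.iff_card`).
-/

set_option autoImplicit false

namespace P9700r

theorem exists_NP {G : Type*} [Group G] {p : ℕ} (hp : p.Prime) (G0 : Subgroup G)
    (hG0 : G0.FiniteIndex)
    (hres : ∀ g : G0, g ≠ 1 → ∃ N : Subgroup G0, N.Normal ∧ (∃ k : ℕ, N.index = p ^ k) ∧ g ∉ N)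
    (g : G) (hg : g ≠ 1) : ∃ N, NP p G0.normalCore N ∧ g ∉ N := by
  classical
  by_cases hg1 : g ∈ G0.normalCore
  · have hg0 : g ∈ G0 := G0.normalCore_le hg1
    obtain ⟨M, hM, ⟨k, hk⟩, hgM⟩ := hres ⟨g, hg0⟩ (fun h => hg (congrArg Subtype.val h))
    have hMi : (M.map G0.subtype).index ≠ 0 := by
      rw [Subgroup.index_map_subtype, hk]
      exact Nat.mul_ne_zero (pow_ne_zero k hp.ne_zero) hG0.index_ne_zero
    have hMf : (M.map G0.subtype).FiniteIndex := ⟨hMi⟩
    have hmem : ∀ z ∈ G0, z ^ (p ^ k) ∈ M.map G0.subtype := by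
      intro z hz
      have h1 := M.pow_index_mem (⟨z, hz⟩ : G0)
      rw [hk] at h1
      exact ⟨_, h1, rfl⟩
    let N : Subgroup G := (M.map G0.subtype ⊓ G0.normalCore).normalCore
    have hN1 : N ≤ G0.normalCore := (Subgroup.normalCore_le _).trans inf_le_right
    have hN2 : N ≤ M.map G0.subtype := (Subgroup.normalCore_le _).trans inf_le_left
    have hNf : N.FiniteIndex := inferInstance
    have hpow : ∀ y ∈ G0.normalCore, y ^ (p ^ k) ∈ N := by
      intro y hy b
      have h1 : b * y * b⁻¹ ∈ G0.normalCore := G0.normalCore_normal.conj_mem y hy b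
      rw [← conj_pow]
      exact ⟨hmem _ (G0.normalCore_le h1), G0.normalCore.pow_mem h1 _⟩
    refine ⟨N, ⟨Subgroup.normalCore_normal _, hN1, ?_⟩, ?_⟩
    · have : Fact p.Prime := ⟨hp⟩
      have hNn : N.Normal := Subgroup.normalCore_normal _
      have hpg : IsPGroup p (G0.normalCore ⧸ N.subgroupOf G0.normalCore) := by
        intro x
        obtain ⟨y, rfl⟩ := QuotientGroup.mk_surjective x
        refine ⟨k, ?_⟩
        rw [← QuotientGroup.mk_pow, QuotientGroup.eq_one_iff, Subgroup.mem_subgroupOf]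
        exact hpow y y.2
      exact IsPGroup.iff_card.1 hpg
    · intro h
      obtain ⟨z, hz, hzg⟩ := hN2 h
      apply hgM
      have h1 : z = ⟨g, hg0⟩ := Subtype.ext hzg
      rw [← h1]
      exact hz
  · exact ⟨G0.normalCore, NP.self p _ (Subgroup.normalCore_normal _), hg1⟩

end P9700r
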