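import Mathlib
import Pool.Agent.Lib.P9700r.Defs
import Pool.Agent.Lib.P9700r.Comm

/-!
# Stabilisation: the filtration is uniform from some index on

Proof. `x ↦ x ^ p` induces a homomorphism `π k : P k / P (k + 1) → P (k + 1) / P (k + 2)`: for `x, y ∈ P k` the commutator lies in `P (2 k + 2) ≤ P (k + 2)`, so `(x y) ^ p ≡ x ^ p y ^ p` modulo `P (k + 2)` (`mul_pow_mod`), and `x ∈ P (k + 1)` gives `x ^ p ∈ P (k + 2)`. It is surjective
because `P (k + 1) ≤ PW p (P k) ⊔ P (k + 2)` (`Filt.gen`). So `(P (k + 2)).relIndex (P (k + 1)) ≤ (P (k + 1)).relIndex (P k)`, all nonzero (`Filt.fin`); from some `m` on they are equal and `π k` is bijective, which is `inj`. The relative index is a power of `p` because `P k / P (k + 1)` is a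
finite group of exponent `p` (`x ^ p ∈ P (k + 1)`; `IsPGroup.iff_card`).
-/

set_option autoImplicit false

namespace P9700r

namespace StabAux

variable {G : Type*} [Group G]

private theorem quot_iff {P : ℕ → Subgroup G} (hn : ∀ k, (P k).Normal) (k : ℕ)
    (z : G) (hz : z ∈ P k) :
    ((QuotientGroup.mk' ((P (k + 1)).subgroupOf (P k))) ⟨z, hz⟩ = 1) ↔ z ∈ P (k + 1) := by
  rw [QuotientGroup.mk'_apply, QuotientGroup.eq_one_iff, Subgroup.mem_subgroupOf]

private theorem step {p : ℕ} {P : ℕ → Subgroup G} (h : Filt p P) (k : ℕ) :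
    ∃ K : Subgroup (P k), (P (k + 1)).subgroupOf (P k) ≤ K ∧
      K.index = (P (k + 2)).relIndex (P (k + 1)) ∧
      ∀ x : P k, (x : G) ^ p ∈ P (k + 2) → x ∈ K := by
  have hN : (P (k + 2)).Normal := h.normal _
  have hpow : ∀ x : P k, (x : G) ^ p ∈ P (k + 1) := fun x => h.pow k x x.2
  let Q := QuotientGroup.mk' ((P (k + 1 + 1)).subgroupOf (P (k + 1)))
  let φ : P k →* (P (k + 1) ⧸ (P (k + 1 + 1)).subgroupOf (P (k + 1))) :=
    { toFun := fun x => Q ⟨(x : G) ^ p, hpow x⟩
      map_one' := by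
        rw [quot_iff h.normal (k + 1)]
        simp only [Subgroup.coe_one, one_pow]
        exact Subgroup.one_mem _
      map_mul' := by
        intro x y
        rw [← map_mul, ← mul_inv_eq_one, ← map_inv, ← map_mul]
        have e : (⟨((x * y : P k) : G) ^ p, hpow (x * y)⟩ : P (k + 1)) *
            ((⟨(x : G) ^ p, hpow x⟩ : P (k + 1)) * ⟨(y : G) ^ p, hpow y⟩)⁻¹ =
            ⟨((x : G) * y) ^ p * ((x : G) ^ p * (y : G) ^ p)⁻¹, by
              refine Subgroup.mul_mem _ (hpow (x * y)) (Subgroup.inv_mem _ ?_)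
              exact Subgroup.mul_mem _ (hpow x) (hpow y)⟩ := by
          apply Subtype.ext
          simp
        rw [e, quot_iff h.normal (k + 1)]
        apply mul_pow_mod _ hN
        exact h.le_of_le (by omega) (h.comm_mem k k x x.2 y y.2) }
  have hφ : ∀ x : P k, φ x = Q ⟨(x : G) ^ p, hpow x⟩ := fun x => rfl
  refine ⟨φ.ker, ?_, ?_, ?_⟩
  · intro x hx
    rw [Subgroup.mem_subgroupOf] at hx
    rw [MonoidHom.mem_ker, hφ, quot_iff h.normal (k + 1)]
    exact h.pow (k + 1) x hx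
  · rw [Subgroup.index_ker]
    have hs : φ.range = ⊤ := by
      rw [eq_top_iff]
      let S : Subgroup (P (k + 1)) := φ.range.comap Q
      have hS : PW p (P k) ⊔ P (k + 1 + 1) ≤ S.map (P (k + 1)).subtype := by
        refine sup_le ?_ ?_
        · unfold PW
          rw [Subgroup.closure_le]
          rintro _ ⟨w, hw, rfl⟩
          refine ⟨⟨w ^ p, h.pow k w hw⟩, ?_, rfl⟩
          exact ⟨⟨w, hw⟩, rfl⟩
        · intro w hw
          refine ⟨⟨w, h.anti _ hw⟩, ?_, rfl⟩
          change Q ⟨w, h.anti _ hw⟩ ∈ φ.range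
          have : Q ⟨w, h.anti _ hw⟩ = 1 := (quot_iff h.normal (k + 1) w (h.anti _ hw)).2 hw
          rw [this]
          exact Subgroup.one_mem _
      rintro q -
      obtain ⟨z, rfl⟩ := QuotientGroup.mk'_surjective _ q
      obtain ⟨z', hz', e⟩ := hS (h.gen k (k + 2) z.2)
      have e' : z' = z := Subtype.ext e
      rw [e'] at hz'
      exact hz'
    rw [hs, Subgroup.relIndex, Subgroup.index_eq_card]
    exact Nat.card_congr (Subgroup.topEquiv).toEquiv
  · intro x hx
    rw [MonoidHom.mem_ker, hφ, quot_iff h.normal (k + 1)]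
    exact hx

private theorem card_pow {p : ℕ} (hp : p.Prime) {P : ℕ → Subgroup G} (h : Filt p P) (k : ℕ) :
    ∃ d : ℕ, (P (k + 1)).relIndex (P k) = p ^ d := by
  have hN : (P (k + 1)).Normal := h.normal _
  haveI : Fact p.Prime := ⟨hp⟩
  have hf : (P (k + 1)).relIndex (P k) ≠ 0 := h.fin k
  rw [Subgroup.relIndex, Subgroup.index_eq_card] at hf ⊢
  haveI : Finite (P k ⧸ (P (k + 1)).subgroupOf (P k)) := Nat.finite_of_card_ne_zero hf
  have hP : IsPGroup p (P k ⧸ (P (k + 1)).subgroupOf (P k)) := by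
    intro q
    obtain ⟨z, rfl⟩ := QuotientGroup.mk'_surjective _ q
    refine ⟨1, ?_⟩
    rw [pow_one, ← map_pow]
    exact (quot_iff h.normal k _ (z ^ p).2).2 (by
      rw [Subgroup.coe_pow]
      exact h.pow k z z.2)
  exact IsPGroup.iff_card.1 hP

end StabAux

theorem Filt.exists_unif {G : Type*} [Group G] {p : ℕ} (hp : p.Prime) {P : ℕ → Subgroup G}
    (h : Filt p P) : ∃ m d : ℕ, Unif p P m d := by
  have hstep := StabAux.step h
  have hdvd : ∀ k, (P (k + 2)).relIndex (P (k + 1)) ∣ (P (k + 1)).relIndex (P k) := by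
    intro k
    obtain ⟨K, hK, hi, -⟩ := hstep k
    rw [← hi]
    exact Subgroup.index_dvd_of_le hK
  have hanti : Antitone fun k => (P (k + 1)).relIndex (P k) :=
    antitone_nat_of_succ_le fun k => Nat.le_of_dvd (Nat.pos_of_ne_zero (h.fin k)) (hdvd k)
  obtain ⟨_, ⟨m, rfl⟩, hm⟩ := wellFounded_lt.has_min
    (Set.range fun k => (P (k + 1)).relIndex (P k)) ⟨_, 0, rfl⟩
  have hcst : ∀ k, m ≤ k → (P (k + 1)).relIndex (P k) = (P (m + 1)).relIndex (P m) := by
    intro k hk
    exact le_antisymm (hanti hk) (not_lt.1 (hm _ ⟨k, rfl⟩))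
  obtain ⟨d, hd⟩ := StabAux.card_pow hp h m
  refine ⟨m, d, fun k hk => (hcst k hk).trans hd, ?_⟩
  intro k hk x hx hxp
  obtain ⟨K, hK, hi, hmem⟩ := hstep k
  have h1 : K.index = ((P (k + 1)).subgroupOf (P k)).index := by
    rw [hi]
    change (P (k + 1 + 1)).relIndex (P (k + 1)) = (P (k + 1)).relIndex (P k)
    rw [hcst k hk, hcst (k + 1) (by omega)]
  have h2 : ((P (k + 1)).subgroupOf (P k)).index ≠ 0 := h.fin k
  have h3 : K ≤ (P (k + 1)).subgroupOf (P k) := by
    have h4 := Subgroup.relIndex_mul_index hK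
    rw [h1] at h4
    have h5 : ((P (k + 1)).subgroupOf (P k)).relIndex K = 1 := by
      have := Nat.eq_of_mul_eq_mul_right (Nat.pos_of_ne_zero h2) (h4.trans (one_mul _).symm)
      exact this
    exact Subgroup.relIndex_eq_one.1 h5
  have h6 : (⟨x, hx⟩ : P k) ∈ K := hmem ⟨x, hx⟩ hxp
  exact Subgroup.mem_subgroupOf.1 (h3 h6)

end P9700r
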