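import Mathlib
import Pool.Agent.Lib.P9700a.Defs
import Pool.Agent.Lib.P9700a.Rank
import Pool.Agent.Lib.P9700b.MainV
import Pool.Agent.Lib.P9700r.Defs
import Pool.Agent.Lib.P9700r.Expo
import Pool.Agent.Lib.P9700r.Comm
import Pool.Agent.Lib.P9700r.Elem
import Pool.Agent.Lib.P9700r.Filtr
import Pool.Agent.Lib.P9700r.Inter
import Pool.Agent.Lib.P9700r.Stab
import Pool.Agent.Lib.P9700r.Rep
import Pool.Agent.Lib.P9700r.BC
import Pool.Agent.Lib.P9700r.FinZ
import Pool.Agent.Lib.P9700r.FinA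
import Pool.Agent.Lib.P9700r.Resid

/-!
# Products of two subgroups of finite special rank in virtually residually-p groups
-/

set_option autoImplicit false

namespace P9700r

open P9700a

theorem main_resid {G : Type*} [Group G] {p : ℕ} (hp : p.Prime) (G0 : Subgroup G)
    (hG0 : G0.FiniteIndex)
    (hres : ∀ g : G0, g ≠ 1 → ∃ N : Subgroup G0, N.Normal ∧ (∃ k : ℕ, N.index = p ^ k) ∧ g ∉ N)
    (A B : Subgroup G) (hA : FR A) (hB : FR B) (hAB : ∀ g : G, ∃ a ∈ A, ∃ b ∈ B, g = a * b) :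
    FR G ∧ VS G := by
  haveI : Fact p.Prime := ⟨hp⟩
  haveI := hG0
  obtain ⟨c, hc⟩ := elem_bound p G0.normalCore A B hA hB hAB
  obtain ⟨P, hP, hNP, hgen⟩ := exists_filt hp (G0 := G0.normalCore) inferInstance hc
  have hinf : ∀ g : G, (∀ k, g ∈ P k) → g = 1 := by
    intro g hg
    by_contra hne
    obtain ⟨N, hN, hgN⟩ := exists_NP hp G0 hG0 hres g hne
    obtain ⟨k, hk⟩ := exists_le_of_gen hp (G0 := G0.normalCore) inferInstance P (hNP 0).2.1
      hP.normal hP.anti hgen hN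
    exact hgN (hk (hg k))
  obtain ⟨m, d, hu⟩ := hP.exists_unif hp
  obtain ⟨ρ, b, h1, h2, h3, h4⟩ := exists_rep hP hu hinf
  obtain ⟨σ, hσ1, hσ2⟩ := base_change p d ρ
  have hker : ∀ g, g ∈ σ.ker ↔ ∀ x ∈ P m, g * x * g⁻¹ = x := by
    intro g
    rw [MonoidHom.mem_ker, hσ2, h1]
  have hPn : (P m).Normal := hP.normal m
  have hZn : (σ.ker ⊓ P m).Normal := inferInstance
  have hb1 : b 1 = 0 := by
    have e := h3 1 (P m).one_mem 1 (P m).one_mem rfl
    rw [mul_one] at e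
    exact left_eq_add.mp e
  have hfi : (P m).FiniteIndex := by
    refine ⟨?_⟩
    have e1 := Subgroup.relIndex_mul_index (hNP m).2.1
    obtain ⟨k, hk⟩ := (hNP m).2.2
    rw [hk] at e1
    rw [← e1]
    exact mul_ne_zero (pow_ne_zero _ hp.ne_zero) Subgroup.FiniteIndex.index_ne_zero
  have hZr : FR (σ.ker ⊓ P m : Subgroup G) := by
    refine fr_of_embed (AlgebraicClosure ℚ_[p]) G (Fin d → AlgebraicClosure ℚ_[p]) σ A B hA hB hAB
      (σ.ker ⊓ P m) hZn (fun g => fun j => emb p (b g j)) ?_ ?_ ?_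
    · rintro z ⟨hz1, hz2⟩ z' ⟨hz1', hz2'⟩
      have hc' : z * z' = z' * z := by
        have := (hker z).1 hz1 z' hz2'
        calc z * z' = (z * z' * z⁻¹) * z := by group
          _ = z' * z := by rw [this]
      ext j
      simp only [h3 z hz2 z' hz2' hc', Pi.add_apply, map_add]
    · rintro z ⟨hz1, hz2⟩ hz
      apply h2 z hz2 1 (P m).one_mem
      rw [hb1]
      ext j
      have e := congrFun hz j
      exact (map_eq_zero_iff (emb p) (emb_injective p)).1 e
    · rintro g z ⟨hz1, hz2⟩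
      simp only [h4 g z hz2, hσ1]
  refine fr_vs_of_rep (AlgebraicClosure ℚ_[p]) G (Fin d → AlgebraicClosure ℚ_[p]) σ A B hA hB hAB
    (σ.ker ⊓ P m) hZn ?_ inf_le_left ?_ hZr
  · rintro z ⟨hz1, hz2⟩ z' ⟨hz1', hz2'⟩
    have := (hker z).1 hz1 z' hz2'
    calc z * z' = (z * z' * z⁻¹) * z := by group
      _ = z' * z := by rw [this]
  · rw [Subgroup.inf_relIndex_left]
    exact (inferInstance : ((P m).subgroupOf σ.ker).FiniteIndex).index_ne_zero

end P9700r
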